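import Mathlib

set_option autoImplicit false

namespace Pool.Agent.Helper91.Kneser

open Finset

variable {n : ℕ}

/-- Number of `m`-sets between `u` and `W`. -/
lemma card_between (u W : Finset (Fin n)) (hu : u ⊆ W) (m : ℕ) (hm : u.card ≤ m) :
    (Finset.univ.filter (fun e : Finset (Fin n) => e.card = m ∧ u ⊆ e ∧ e ⊆ W)).card
      = (W.card - u.card).choose (m - u.card) := by
  rw [← Finset.card_sdiff_of_subset hu, ← Finset.card_powersetCard]
  refine Finset.card_nbij' (fun e => e \ u) (fun f => f ∪ u) ?_ ?_ ?_ ?_
  · intro e he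
    rw [Finset.mem_coe, Finset.mem_filter] at he
    rw [Finset.mem_coe]
    obtain ⟨-, h1, h2, h3⟩ := he
    refine Finset.mem_powersetCard.mpr ⟨Finset.sdiff_subset_sdiff h3 le_rfl, ?_⟩
    rw [Finset.card_sdiff_of_subset h2, h1]
  · intro f hf
    have hf' := Finset.mem_powersetCard.mp (Finset.mem_coe.mp hf)
    rw [Finset.mem_coe, Finset.mem_filter]
    obtain ⟨h1, h2⟩ := hf'
    have hd : Disjoint f u := by
      rw [Finset.disjoint_left]
      intro x hx hxu
      exact (Finset.mem_sdiff.mp (h1 hx)).2 hxu
    refine ⟨Finset.mem_univ _, ?_, Finset.subset_union_right, ?_⟩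
    · rw [Finset.card_union_of_disjoint hd, h2]
      omega
    · exact Finset.union_subset (h1.trans Finset.sdiff_subset) hu
  · intro e he
    rw [Finset.mem_coe, Finset.mem_filter] at he
    exact Finset.sdiff_union_of_subset he.2.2.1
  · intro f hf
    have hf' := Finset.mem_powersetCard.mp (Finset.mem_coe.mp hf)
    obtain ⟨h1, h2⟩ := hf'
    ext x
    simp only [Finset.mem_sdiff, Finset.mem_union]
    constructor
    · rintro ⟨h | h, h'⟩
      · exact h
      · exact absurd h h'
    · intro hx
      exact ⟨Or.inl hx, (Finset.mem_sdiff.mp (h1 hx)).2⟩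

/-- The `8`-sets containing `u`. -/
def star (u : Finset (Fin n)) : Finset (Finset (Fin n)) :=
  Finset.univ.filter (fun e => e.card = 8 ∧ u ⊆ e)

lemma mem_star (u e : Finset (Fin n)) : e ∈ star u ↔ e.card = 8 ∧ u ⊆ e := by
  simp [star]

lemma card_star' (u : Finset (Fin n)) (hu : u.card ≤ 8) :
    (star u).card = (n - u.card).choose (8 - u.card) := by
  have := card_between u Finset.univ (Finset.subset_univ u) 8 hu
  simpa [star] using this

lemma card_star (u : Finset (Fin n)) (hu : u.card = 6) :
    (star u).card = (n - 6).choose 2 := by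
  rw [card_star' u (by omega), hu]

lemma star_inter (u v : Finset (Fin n)) : star u ∩ star v = star (u ∪ v) := by
  ext e
  simp only [Finset.mem_inter, mem_star, Finset.union_subset_iff]
  tauto

lemma card_union_ge (u v : Finset (Fin n)) (hu : u.card = 6) (hv : v.card = 6) (h : u ≠ v) :
    7 ≤ (u ∪ v).card := by
  by_contra hcon
  have h1 : (u ∪ v).card ≤ u.card := by omega
  have h2 : u = u ∪ v := Finset.eq_of_subset_of_card_le Finset.subset_union_left h1
  have h3 : v ⊆ u := by
    rw [h2]; exact Finset.subset_union_right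
  exact h (Finset.eq_of_subset_of_card_le h3 (by omega)).symm

lemma card_star_inter (u v : Finset (Fin n)) (hu : u.card = 6) (hv : v.card = 6) (h : u ≠ v) :
    (star u ∩ star v).card ≤ n := by
  rw [star_inter]
  have h7 := card_union_ge u v hu hv h
  have hn : (u ∪ v).card ≤ n := by
    simpa using Finset.card_le_univ (u ∪ v)
  by_cases h8 : (u ∪ v).card ≤ 8
  · rw [card_star' _ h8]
    have : (u ∪ v).card = 7 ∨ (u ∪ v).card = 8 := by omega
    rcases this with h | h
    · rw [h]; simp
    · rw [h]; simp; omega
  · have : star (u ∪ v) = ∅ := by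
      rw [Finset.eq_empty_iff_forall_notMem]
      intro e he
      rw [mem_star] at he
      have := Finset.card_le_card he.2
      omega
    rw [this]; simp

/-- A `6`-intersecting family of `8`-sets is contained in a star or has at most `224 n` members. -/
lemma intersecting_family (F : Finset (Finset (Fin n))) (h8 : ∀ e ∈ F, e.card = 8)
    (hF : ∀ e ∈ F, ∀ f ∈ F, 6 ≤ (e ∩ f).card) :
    (∃ u : Finset (Fin n), u.card = 6 ∧ ∀ e ∈ F, u ⊆ e) ∨ F.card ≤ 224 * n := by
  classical
  by_cases hstar : ∃ u : Finset (Fin n), u.card = 6 ∧ ∀ e ∈ F, u ⊆ e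
  · exact Or.inl hstar
  right
  push Not at hstar
  rcases F.eq_empty_or_nonempty with h0 | ⟨e1, he1⟩
  · simp [h0]
  -- for each `6`-subset `u` of `e1` there is a member not containing `u`
  have hcov : F ⊆ (Finset.powersetCard 6 e1).biUnion (fun u => F.filter (fun f => u ⊆ f)) := by
    intro f hf
    rw [Finset.mem_biUnion]
    have h6 := hF f hf e1 he1
    obtain ⟨u, hu1, hu2⟩ := Finset.exists_subset_card_eq h6
    refine ⟨u, ?_, ?_⟩
    · rw [Finset.mem_powersetCard]
      exact ⟨hu1.trans Finset.inter_subset_right, hu2⟩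
    · rw [Finset.mem_filter]
      exact ⟨hf, hu1.trans Finset.inter_subset_left⟩
  have hbound : ∀ u ∈ Finset.powersetCard 6 e1, (F.filter (fun f => u ⊆ f)).card ≤ 8 * n := by
    intro u hu
    have hu6 := (Finset.mem_powersetCard.mp hu).2
    obtain ⟨e, he, hue⟩ := hstar u hu6
    -- `f ⊇ u` contains an element of `e \ u`
    have hsub : F.filter (fun f => u ⊆ f) ⊆
        (e ×ˢ (Finset.univ : Finset (Fin n))).image (fun p => insert p.1 (insert p.2 u)) := by
      intro f hf
      rw [Finset.mem_filter] at hf
      have h1 := hF f hf.1 e he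
      have h2 : (u ∩ e).card < 6 := by
        by_contra hcon
        have : u ∩ e = u := Finset.eq_of_subset_of_card_le Finset.inter_subset_left (by omega)
        exact hue (this ▸ Finset.inter_subset_right)
      have h3 : ∃ x ∈ f ∩ e, x ∉ u ∩ e := by
        by_contra hcon
        push Not at hcon
        have : f ∩ e ⊆ u ∩ e := hcon
        have := Finset.card_le_card this
        omega
      obtain ⟨x, hx1, hx2⟩ := h3
      rw [Finset.mem_inter] at hx1
      have hxu : x ∉ u := fun h => hx2 (Finset.mem_inter.mpr ⟨h, hx1.2⟩)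
      have h4 : (insert x u).card = 7 := by
        rw [Finset.card_insert_of_notMem hxu, hu6]
      have h5 : insert x u ⊆ f := Finset.insert_subset hx1.1 hf.2
      have h6 : (f \ insert x u).card = 1 := by
        rw [Finset.card_sdiff_of_subset h5, h4, h8 f hf.1]
      obtain ⟨y, hy⟩ := Finset.card_eq_one.mp h6
      rw [Finset.mem_image]
      refine ⟨(x, y), by simp [hx1.2], ?_⟩
      have h7 : f = insert x u ∪ (f \ insert x u) := (Finset.union_sdiff_of_subset h5).symm
      rw [h7, hy]
      ext z
      simp only [Finset.mem_insert, Finset.mem_union, Finset.mem_singleton]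
      tauto
    calc (F.filter (fun f => u ⊆ f)).card
        ≤ ((e ×ˢ (Finset.univ : Finset (Fin n))).image
            (fun p => insert p.1 (insert p.2 u))).card := Finset.card_le_card hsub
      _ ≤ (e ×ˢ (Finset.univ : Finset (Fin n))).card := Finset.card_image_le
      _ = 8 * n := by rw [Finset.card_product, h8 e he]; simp
  calc F.card ≤ ((Finset.powersetCard 6 e1).biUnion (fun u => F.filter (fun f => u ⊆ f))).card :=
        Finset.card_le_card hcov
    _ ≤ ∑ u ∈ Finset.powersetCard 6 e1, (F.filter (fun f => u ⊆ f)).card :=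
        Finset.card_biUnion_le
    _ ≤ ∑ _u ∈ Finset.powersetCard 6 e1, 8 * n := Finset.sum_le_sum hbound
    _ = 224 * n := by
        rw [Finset.sum_const, Finset.card_powersetCard, h8 e1 he1, smul_eq_mul,
          show Nat.choose 8 6 = 28 from by decide]
        ring

/-- Covering a set of functions by products. -/
lemma cover_bound {E ι : Type} [Fintype E] [DecidableEq E] (I : Finset ι)
    (X : Finset (E → Fin 12)) (A : ι → E → Finset (Fin 12))
    (hcov : ∀ c ∈ X, ∃ i ∈ I, ∀ e, c e ∈ A i e) :
    X.card ≤ ∑ i ∈ I, ∏ e, (A i e).card := by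
  classical
  calc X.card ≤ (I.biUnion (fun i => Fintype.piFinset (A i))).card := by
        apply Finset.card_le_card
        intro c hc
        obtain ⟨i, hi, h⟩ := hcov c hc
        rw [Finset.mem_biUnion]
        exact ⟨i, hi, Fintype.mem_piFinset.mpr h⟩
    _ ≤ ∑ i ∈ I, (Fintype.piFinset (A i)).card := Finset.card_biUnion_le
    _ = ∑ i ∈ I, ∏ e, (A i e).card := by
        refine Finset.sum_congr rfl (fun i _ => ?_)
        rw [Fintype.card_piFinset]

end Pool.Agent.Helper91.Kneser
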