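import Mathlib
import Pool.Agent.Helper91.K1

set_option autoImplicit false

namespace Pool.Agent.Helper91.Kneser

open Finset

variable {n : ℕ}

/-- The Kneser colourings with `12` colours (same colour means at least `6` common vertices). -/
noncomputable def KC (H : Finset (Finset (Fin n))) : Finset (H → Fin 12) := by
  classical
  exact Finset.univ.filter (fun c => ∀ e f : H, c e = c f → 6 ≤ (e.1 ∩ f.1).card)

lemma mem_KC (H : Finset (Finset (Fin n))) (c : H → Fin 12) :
    c ∈ KC H ↔ ∀ e f : H, c e = c f → 6 ≤ (e.1 ∩ f.1).card := by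
  classical
  unfold KC
  rw [Finset.mem_filter]
  simp

/-- `6`-sets of vertices. -/
abbrev Six (n : ℕ) := {u : Finset (Fin n) // u.card = 6}

/-- Multiplicity. -/
def mult (β : Fin 12 → Option (Six n)) (u : Six n) : ℕ :=
  (Finset.univ.filter (fun σ => β σ = some u)).card

/-- Used centres. -/
def Uset (β : Fin 12 → Option (Six n)) : Finset (Six n) :=
  Finset.univ.filter (fun u => 0 < mult β u)

/-- Allowed colours. -/
noncomputable def alw {L : ℕ} (H : Finset (Finset (Fin n))) (β : Fin 12 → Option (Six n))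
    (g : Fin 12 → Fin L → Option H) (e : H) : Finset (Fin 12) := by
  classical
  exact Finset.univ.filter
    (fun σ => (∃ u, β σ = some u ∧ u.1 ⊆ e.1) ∨ ∃ i, g σ i = some e)

lemma mem_alw {L : ℕ} (H : Finset (Finset (Fin n))) (β : Fin 12 → Option (Six n))
    (g : Fin 12 → Fin L → Option H) (e : H) (σ : Fin 12) :
    σ ∈ alw H β g e ↔ (∃ u, β σ = some u ∧ u.1 ⊆ e.1) ∨ ∃ i, g σ i = some e := by
  classical
  unfold alw
  rw [Finset.mem_filter]
  simp

lemma sum_mult_le (β : Fin 12 → Option (Six n)) (S : Finset (Six n)) :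
    ∑ u ∈ S, mult β u ≤ 12 := by
  classical
  unfold mult
  rw [← Finset.card_biUnion]
  · exact (Finset.card_le_univ _).trans (by simp)
  · intro u _ v _ huv
    rw [Function.onFun, Finset.disjoint_left]
    intro σ h1 h2
    rw [Finset.mem_filter] at h1 h2
    exact huv (Option.some_injective _ (h1.2.symm.trans h2.2))

lemma mult_pos_of_mem (β : Fin 12 → Option (Six n)) (u : Six n) (hu : u ∈ Uset β) :
    1 ≤ mult β u := (Finset.mem_filter.mp hu).2

lemma card_Uset_le (β : Fin 12 → Option (Six n)) : (Uset β).card ≤ 12 := by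
  calc (Uset β).card = ∑ _u ∈ Uset β, 1 := by simp
    _ ≤ ∑ u ∈ Uset β, mult β u := Finset.sum_le_sum (fun u hu => mult_pos_of_mem β u hu)
    _ ≤ 12 := sum_mult_le β _

/-- Bad edges: covered by `g` or in two stars. -/
def Bad {L : ℕ} (H : Finset (Finset (Fin n))) (β : Fin 12 → Option (Six n))
    (g : Fin 12 → Fin L → Option H) (e : H) : Prop :=
  (∃ σ i, g σ i = some e) ∨
    ∃ u ∈ Uset β, ∃ v ∈ Uset β, u ≠ v ∧ u.1 ⊆ e.1 ∧ v.1 ⊆ e.1

open Classical in
lemma alw_card_le {L : ℕ} (H : Finset (Finset (Fin n))) (β : Fin 12 → Option (Six n))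
    (g : Fin 12 → Fin L → Option H) (e : H) :
    (alw H β g e).card ≤ (if Bad H β g e then 12 else 1) *
      ∏ u ∈ Uset β, (if u.1 ⊆ e.1 then mult β u else 1) := by
  have hone : 1 ≤ ∏ u ∈ Uset β, (if u.1 ⊆ e.1 then mult β u else 1) := by
    apply Finset.one_le_prod'
    intro u hu
    split_ifs
    · exact mult_pos_of_mem β u hu
    · exact le_rfl
  by_cases hb : Bad H β g e
  · rw [if_pos hb]
    calc (alw H β g e).card ≤ 12 := (Finset.card_le_univ _).trans (by simp)
      _ = 12 * 1 := by ring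
      _ ≤ _ := Nat.mul_le_mul_left 12 hone
  · rw [if_neg hb, one_mul]
    rcases (alw H β g e).eq_empty_or_nonempty with h0 | ⟨σ0, h0⟩
    · rw [h0]; simp
    · unfold Bad at hb
      push Not at hb
      obtain ⟨hb1, hb2⟩ := hb
      rw [mem_alw] at h0
      rcases h0 with ⟨u, hu1, hu2⟩ | ⟨i, hi⟩
      · have hmem : ∀ σ v, β σ = some v → v ∈ Uset β := by
          intro σ v h
          unfold Uset mult
          rw [Finset.mem_filter]
          refine ⟨Finset.mem_univ _, ?_⟩
          rw [Finset.card_pos]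
          exact ⟨σ, by simp [h]⟩
        have huU := hmem _ _ hu1
        have hsub : alw H β g e ⊆ Finset.univ.filter (fun σ => β σ = some u) := by
          intro σ hσ
          rw [mem_alw] at hσ
          rw [Finset.mem_filter]
          refine ⟨Finset.mem_univ _, ?_⟩
          rcases hσ with ⟨v, hv1, hv2⟩ | ⟨i, hi⟩
          · by_cases huv : v = u
            · rw [← huv]; exact hv1
            · exact absurd hu2 (hb2 v (hmem _ _ hv1) u huU huv hv2)
          · exact absurd hi (hb1 σ i)
        calc (alw H β g e).card ≤ mult β u := Finset.card_le_card hsub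
          _ = (if u.1 ⊆ e.1 then mult β u else 1) := by rw [if_pos hu2]
          _ ≤ ∏ u ∈ Uset β, (if u.1 ⊆ e.1 then mult β u else 1) := by
              apply Finset.single_le_prod' (f := fun u : Six n =>
                (if u.1 ⊆ e.1 then mult β u else 1)) _ huU
              intro w hw
              show 1 ≤ (if w.1 ⊆ e.1 then mult β w else 1)
              split_ifs
              · exact mult_pos_of_mem β w hw
              · exact le_rfl
      · exact absurd hi (hb1 σ0 i)

open Classical in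
lemma card_bad_le {L : ℕ} (H : Finset (Finset (Fin n))) (h8 : ∀ e ∈ H, e.card = 8)
    (β : Fin 12 → Option (Six n)) (g : Fin 12 → Fin L → Option H) :
    (Finset.univ.filter (fun e : H => Bad H β g e)).card ≤ 12 * L + 144 * n := by
  have h1 : (Finset.univ.filter (fun e : H => ∃ σ i, g σ i = some e)).card ≤ 12 * L := by
    have hsub : (Finset.univ.filter (fun e : H => ∃ σ i, g σ i = some e)).image some ⊆
        (Finset.univ : Finset (Fin 12 × Fin L)).image (fun p => g p.1 p.2) := by
      intro x hx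
      rw [Finset.mem_image] at hx
      obtain ⟨e, he, rfl⟩ := hx
      obtain ⟨σ, i, h⟩ := (Finset.mem_filter.mp he).2
      rw [Finset.mem_image]
      exact ⟨(σ, i), Finset.mem_univ _, h⟩
    calc (Finset.univ.filter (fun e : H => ∃ σ i, g σ i = some e)).card
        = ((Finset.univ.filter (fun e : H => ∃ σ i, g σ i = some e)).image some).card :=
          (Finset.card_image_of_injective _ (Option.some_injective _)).symm
      _ ≤ ((Finset.univ : Finset (Fin 12 × Fin L)).image (fun p => g p.1 p.2)).card :=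
          Finset.card_le_card hsub
      _ ≤ (Finset.univ : Finset (Fin 12 × Fin L)).card := Finset.card_image_le
      _ = 12 * L := by simp
  have h2 : (Finset.univ.filter (fun e : H => ∃ u ∈ Uset β, ∃ v ∈ Uset β, u ≠ v ∧
      u.1 ⊆ e.1 ∧ v.1 ⊆ e.1)).card ≤ 144 * n := by
    have hsub : (Finset.univ.filter (fun e : H => ∃ u ∈ Uset β, ∃ v ∈ Uset β, u ≠ v ∧
        u.1 ⊆ e.1 ∧ v.1 ⊆ e.1)).image Subtype.val ⊆
        ((Uset β ×ˢ Uset β).filter (fun p => p.1 ≠ p.2)).biUnion
          (fun p => star p.1.1 ∩ star p.2.1) := by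
      intro x hx
      rw [Finset.mem_image] at hx
      obtain ⟨e, he, rfl⟩ := hx
      obtain ⟨u, hu, v, hv, huv, h3, h4⟩ := (Finset.mem_filter.mp he).2
      rw [Finset.mem_biUnion]
      refine ⟨(u, v), ?_, ?_⟩
      · rw [Finset.mem_filter, Finset.mem_product]
        exact ⟨⟨hu, hv⟩, huv⟩
      · rw [Finset.mem_inter, mem_star, mem_star]
        exact ⟨⟨h8 _ e.2, h3⟩, ⟨h8 _ e.2, h4⟩⟩
    calc (Finset.univ.filter (fun e : H => ∃ u ∈ Uset β, ∃ v ∈ Uset β, u ≠ v ∧
          u.1 ⊆ e.1 ∧ v.1 ⊆ e.1)).card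
        = ((Finset.univ.filter (fun e : H => ∃ u ∈ Uset β, ∃ v ∈ Uset β, u ≠ v ∧
          u.1 ⊆ e.1 ∧ v.1 ⊆ e.1)).image Subtype.val).card :=
          (Finset.card_image_of_injective _ Subtype.val_injective).symm
      _ ≤ (((Uset β ×ˢ Uset β).filter (fun p => p.1 ≠ p.2)).biUnion
          (fun p => star p.1.1 ∩ star p.2.1)).card := Finset.card_le_card hsub
      _ ≤ ∑ p ∈ (Uset β ×ˢ Uset β).filter (fun p => p.1 ≠ p.2),
          (star p.1.1 ∩ star p.2.1).card := Finset.card_biUnion_le
      _ ≤ ∑ _p ∈ (Uset β ×ˢ Uset β).filter (fun p => p.1 ≠ p.2), n := by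
          apply Finset.sum_le_sum
          intro p hp
          have := (Finset.mem_filter.mp hp).2
          exact card_star_inter _ _ p.1.2 p.2.2 (fun h => this (Subtype.ext h))
      _ = ((Uset β ×ˢ Uset β).filter (fun p => p.1 ≠ p.2)).card * n := by
          rw [Finset.sum_const, smul_eq_mul]
      _ ≤ 144 * n := by
          apply Nat.mul_le_mul_right
          calc ((Uset β ×ˢ Uset β).filter (fun p => p.1 ≠ p.2)).card
              ≤ (Uset β ×ˢ Uset β).card := Finset.card_filter_le _ _
            _ = (Uset β).card * (Uset β).card := Finset.card_product _ _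
            _ ≤ 12 * 12 := Nat.mul_le_mul (card_Uset_le β) (card_Uset_le β)
            _ = 144 := by norm_num
  calc (Finset.univ.filter (fun e : H => Bad H β g e)).card
      ≤ ((Finset.univ.filter (fun e : H => ∃ σ i, g σ i = some e)) ∪
        (Finset.univ.filter (fun e : H => ∃ u ∈ Uset β, ∃ v ∈ Uset β, u ≠ v ∧
          u.1 ⊆ e.1 ∧ v.1 ⊆ e.1))).card := by
        apply Finset.card_le_card
        intro e he
        have := (Finset.mem_filter.mp he).2
        rw [Finset.mem_union, Finset.mem_filter, Finset.mem_filter]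
        unfold Bad at this
        rcases this with h | h
        · exact Or.inl ⟨Finset.mem_univ _, h⟩
        · exact Or.inr ⟨Finset.mem_univ _, h⟩
    _ ≤ _ := Finset.card_union_le _ _
    _ ≤ 12 * L + 144 * n := add_le_add h1 h2

open Classical in
/-- The product bound. -/
lemma prod_alw_le {L : ℕ} (H : Finset (Finset (Fin n))) (h8 : ∀ e ∈ H, e.card = 8)
    (β : Fin 12 → Option (Six n)) (g : Fin 12 → Fin L → Option H) :
    ∏ e, (alw H β g e).card ≤ 12 ^ (12 * L + 144 * n) *
      ∏ u ∈ Uset β, mult β u ^ (Finset.univ.filter (fun e : H => u.1 ⊆ e.1)).card := by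
  calc ∏ e, (alw H β g e).card
      ≤ ∏ e : H, ((if Bad H β g e then 12 else 1) *
        ∏ u ∈ Uset β, (if u.1 ⊆ e.1 then mult β u else 1)) :=
        Finset.prod_le_prod' (fun e _ => alw_card_le H β g e)
    _ = (∏ e : H, (if Bad H β g e then 12 else 1)) *
        ∏ e : H, ∏ u ∈ Uset β, (if u.1 ⊆ e.1 then mult β u else 1) := Finset.prod_mul_distrib
    _ = 12 ^ (Finset.univ.filter (fun e : H => Bad H β g e)).card *
        ∏ u ∈ Uset β, mult β u ^ (Finset.univ.filter (fun e : H => u.1 ⊆ e.1)).card := by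
        congr 1
        · rw [Finset.prod_ite, Finset.prod_const, Finset.prod_const_one, mul_one]
        · rw [Finset.prod_comm]
          refine Finset.prod_congr rfl (fun u _ => ?_)
          rw [Finset.prod_ite, Finset.prod_const, Finset.prod_const_one, mul_one]
    _ ≤ _ := by
        apply Nat.mul_le_mul_right
        exact Nat.pow_le_pow_right (by norm_num) (card_bad_le H h8 β g)

open Classical in
lemma card_filter_star_le (H : Finset (Finset (Fin n))) (h8 : ∀ e ∈ H, e.card = 8)
    (u : Six n) : (Finset.univ.filter (fun e : H => u.1 ⊆ e.1)).card ≤ (n - 6).choose 2 := by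
  rw [← card_star u.1 u.2]
  calc (Finset.univ.filter (fun e : H => u.1 ⊆ e.1)).card
      = ((Finset.univ.filter (fun e : H => u.1 ⊆ e.1)).image Subtype.val).card :=
        (Finset.card_image_of_injective _ Subtype.val_injective).symm
    _ ≤ (star u.1).card := by
        apply Finset.card_le_card
        intro x hx
        rw [Finset.mem_image] at hx
        obtain ⟨e, he, rfl⟩ := hx
        rw [mem_star]
        exact ⟨h8 _ e.2, (Finset.mem_filter.mp he).2⟩

/-- Balanced centre assignments. -/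
def Balanced (β : Fin 12 → Option (Six n)) : Prop :=
  (Uset β).card = 4 ∧ ∀ u ∈ Uset β, mult β u = 3

lemma prod_le_77 {ι : Type} (U : Finset ι) (k : ι → ℕ) (hsum : ∑ u ∈ U, k u ≤ 12)
    (hnb : ¬ (U.card = 4 ∧ ∀ u ∈ U, k u = 3)) : ∏ u ∈ U, k u ≤ 77 := by
  classical
  have hk12 : ∀ u ∈ U, k u ≤ 12 := fun u hu =>
    (Finset.single_le_sum (f := k) (fun _ _ => Nat.zero_le _) hu).trans hsum
  have h3 : ∀ m : ℕ, m ≤ 12 → m ^ 3 ≤ 3 ^ m := by
    intro m hm
    interval_cases m <;> norm_num
  have h3' : ∀ m : ℕ, m ≤ 12 → m ≠ 3 → 9 * m ^ 3 ≤ 8 * 3 ^ m := by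
    intro m hm hm3
    interval_cases m <;> first | (exfalso; exact hm3 rfl) | norm_num
  by_cases hall : ∀ u ∈ U, k u = 3
  · have hc : U.card ≤ 3 := by
      have h1 : ∑ u ∈ U, k u = U.card * 3 := by
        rw [Finset.sum_congr rfl hall, Finset.sum_const, smul_eq_mul]
      have h2 : U.card ≠ 4 := fun h => hnb ⟨h, hall⟩
      omega
    rw [Finset.prod_congr rfl hall, Finset.prod_const]
    calc 3 ^ U.card ≤ 3 ^ 3 := Nat.pow_le_pow_right (by norm_num) hc
      _ ≤ 77 := by norm_num
  · push Not at hall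
    obtain ⟨u0, hu0, hne⟩ := hall
    by_contra hcon
    push Not at hcon
    have h4 : 9 * (∏ u ∈ U, k u) ^ 3 ≤ 8 * 3 ^ 12 := by
      rw [← Finset.prod_pow, ← Finset.mul_prod_erase U _ hu0]
      calc 9 * (k u0 ^ 3 * ∏ u ∈ U.erase u0, k u ^ 3)
          = (9 * k u0 ^ 3) * ∏ u ∈ U.erase u0, k u ^ 3 := by ring
        _ ≤ (8 * 3 ^ k u0) * ∏ u ∈ U.erase u0, 3 ^ k u := by
            apply Nat.mul_le_mul (h3' _ (hk12 u0 hu0) hne)
            apply Finset.prod_le_prod'
            intro u hu
            exact h3 _ (hk12 u (Finset.mem_of_mem_erase hu))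
        _ = 8 * ∏ u ∈ U, 3 ^ k u := by
            rw [← Finset.mul_prod_erase U _ hu0]
            ring
        _ = 8 * 3 ^ (∑ u ∈ U, k u) := by rw [Finset.prod_pow_eq_pow_sum]
        _ ≤ 8 * 3 ^ 12 := by
            apply Nat.mul_le_mul_left
            exact Nat.pow_le_pow_right (by norm_num) hsum
    have h5 : 78 ^ 3 ≤ (∏ u ∈ U, k u) ^ 3 := Nat.pow_le_pow_left hcon 3
    have h6 : 9 * 78 ^ 3 ≤ 8 * 3 ^ 12 := (Nat.mul_le_mul_left 9 h5).trans h4
    norm_num at h6

/-- The product bound, unbalanced case. -/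
lemma prod_alw_unbalanced {L : ℕ} (H : Finset (Finset (Fin n))) (h8 : ∀ e ∈ H, e.card = 8)
    (β : Fin 12 → Option (Six n)) (g : Fin 12 → Fin L → Option H) (hβ : ¬ Balanced β) :
    ∏ e, (alw H β g e).card ≤ 12 ^ (12 * L + 144 * n) * 77 ^ ((n - 6).choose 2) := by
  classical
  refine (prod_alw_le H h8 β g).trans (Nat.mul_le_mul_left _ ?_)
  calc ∏ u ∈ Uset β, mult β u ^ (Finset.univ.filter (fun e : H => u.1 ⊆ e.1)).card
      ≤ ∏ u ∈ Uset β, mult β u ^ ((n - 6).choose 2) := by
        apply Finset.prod_le_prod'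
        intro u hu
        exact Nat.pow_le_pow_right (mult_pos_of_mem β u hu) (card_filter_star_le H h8 u)
    _ = (∏ u ∈ Uset β, mult β u) ^ ((n - 6).choose 2) := Finset.prod_pow _ _ _
    _ ≤ 77 ^ ((n - 6).choose 2) := by
        apply Nat.pow_le_pow_left
        exact prod_le_77 _ _ (sum_mult_le β _) hβ

end Pool.Agent.Helper91.Kneser
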