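import Mathlib
import Pool.Agent.Helper91.K2

set_option autoImplicit false

namespace Pool.Agent.Helper91.Kneser

open Finset

variable {n : ℕ}

lemma exists_enum {α : Type} (S : Finset α) (L : ℕ) (h : S.card ≤ L) :
    ∃ g : Fin L → Option α, ∀ e ∈ S, ∃ i, g i = some e := by
  refine ⟨fun i => S.toList[i.1]?, fun e he => ?_⟩
  have h1 : e ∈ S.toList := Finset.mem_toList.mpr he
  obtain ⟨k, hk, hke⟩ := List.getElem_of_mem h1
  have h2 : k < L := by
    rw [Finset.length_toList] at hk
    omega
  refine ⟨⟨k, h2⟩, ?_⟩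
  show S.toList[k]? = some e
  rw [List.getElem?_eq_getElem hk, hke]

/-- Classification of a Kneser colouring. -/
lemma classify (H : Finset (Finset (Fin n))) (h8 : ∀ e ∈ H, e.card = 8) (c : H → Fin 12)
    (hc : c ∈ KC H) :
    ∃ (β : Fin 12 → Option (Six n)) (g : Fin 12 → Fin (224 * n) → Option H),
      (∀ e, c e ∈ alw H β g e) ∧
      (∀ σ u, β σ = some u → ∀ e : H, c e = σ → u.1 ⊆ e.1) ∧
      (∀ σ, β σ = none → ∀ e : H, c e = σ → ∃ i, g σ i = some e) := by
  classical
  rw [mem_KC] at hc
  have key : ∀ σ : Fin 12, (∃ u : Six n, ∀ e : H, c e = σ → u.1 ⊆ e.1) ∨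
      ∃ g : Fin (224 * n) → Option H, ∀ e : H, c e = σ → ∃ i, g i = some e := by
    intro σ
    rcases intersecting_family ((Finset.univ.filter (fun e : H => c e = σ)).image Subtype.val)
      (by
        intro e he
        rw [Finset.mem_image] at he
        obtain ⟨e', _, rfl⟩ := he
        exact h8 _ e'.2)
      (by
        intro e he f hf
        rw [Finset.mem_image] at he hf
        obtain ⟨e', he', rfl⟩ := he
        obtain ⟨f', hf', rfl⟩ := hf
        apply hc
        rw [(Finset.mem_filter.mp he').2, (Finset.mem_filter.mp hf').2]) with ⟨u, hu6, hu⟩ | hcard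
    · left
      refine ⟨⟨u, hu6⟩, fun e he => ?_⟩
      apply hu
      rw [Finset.mem_image]
      exact ⟨e, by simp [he], rfl⟩
    · right
      rw [Finset.card_image_of_injective _ Subtype.val_injective] at hcard
      obtain ⟨g, hg⟩ := exists_enum _ _ hcard
      exact ⟨g, fun e he => hg e (by simp [he])⟩
  -- choose
  let β : Fin 12 → Option (Six n) := fun σ =>
    if h : ∃ u : Six n, ∀ e : H, c e = σ → u.1 ⊆ e.1 then some h.choose else none
  have hβ1 : ∀ σ u, β σ = some u → ∀ e : H, c e = σ → u.1 ⊆ e.1 := by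
    intro σ u hσ
    by_cases h : ∃ u : Six n, ∀ e : H, c e = σ → u.1 ⊆ e.1
    · have h2 : β σ = some h.choose := dif_pos h
      rw [h2] at hσ
      have := Option.some_injective _ hσ
      rw [← this]
      exact h.choose_spec
    · have h2 : β σ = none := dif_neg h
      rw [h2] at hσ
      exact absurd hσ (by simp)
  have hβ2 : ∀ σ, β σ = none → ∃ g : Fin (224 * n) → Option H,
      ∀ e : H, c e = σ → ∃ i, g i = some e := by
    intro σ hσ
    by_cases h : ∃ u : Six n, ∀ e : H, c e = σ → u.1 ⊆ e.1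
    · have h2 : β σ = some h.choose := dif_pos h
      rw [h2] at hσ
      exact absurd hσ (by simp)
    · exact (key σ).resolve_left h
  let g : Fin 12 → Fin (224 * n) → Option H := fun σ =>
    if h : β σ = none then (hβ2 σ h).choose else fun _ => none
  have hg : ∀ σ, β σ = none → ∀ e : H, c e = σ → ∃ i, g σ i = some e := by
    intro σ hσ e he
    have h2 : g σ = (hβ2 σ hσ).choose := dif_pos hσ
    rw [h2]
    exact (hβ2 σ hσ).choose_spec e he
  refine ⟨β, g, fun e => ?_, hβ1, hg⟩
  rw [mem_alw]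
  rcases hb : β (c e) with _ | u
  · exact Or.inr (hg (c e) hb e rfl)
  · exact Or.inl ⟨u, rfl, hβ1 _ _ hb e rfl⟩

/-- Balanced maps to four centres. -/
def BalMap : Finset (Fin 12 → Fin 4) :=
  Finset.univ.filter (fun a => ∀ i, (Finset.univ.filter (fun σ => a σ = i)).card = 3)

lemma mem_BalMap (a : Fin 12 → Fin 4) :
    a ∈ BalMap ↔ ∀ i, (Finset.univ.filter (fun σ => a σ = i)).card = 3 := by
  simp [BalMap]

lemma balanced_some (β : Fin 12 → Option (Six n)) (hβ : Balanced β) (σ : Fin 12) :
    ∃ u, β σ = some u ∧ u ∈ Uset β := by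
  classical
  by_contra hcon
  have hnone : β σ = none := by
    rcases hb : β σ with _ | u
    · rfl
    · exfalso
      apply hcon
      refine ⟨u, hb, ?_⟩
      unfold Uset mult
      rw [Finset.mem_filter]
      refine ⟨Finset.mem_univ _, ?_⟩
      rw [Finset.card_pos]
      exact ⟨σ, by simp [hb]⟩
  have h1 : ∑ u ∈ Uset β, mult β u = 12 := by
    rw [Finset.sum_congr rfl hβ.2, Finset.sum_const, hβ.1, smul_eq_mul]
  have h2 : ∑ u ∈ Uset β, mult β u ≤ 11 := by
    unfold mult
    rw [← Finset.card_biUnion]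
    · calc _ ≤ ((Finset.univ : Finset (Fin 12)).erase σ).card := by
            apply Finset.card_le_card
            intro τ hτ
            rw [Finset.mem_biUnion] at hτ
            obtain ⟨u, _, hu⟩ := hτ
            rw [Finset.mem_erase]
            refine ⟨?_, Finset.mem_univ _⟩
            rintro rfl
            rw [Finset.mem_filter, hnone] at hu
            exact absurd hu.2 (by simp)
        _ = 11 := by simp
    · intro u _ v _ huv
      rw [Function.onFun, Finset.disjoint_left]
      intro σ h1 h2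
      rw [Finset.mem_filter] at h1 h2
      exact huv (Option.some_injective _ (h1.2.symm.trans h2.2))
  omega

/-- A balanced assignment with prescribed centres is a balanced map. -/
lemma balanced_map (β : Fin 12 → Option (Six n)) (hβ : Balanced β) (t : Fin 4 → Six n)
    (ht : Function.Injective t) (htU : ∀ i, t i ∈ Uset β) :
    ∃ a ∈ BalMap, ∀ σ, β σ = some (t (a σ)) := by
  classical
  have himg : Finset.univ.image t = Uset β := by
    apply Finset.eq_of_subset_of_card_le
    · intro u hu
      rw [Finset.mem_image] at hu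
      obtain ⟨i, _, rfl⟩ := hu
      exact htU i
    · rw [hβ.1, Finset.card_image_of_injective _ ht]
      simp
  have hex : ∀ σ, ∃ i, β σ = some (t i) := by
    intro σ
    obtain ⟨u, hu1, hu2⟩ := balanced_some β hβ σ
    rw [← himg, Finset.mem_image] at hu2
    obtain ⟨i, _, rfl⟩ := hu2
    exact ⟨i, hu1⟩
  choose a ha using hex
  refine ⟨a, ?_, ha⟩
  rw [mem_BalMap]
  intro i
  have h1 := hβ.2 (t i) (htU i)
  unfold mult at h1
  rw [← h1]
  congr 1
  ext σ
  rw [Finset.mem_filter, Finset.mem_filter, ha]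
  constructor
  · rintro ⟨h, h'⟩
    exact ⟨h, by rw [h']⟩
  · rintro ⟨h, h'⟩
    exact ⟨h, ht (Option.some_injective _ h')⟩

/-- Number of centres below `e`. -/
def jn (t : Fin 4 → Six n) (e : Finset (Fin n)) : ℕ :=
  (Finset.univ.filter (fun i => (t i).1 ⊆ e)).card

/-- The error factor. -/
def Efac (n : ℕ) : ℕ :=
  ((n ^ 6 + 1) ^ 12 * (((n ^ 8 + 1) ^ (224 * n)) ^ 12)) *
    (12 ^ (12 * (224 * n) + 144 * n) * 3 ^ (4 * n))

lemma card_six_le : Fintype.card (Six n) ≤ n ^ 6 := by
  rw [Fintype.card_finset_len, Fintype.card_fin]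
  exact Nat.choose_le_pow n 6

lemma card_H_le (H : Finset (Finset (Fin n))) (h8 : ∀ e ∈ H, e.card = 8) :
    Fintype.card H ≤ n ^ 8 := by
  rw [Fintype.card_coe]
  calc H.card ≤ (Finset.powersetCard 8 (Finset.univ : Finset (Fin n))).card := by
        apply Finset.card_le_card
        intro e he
        rw [Finset.mem_powersetCard]
        exact ⟨Finset.subset_univ _, h8 e he⟩
    _ = n.choose 8 := by simp
    _ ≤ n ^ 8 := Nat.choose_le_pow n 8

lemma card_data_le (H : Finset (Finset (Fin n))) (h8 : ∀ e ∈ H, e.card = 8) :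
    Fintype.card ((Fin 12 → Option (Six n)) × (Fin 12 → Fin (224 * n) → Option H))
      ≤ (n ^ 6 + 1) ^ 12 * (((n ^ 8 + 1) ^ (224 * n)) ^ 12) := by
  rw [Fintype.card_prod, Fintype.card_fun, Fintype.card_fun, Fintype.card_fun, Fintype.card_fin,
    Fintype.card_fin, Fintype.card_option, Fintype.card_option]
  apply Nat.mul_le_mul
  · exact Nat.pow_le_pow_left (Nat.add_le_add_right card_six_le 1) 12
  · apply Nat.pow_le_pow_left
    exact Nat.pow_le_pow_left (Nat.add_le_add_right (card_H_le H h8) 1) _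

/-- Structure: either few colourings, or the edges are covered by four centres. -/
lemma struct_none (H : Finset (Finset (Fin n))) (h8 : ∀ e ∈ H, e.card = 8)
    (hno : ¬ ∃ t : Fin 4 → Six n, Function.Injective t ∧ ∀ e ∈ H, ∃ i, (t i).1 ⊆ e) :
    (KC H).card ≤ Efac n * 77 ^ ((n - 6).choose 2) := by
  classical
  have hcov : ∀ c ∈ KC H, ∃ D ∈ (Finset.univ : Finset ((Fin 12 → Option (Six n)) ×
      (Fin 12 → Fin (224 * n) → Option H))).filter (fun D => ¬ Balanced D.1),
      ∀ e, c e ∈ alw H D.1 D.2 e := by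
    intro c hc
    obtain ⟨β, g, h1, h2, h3⟩ := classify H h8 c hc
    refine ⟨(β, g), ?_, h1⟩
    rw [Finset.mem_filter]
    refine ⟨Finset.mem_univ _, fun hb => ?_⟩
    apply hno
    -- enumerate `Uset β`
    have hcard : Fintype.card (Uset β) = Fintype.card (Fin 4) := by
      rw [Fintype.card_coe, hb.1, Fintype.card_fin]
    let e4 : Fin 4 ≃ Uset β := (Fintype.equivOfCardEq hcard).symm
    refine ⟨fun i => (e4 i).1, fun i j hij => e4.injective (Subtype.ext hij), fun e he => ?_⟩
    obtain ⟨u, hu1, hu2⟩ := balanced_some β hb (c ⟨e, he⟩)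
    refine ⟨e4.symm ⟨u, hu2⟩, ?_⟩
    simp only [Equiv.apply_symm_apply]
    exact h2 _ _ hu1 ⟨e, he⟩ rfl
  refine (cover_bound _ _ (fun D : (Fin 12 → Option (Six n)) ×
      (Fin 12 → Fin (224 * n) → Option H) => alw H D.1 D.2) hcov).trans ?_
  calc _ ≤ ∑ _D ∈ (Finset.univ : Finset ((Fin 12 → Option (Six n)) ×
      (Fin 12 → Fin (224 * n) → Option H))).filter (fun D => ¬ Balanced D.1),
      (12 ^ (12 * (224 * n) + 144 * n) * 77 ^ ((n - 6).choose 2)) := by
        apply Finset.sum_le_sum
        intro D hD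
        exact prod_alw_unbalanced H h8 D.1 D.2 (Finset.mem_filter.mp hD).2
    _ = (((Finset.univ : Finset ((Fin 12 → Option (Six n)) ×
      (Fin 12 → Fin (224 * n) → Option H))).filter (fun D => ¬ Balanced D.1)).card) *
      (12 ^ (12 * (224 * n) + 144 * n) * 77 ^ ((n - 6).choose 2)) := by
        rw [Finset.sum_const, smul_eq_mul]
    _ ≤ ((n ^ 6 + 1) ^ 12 * (((n ^ 8 + 1) ^ (224 * n)) ^ 12)) *
      (12 ^ (12 * (224 * n) + 144 * n) * 77 ^ ((n - 6).choose 2)) := by
        apply Nat.mul_le_mul_right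
        exact (Finset.card_le_univ _).trans (card_data_le H h8)
    _ ≤ Efac n * 77 ^ ((n - 6).choose 2) := by
        unfold Efac
        rw [mul_assoc, mul_assoc, mul_assoc, mul_assoc]
        apply Nat.mul_le_mul_left
        apply Nat.mul_le_mul_left
        apply Nat.mul_le_mul_left
        have : 1 ≤ 3 ^ (4 * n) := Nat.one_le_pow _ _ (by norm_num)
        calc 77 ^ ((n - 6).choose 2) = 1 * 77 ^ ((n - 6).choose 2) := (one_mul _).symm
          _ ≤ _ := Nat.mul_le_mul_right _ this

/-- Bound for data that are not balanced with centres `t`. -/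
lemma prod_alw_other {L : ℕ} (H : Finset (Finset (Fin n))) (h8 : ∀ e ∈ H, e.card = 8)
    (t : Fin 4 → Six n) (hHt : ∀ e ∈ H, ∃ i, (t i).1 ⊆ e)
    (β : Fin 12 → Option (Six n)) (g : Fin 12 → Fin L → Option H)
    (hβ : ¬ (Balanced β ∧ ∀ i, t i ∈ Uset β)) :
    ∏ e, (alw H β g e).card ≤
      12 ^ (12 * L + 144 * n) * (3 ^ (4 * n) * 77 ^ ((n - 6).choose 2)) := by
  classical
  by_cases hb : Balanced β
  · have hex : ∃ u ∈ Uset β, ∀ i, t i ≠ u := by
      by_contra hcon
      push Not at hcon
      apply hβ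
      refine ⟨hb, ?_⟩
      have hsub : Uset β ⊆ Finset.univ.image t := by
        intro u hu
        obtain ⟨i, hi⟩ := hcon u hu
        rw [Finset.mem_image]
        exact ⟨i, Finset.mem_univ _, hi⟩
      have heq : Uset β = Finset.univ.image t := by
        apply Finset.eq_of_subset_of_card_le hsub
        rw [hb.1]
        exact Finset.card_image_le.trans (by simp)
      intro i
      rw [heq, Finset.mem_image]
      exact ⟨i, Finset.mem_univ _, rfl⟩
    obtain ⟨u1, hu1, hu1t⟩ := hex
    refine (prod_alw_le H h8 β g).trans (Nat.mul_le_mul_left _ ?_)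
    have hsmall : (Finset.univ.filter (fun e : H => u1.1 ⊆ e.1)).card ≤ 4 * n := by
      calc (Finset.univ.filter (fun e : H => u1.1 ⊆ e.1)).card
          = ((Finset.univ.filter (fun e : H => u1.1 ⊆ e.1)).image Subtype.val).card :=
            (Finset.card_image_of_injective _ Subtype.val_injective).symm
        _ ≤ ((Finset.univ : Finset (Fin 4)).biUnion (fun i => star (t i).1 ∩ star u1.1)).card := by
            apply Finset.card_le_card
            intro x hx
            rw [Finset.mem_image] at hx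
            obtain ⟨e, he, rfl⟩ := hx
            obtain ⟨i, hi⟩ := hHt _ e.2
            rw [Finset.mem_biUnion]
            refine ⟨i, Finset.mem_univ _, ?_⟩
            rw [Finset.mem_inter, mem_star, mem_star]
            exact ⟨⟨h8 _ e.2, hi⟩, ⟨h8 _ e.2, (Finset.mem_filter.mp he).2⟩⟩
        _ ≤ ∑ i : Fin 4, (star (t i).1 ∩ star u1.1).card := Finset.card_biUnion_le
        _ ≤ ∑ _i : Fin 4, n := by
            apply Finset.sum_le_sum
            intro i _
            exact card_star_inter _ _ (t i).2 u1.2 (fun h => hu1t i (Subtype.ext h))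
        _ = 4 * n := by simp
    rw [← Finset.mul_prod_erase _ _ hu1, hb.2 u1 hu1]
    apply Nat.mul_le_mul
    · exact Nat.pow_le_pow_right (by norm_num) hsmall
    · calc ∏ u ∈ (Uset β).erase u1,
            mult β u ^ (Finset.univ.filter (fun e : H => u.1 ⊆ e.1)).card
          ≤ ∏ _u ∈ (Uset β).erase u1, 3 ^ ((n - 6).choose 2) := by
            apply Finset.prod_le_prod'
            intro u hu
            rw [hb.2 u (Finset.mem_of_mem_erase hu)]
            exact Nat.pow_le_pow_right (by norm_num) (card_filter_star_le H h8 u)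
        _ = (3 ^ ((n - 6).choose 2)) ^ 3 := by
            rw [Finset.prod_const, Finset.card_erase_of_mem hu1, hb.1]
        _ = 27 ^ ((n - 6).choose 2) := by
            rw [← pow_mul, mul_comm, pow_mul]
            norm_num
        _ ≤ 77 ^ ((n - 6).choose 2) := Nat.pow_le_pow_left (by norm_num) _
  · refine (prod_alw_unbalanced H h8 β g hb).trans (Nat.mul_le_mul_left _ ?_)
    have : 1 ≤ 3 ^ (4 * n) := Nat.one_le_pow _ _ (by norm_num)
    calc 77 ^ ((n - 6).choose 2) = 1 * 77 ^ ((n - 6).choose 2) := (one_mul _).symm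
      _ ≤ _ := Nat.mul_le_mul_right _ this

lemma card_alwBal (t : Fin 4 → Six n) (a : Fin 12 → Fin 4) (ha : a ∈ BalMap)
    (e : Finset (Fin n)) [DecidablePred (fun σ => (t (a σ)).1 ⊆ e)] :
    (Finset.univ.filter (fun σ => (t (a σ)).1 ⊆ e)).card = 3 * jn t e := by
  classical
  rw [mem_BalMap] at ha
  have h1 : Finset.univ.filter (fun σ => (t (a σ)).1 ⊆ e)
      = (Finset.univ.filter (fun i => (t i).1 ⊆ e)).biUnion
        (fun i => Finset.univ.filter (fun σ => a σ = i)) := by
    ext σ
    simp only [Finset.mem_filter, Finset.mem_univ, true_and, Finset.mem_biUnion]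
    constructor
    · intro h
      exact ⟨a σ, h, rfl⟩
    · rintro ⟨i, h, rfl⟩
      exact h
  rw [h1, Finset.card_biUnion]
  · rw [Finset.sum_congr rfl (fun i _ => ha i), Finset.sum_const, smul_eq_mul]
    unfold jn
    ring
  · intro i _ j _ hij
    rw [Function.onFun, Finset.disjoint_left]
    intro σ h1 h2
    exact hij ((Finset.mem_filter.mp h1).2.symm.trans (Finset.mem_filter.mp h2).2)

/-- Upper bound when the edges are covered by the four centres `t`. -/
lemma struct_some (H : Finset (Finset (Fin n))) (h8 : ∀ e ∈ H, e.card = 8)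
    (t : Fin 4 → Six n) (ht : Function.Injective t) (hHt : ∀ e ∈ H, ∃ i, (t i).1 ⊆ e) :
    (KC H).card ≤ BalMap.card * (∏ e : H, 3 * jn t e.1)
      + Efac n * 77 ^ ((n - 6).choose 2) := by
  classical
  set X1 := (KC H).filter (fun c => ∃ a ∈ BalMap, ∀ e : H, (t (a (c e))).1 ⊆ e.1) with hX1
  set X2 := (KC H).filter (fun c => ¬ ∃ a ∈ BalMap, ∀ e : H, (t (a (c e))).1 ⊆ e.1) with hX2
  have hsplit : (KC H).card = X1.card + X2.card :=
    (Finset.card_filter_add_card_filter_not _).symm
  rw [hsplit]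
  apply add_le_add
  · have hcov : ∀ c ∈ X1, ∃ a ∈ BalMap, ∀ e : H,
        c e ∈ Finset.univ.filter (fun σ => (t (a σ)).1 ⊆ e.1) := by
      intro c hc
      obtain ⟨a, ha, h⟩ := (Finset.mem_filter.mp hc).2
      exact ⟨a, ha, fun e => by simpa using h e⟩
    refine (cover_bound _ _ (fun (a : Fin 12 → Fin 4) (e : H) =>
      Finset.univ.filter (fun σ => (t (a σ)).1 ⊆ e.1)) hcov).trans ?_
    calc _ = ∑ _a ∈ BalMap, ∏ e : H, 3 * jn t e.1 := by
          refine Finset.sum_congr rfl (fun a ha => ?_)
          refine Finset.prod_congr rfl (fun e _ => ?_)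
          exact card_alwBal t a ha e.1
      _ = BalMap.card * (∏ e : H, 3 * jn t e.1) := by
          rw [Finset.sum_const, smul_eq_mul]
      _ ≤ _ := le_rfl
  · have hcov : ∀ c ∈ X2, ∃ D ∈ (Finset.univ : Finset ((Fin 12 → Option (Six n)) ×
        (Fin 12 → Fin (224 * n) → Option H))).filter
          (fun D => ¬ (Balanced D.1 ∧ ∀ i, t i ∈ Uset D.1)),
        ∀ e, c e ∈ alw H D.1 D.2 e := by
      intro c hc
      rw [hX2, Finset.mem_filter] at hc
      obtain ⟨β, g, h1, h2, h3⟩ := classify H h8 c hc.1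
      refine ⟨(β, g), ?_, h1⟩
      rw [Finset.mem_filter]
      refine ⟨Finset.mem_univ _, fun hb => ?_⟩
      obtain ⟨a, ha, haβ⟩ := balanced_map β hb.1 t ht hb.2
      exact hc.2 ⟨a, ha, fun e => h2 _ _ (haβ (c e)) e rfl⟩
    refine (cover_bound _ _ (fun D : (Fin 12 → Option (Six n)) ×
        (Fin 12 → Fin (224 * n) → Option H) => alw H D.1 D.2) hcov).trans ?_
    calc _ ≤ ∑ _D ∈ (Finset.univ : Finset ((Fin 12 → Option (Six n)) ×
        (Fin 12 → Fin (224 * n) → Option H))).filter
          (fun D => ¬ (Balanced D.1 ∧ ∀ i, t i ∈ Uset D.1)),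
        (12 ^ (12 * (224 * n) + 144 * n) * (3 ^ (4 * n) * 77 ^ ((n - 6).choose 2))) := by
          apply Finset.sum_le_sum
          intro D hD
          exact prod_alw_other H h8 t hHt D.1 D.2 (Finset.mem_filter.mp hD).2
      _ = (((Finset.univ : Finset ((Fin 12 → Option (Six n)) ×
        (Fin 12 → Fin (224 * n) → Option H))).filter
          (fun D => ¬ (Balanced D.1 ∧ ∀ i, t i ∈ Uset D.1))).card) *
        (12 ^ (12 * (224 * n) + 144 * n) * (3 ^ (4 * n) * 77 ^ ((n - 6).choose 2))) := by
          rw [Finset.sum_const, smul_eq_mul]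
      _ ≤ ((n ^ 6 + 1) ^ 12 * (((n ^ 8 + 1) ^ (224 * n)) ^ 12)) *
        (12 ^ (12 * (224 * n) + 144 * n) * (3 ^ (4 * n) * 77 ^ ((n - 6).choose 2))) := by
          apply Nat.mul_le_mul_right
          exact (Finset.card_le_univ _).trans (card_data_le H h8)
      _ = Efac n * 77 ^ ((n - 6).choose 2) := by
          unfold Efac
          ring

end Pool.Agent.Helper91.Kneser
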