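import Mathlib
import Pool.Agent.Helper91.K3

set_option autoImplicit false
set_option linter.constructorNameAsVariable false
set_option maxRecDepth 4000

namespace Pool.Agent.Helper91.Kneser

open Finset

variable {n : ℕ}

/-- The complete hypergraph with centres `t`. -/
def Ht (t : Fin 4 → Six n) : Finset (Finset (Fin n)) :=
  Finset.univ.filter (fun e => e.card = 8 ∧ ∃ i, (t i).1 ⊆ e)

lemma mem_Ht (t : Fin 4 → Six n) (e : Finset (Fin n)) :
    e ∈ Ht t ↔ e.card = 8 ∧ ∃ i, (t i).1 ⊆ e := by
  simp [Ht]

/-- Nice centres: pairwise intersections at most `3`. -/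
def Nice (t : Fin 4 → Six n) : Prop := ∀ i j, i ≠ j → ((t i).1 ∩ (t j).1).card ≤ 3

lemma nice_unique (t : Fin 4 → Six n) (ht : Nice t) (e : Finset (Fin n)) (he : e.card = 8)
    (i j : Fin 4) (hi : (t i).1 ⊆ e) (hj : (t j).1 ⊆ e) : i = j := by
  by_contra hij
  have h1 := ht i j hij
  have h2 : ((t i).1 ∪ (t j).1).card ≤ 8 := by
    rw [← he]
    exact Finset.card_le_card (Finset.union_subset hi hj)
  have h3 := Finset.card_union_add_card_inter (t i).1 (t j).1
  rw [(t i).2, (t j).2] at h3
  omega

lemma nice_injective (t : Fin 4 → Six n) (ht : Nice t) : Function.Injective t := by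
  intro i j hij
  by_contra h
  have h1 := ht i j h
  rw [hij, Finset.inter_self, (t j).2] at h1
  omega

lemma sum_jn (t : Fin 4 → Six n) :
    ∑ e ∈ Ht t, jn t e = 4 * (n - 6).choose 2 := by
  classical
  unfold jn
  simp_rw [Finset.card_filter]
  rw [Finset.sum_comm]
  have : ∀ i : Fin 4, ∑ e ∈ Ht t, (if (t i).1 ⊆ e then 1 else 0) = (n - 6).choose 2 := by
    intro i
    rw [← Finset.card_filter, ← card_star (t i).1 (t i).2]
    congr 1
    ext e
    rw [Finset.mem_filter, mem_Ht, mem_star]
    constructor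
    · rintro ⟨⟨h1, _⟩, h2⟩
      exact ⟨h1, h2⟩
    · rintro ⟨h1, h2⟩
      exact ⟨⟨h1, ⟨i, h2⟩⟩, h2⟩
  rw [Finset.sum_congr rfl (fun i _ => this i)]
  simp

lemma jn_le (t : Fin 4 → Six n) (e : Finset (Fin n)) : jn t e ≤ 4 := by
  unfold jn
  exact (Finset.card_le_univ _).trans (by simp)

lemma three_mul_le (j : ℕ) (hj : j ≤ 4) : 3 * j ≤ 3 ^ j := by
  interval_cases j <;> norm_num

/-- Strict loss if `H` is not the complete hypergraph of nice centres. -/
lemma prod_jn_loss (hn : 8 ≤ n) (H : Finset (Finset (Fin n))) (h8 : ∀ e ∈ H, e.card = 8)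
    (t : Fin 4 → Six n) (hHt : ∀ e ∈ H, ∃ i, (t i).1 ⊆ e) (hno : ¬ (H = Ht t ∧ Nice t)) :
    3 * ∏ e : H, 3 * jn t e.1 ≤ 2 * 81 ^ ((n - 6).choose 2) := by
  classical
  have hsub : H ⊆ Ht t := fun e he => (mem_Ht t e).mpr ⟨h8 e he, hHt e he⟩
  have h81 : 81 ^ ((n - 6).choose 2) = 3 ^ (4 * (n - 6).choose 2) := by
    rw [pow_mul]; norm_num
  rw [Finset.prod_coe_sort H (fun e => 3 * jn t e), h81, ← sum_jn t]
  by_cases hH : H = Ht t
  · have hnice : ¬ Nice t := fun h => hno ⟨hH, h⟩
    unfold Nice at hnice
    push Not at hnice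
    obtain ⟨i, j, hij, h4⟩ := hnice
    have hu : ((t i).1 ∪ (t j).1).card ≤ 8 := by
      have h3 := Finset.card_union_add_card_inter (t i).1 (t j).1
      rw [(t i).2, (t j).2] at h3
      omega
    obtain ⟨e0, he01, he02⟩ := Finset.exists_superset_card_eq hu (by simpa using hn)
    have hi : (t i).1 ⊆ e0 := Finset.subset_union_left.trans he01
    have hj : (t j).1 ⊆ e0 := Finset.subset_union_right.trans he01
    have he0H : e0 ∈ H := by
      rw [hH, mem_Ht]
      exact ⟨he02, ⟨i, hi⟩⟩
    have h2 : 2 ≤ jn t e0 := by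
      unfold jn
      have : ({i, j} : Finset (Fin 4)) ⊆ Finset.univ.filter (fun i => (t i).1 ⊆ e0) := by
        intro k hk
        rw [Finset.mem_filter]
        refine ⟨Finset.mem_univ _, ?_⟩
        rw [Finset.mem_insert, Finset.mem_singleton] at hk
        rcases hk with rfl | rfl
        · exact hi
        · exact hj
      calc 2 = ({i, j} : Finset (Fin 4)).card := (Finset.card_pair hij).symm
        _ ≤ _ := Finset.card_le_card this
    have h3 : 3 * (3 * jn t e0) ≤ 2 * 3 ^ jn t e0 := by
      have := jn_le t e0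
      generalize jn t e0 = j at *
      interval_cases j <;> norm_num
    rw [← hH, ← Finset.mul_prod_erase H _ he0H, ← Finset.prod_pow_eq_pow_sum,
      ← Finset.mul_prod_erase H (fun e => 3 ^ jn t e) he0H]
    calc 3 * (3 * jn t e0 * ∏ e ∈ H.erase e0, 3 * jn t e)
        = (3 * (3 * jn t e0)) * ∏ e ∈ H.erase e0, 3 * jn t e := by ring
      _ ≤ (2 * 3 ^ jn t e0) * ∏ e ∈ H.erase e0, 3 ^ jn t e := by
          apply Nat.mul_le_mul h3
          exact Finset.prod_le_prod' (fun e _ => three_mul_le _ (jn_le t e))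
      _ = _ := by ring
  · have hex : ∃ e1 ∈ Ht t, e1 ∉ H := by
      by_contra hcon
      push Not at hcon
      exact hH (Finset.Subset.antisymm hsub hcon)
    obtain ⟨e1, he1, he1H⟩ := hex
    have h1 : 1 ≤ jn t e1 := by
      obtain ⟨i, hi⟩ := ((mem_Ht t e1).mp he1).2
      unfold jn
      rw [Nat.one_le_iff_ne_zero, Ne, Finset.card_eq_zero]
      intro h
      have : i ∈ Finset.univ.filter (fun i => (t i).1 ⊆ e1) := by
        rw [Finset.mem_filter]; exact ⟨Finset.mem_univ _, hi⟩
      rw [h] at this
      exact absurd this (Finset.notMem_empty _)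
    have h2 : H ⊆ (Ht t).erase e1 := by
      intro e he
      rw [Finset.mem_erase]
      exact ⟨fun h => he1H (h ▸ he), hsub he⟩
    calc 3 * ∏ e ∈ H, 3 * jn t e ≤ 3 * ∏ e ∈ H, 3 ^ jn t e := by
          apply Nat.mul_le_mul_left
          exact Finset.prod_le_prod' (fun e _ => three_mul_le _ (jn_le t e))
      _ = 3 ^ 1 * 3 ^ (∑ e ∈ H, jn t e) := by rw [Finset.prod_pow_eq_pow_sum, pow_one]
      _ ≤ 3 ^ jn t e1 * 3 ^ (∑ e ∈ (Ht t).erase e1, jn t e) := by
          apply Nat.mul_le_mul
          · exact Nat.pow_le_pow_right (by norm_num) h1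
          · exact Nat.pow_le_pow_right (by norm_num) (Finset.sum_le_sum_of_subset h2)
      _ = 3 ^ (∑ e ∈ Ht t, jn t e) := by
          rw [← pow_add, Finset.add_sum_erase _ _ he1]
      _ ≤ 2 * 3 ^ (∑ e ∈ Ht t, jn t e) := by omega

/-- The index of an edge. -/
noncomputable def idx (t : Fin 4 → Six n) (e : Ht t) : Fin 4 :=
  ((mem_Ht t e.1).mp e.2).2.choose

lemma idx_spec (t : Fin 4 → Six n) (e : Ht t) : (t (idx t e)).1 ⊆ e.1 :=
  ((mem_Ht t e.1).mp e.2).2.choose_spec

lemma card_edge (t : Fin 4 → Six n) (e : Ht t) : e.1.card = 8 := ((mem_Ht t e.1).mp e.2).1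

lemma idx_eq (t : Fin 4 → Six n) (ht : Nice t) (e : Ht t) (i : Fin 4) (hi : (t i).1 ⊆ e.1) :
    idx t e = i :=
  nice_unique t ht e.1 (card_edge t e) _ _ (idx_spec t e) hi

lemma card_idx (t : Fin 4 → Six n) (ht : Nice t) (i : Fin 4) :
    (Finset.univ.filter (fun e : Ht t => idx t e = i)).card = (n - 6).choose 2 := by
  classical
  rw [← card_star (t i).1 (t i).2,
    ← Finset.card_image_of_injective _ (Subtype.val_injective (p := fun e => e ∈ Ht t))]
  congr 1
  ext e
  rw [Finset.mem_image, mem_star]
  constructor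
  · rintro ⟨e', he', rfl⟩
    have := (Finset.mem_filter.mp he').2
    exact ⟨card_edge t e', this ▸ idx_spec t e'⟩
  · rintro ⟨h1, h2⟩
    have hmem : e ∈ Ht t := (mem_Ht t e).mpr ⟨h1, ⟨i, h2⟩⟩
    refine ⟨⟨e, hmem⟩, ?_, rfl⟩
    rw [Finset.mem_filter]
    exact ⟨Finset.mem_univ _, idx_eq t ht ⟨e, hmem⟩ i h2⟩

/-- Pure colourings. -/
def IsPure (t : Fin 4 → Six n) (c : Ht t → Fin 12) : Prop :=
  ∀ e f, c e = c f → idx t e = idx t f

open Classical in
/-- The set of pure colourings. -/
noncomputable def PC (t : Fin 4 → Six n) : Finset (Ht t → Fin 12) :=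
  Finset.univ.filter (fun c => IsPure t c)

open Classical in
/-- The set of non-pure Kneser colourings. -/
noncomputable def NM (t : Fin 4 → Six n) : Finset (Ht t → Fin 12) :=
  (KC (Ht t)).filter (fun c => ¬ IsPure t c)

lemma card_KC (t : Fin 4 → Six n) : (KC (Ht t)).card = (PC t).card + (NM t).card := by
  classical
  have h1 : PC t = (KC (Ht t)).filter (fun c => IsPure t c) := by
    ext c
    unfold PC
    rw [Finset.mem_filter, Finset.mem_filter, mem_KC]
    constructor
    · rintro ⟨_, h⟩
      refine ⟨fun e f hef => ?_, h⟩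
      have h2 := h e f hef
      calc 6 = (t (idx t e)).1.card := (t (idx t e)).2.symm
        _ ≤ (e.1 ∩ f.1).card := by
            apply Finset.card_le_card
            apply Finset.subset_inter (idx_spec t e)
            rw [h2]
            exact idx_spec t f
    · rintro ⟨_, h⟩
      exact ⟨Finset.mem_univ _, h⟩
  rw [h1]
  unfold NM
  exact (Finset.card_filter_add_card_filter_not _).symm

/-- The number of pure colourings does not depend on the nice centres. -/
lemma card_PC_eq (t t' : Fin 4 → Six n) (ht : Nice t) (ht' : Nice t') :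
    (PC t).card = (PC t').card := by
  classical
  have hcard : ∀ i : Fin 4, Fintype.card {e : Ht t // idx t e = i}
      = Fintype.card {e : Ht t' // idx t' e = i} := by
    intro i
    rw [Fintype.card_subtype, Fintype.card_subtype, card_idx t ht i, card_idx t' ht' i]
  let φ : Ht t ≃ Ht t' := (Equiv.sigmaFiberEquiv (idx t)).symm.trans
    ((Equiv.sigmaCongrRight (fun i => Fintype.equivOfCardEq (hcard i))).trans
      (Equiv.sigmaFiberEquiv (idx t')))
  have hφ : ∀ e, idx t' (φ e) = idx t e := by
    intro e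
    exact ((Fintype.equivOfCardEq (hcard (idx t e))) ⟨e, rfl⟩).2
  refine Finset.card_nbij' (fun c => c ∘ φ.symm) (fun c => c ∘ φ) ?_ ?_ ?_ ?_
  · intro c hc
    rw [Finset.mem_coe] at hc ⊢
    unfold PC at hc ⊢
    rw [Finset.mem_filter] at hc ⊢
    refine ⟨Finset.mem_univ _, fun e f hef => ?_⟩
    have := hc.2 (φ.symm e) (φ.symm f) hef
    rw [← hφ, ← hφ, Equiv.apply_symm_apply, Equiv.apply_symm_apply] at this
    exact this
  · intro c hc
    rw [Finset.mem_coe] at hc ⊢
    unfold PC at hc ⊢
    rw [Finset.mem_filter] at hc ⊢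
    refine ⟨Finset.mem_univ _, fun e f hef => ?_⟩
    have := hc.2 (φ e) (φ f) hef
    rw [hφ, hφ] at this
    exact this
  · intro c _
    funext e
    simp
  · intro c _
    funext e
    simp

/-- Functions compatible with a balanced map: the product formula. -/
lemma prod_by_idx (t : Fin 4 → Six n) (ht : Nice t) (k : Fin 4 → ℕ) :
    ∏ e : Ht t, k (idx t e) = ∏ i, k i ^ ((n - 6).choose 2) := by
  classical
  have h1 : ∏ e : Ht t, k (idx t e) = ∏ e : Ht t, ∏ i, (if idx t e = i then k i else 1) := by
    refine Finset.prod_congr rfl (fun e _ => ?_)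
    rw [Finset.prod_ite_eq]
    simp
  rw [h1, Finset.prod_comm]
  refine Finset.prod_congr rfl (fun i _ => ?_)
  rw [Finset.prod_ite, Finset.prod_const, Finset.prod_const_one, mul_one, card_idx t ht i]

/-- Lower bound for the number of pure colourings. -/
lemma card_PC_ge (t : Fin 4 → Six n) (ht : Nice t) :
    BalMap.card * 81 ^ ((n - 6).choose 2)
      ≤ (PC t).card + BalMap.card * (12 * 54 ^ ((n - 6).choose 2)) := by
  classical
  set s := (n - 6).choose 2 with hs
  -- compatible colourings
  let X : (Fin 12 → Fin 4) → Finset (Ht t → Fin 12) := fun a =>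
    Fintype.piFinset (fun e => Finset.univ.filter (fun σ => a σ = idx t e))
  let Yb : (Fin 12 → Fin 4) → Fin 12 → Finset (Ht t → Fin 12) := fun a τ =>
    Fintype.piFinset (fun e => Finset.univ.filter (fun σ => a σ = idx t e ∧ σ ≠ τ))
  have hX : ∀ a ∈ BalMap, (X a).card = 81 ^ s := by
    intro a ha
    rw [mem_BalMap] at ha
    simp only [X, Fintype.card_piFinset]
    rw [Finset.prod_congr rfl (fun e _ => ha (idx t e)), prod_by_idx t ht (fun _ => 3)]
    rw [Finset.prod_const, Finset.card_univ, Fintype.card_fin, ← hs, ← pow_mul, mul_comm,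
      pow_mul]
    norm_num
  have hY : ∀ a ∈ BalMap, ∀ τ, (Yb a τ).card ≤ 54 ^ s := by
    intro a ha τ
    rw [mem_BalMap] at ha
    simp only [Yb, Fintype.card_piFinset]
    calc ∏ e : Ht t, (Finset.univ.filter (fun σ => a σ = idx t e ∧ σ ≠ τ)).card
        = ∏ e : Ht t, (fun i : Fin 4 => if i = a τ then 2 else 3) (idx t e) := by
          refine Finset.prod_congr rfl (fun e _ => ?_)
          by_cases h : idx t e = a τ
          · simp only [h, if_true]
            have h1 : Finset.univ.filter (fun σ => a σ = a τ ∧ σ ≠ τ)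
                = (Finset.univ.filter (fun σ => a σ = a τ)).erase τ := by
              ext σ
              simp only [Finset.mem_filter, Finset.mem_univ, true_and, Finset.mem_erase]
              tauto
            rw [h1, Finset.card_erase_of_mem (by simp), ha]
          · simp only [h, if_false]
            rw [← ha (idx t e)]
            congr 1
            ext σ
            simp only [Finset.mem_filter, Finset.mem_univ, true_and]
            constructor
            · exact fun hh => hh.1
            · intro hh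
              exact ⟨hh, fun hστ => h (by rw [← hh, hστ])⟩
      _ = ∏ i : Fin 4, (if i = a τ then 2 else 3) ^ s :=
          prod_by_idx t ht (fun i : Fin 4 => if i = a τ then 2 else 3)
      _ ≤ 54 ^ s := by
          rw [Finset.prod_pow]
          apply Nat.pow_le_pow_left
          rw [Finset.prod_ite, Finset.prod_const, Finset.prod_const]
          have h1 : (Finset.univ.filter (fun i : Fin 4 => i = a τ)).card = 1 := by
            rw [Finset.card_eq_one]
            exact ⟨a τ, by ext i; simp⟩
          have h2 : (Finset.univ.filter (fun i : Fin 4 => ¬ i = a τ)).card = 3 := by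
            have := Finset.card_filter_add_card_filter_not
              (s := (Finset.univ : Finset (Fin 4))) (fun i => i = a τ)
            rw [h1, Finset.card_univ, Fintype.card_fin] at this
            omega
          rw [h1, h2]
          norm_num
  -- full ones
  let Z : (Fin 12 → Fin 4) → Finset (Ht t → Fin 12) := fun a =>
    (X a).filter (fun c => ∀ τ, ∃ e, c e = τ)
  have hXZ : ∀ a ∈ BalMap, 81 ^ s ≤ (Z a).card + 12 * 54 ^ s := by
    intro a ha
    rw [← hX a ha]
    calc (X a).card ≤ (Z a ∪ Finset.univ.biUnion (fun τ => Yb a τ)).card := by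
          apply Finset.card_le_card
          intro c hc
          rw [Finset.mem_union]
          by_cases h : ∀ τ, ∃ e, c e = τ
          · exact Or.inl (Finset.mem_filter.mpr ⟨hc, h⟩)
          · right
            push Not at h
            obtain ⟨τ, hτ⟩ := h
            rw [Finset.mem_biUnion]
            refine ⟨τ, Finset.mem_univ _, ?_⟩
            simp only [Yb, Fintype.mem_piFinset, Finset.mem_filter, Finset.mem_univ, true_and]
            intro e
            have := Fintype.mem_piFinset.mp hc e
            exact ⟨(Finset.mem_filter.mp this).2, hτ e⟩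
      _ ≤ (Z a).card + (Finset.univ.biUnion (fun τ => Yb a τ)).card :=
          Finset.card_union_le _ _
      _ ≤ (Z a).card + 12 * 54 ^ s := by
          apply Nat.add_le_add_left
          calc _ ≤ ∑ τ : Fin 12, (Yb a τ).card := Finset.card_biUnion_le
            _ ≤ ∑ _τ : Fin 12, 54 ^ s := Finset.sum_le_sum (fun τ _ => hY a ha τ)
            _ = 12 * 54 ^ s := by simp
  have hdisj : (BalMap : Set (Fin 12 → Fin 4)).PairwiseDisjoint Z := by
    intro a _ b _ hab
    rw [Function.onFun, Finset.disjoint_left]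
    intro c hca hcb
    apply hab
    funext τ
    rw [Finset.mem_filter] at hca hcb
    obtain ⟨e, he⟩ := hca.2 τ
    have h1 := (Finset.mem_filter.mp (Fintype.mem_piFinset.mp hca.1 e)).2
    have h2 := (Finset.mem_filter.mp (Fintype.mem_piFinset.mp hcb.1 e)).2
    rw [he] at h1 h2
    rw [h1, h2]
  have hsub : BalMap.biUnion Z ⊆ PC t := by
    intro c hc
    rw [Finset.mem_biUnion] at hc
    obtain ⟨a, _, hc⟩ := hc
    rw [Finset.mem_filter] at hc
    unfold PC
    rw [Finset.mem_filter]
    refine ⟨Finset.mem_univ _, fun e f hef => ?_⟩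
    have h1 := (Finset.mem_filter.mp (Fintype.mem_piFinset.mp hc.1 e)).2
    have h2 := (Finset.mem_filter.mp (Fintype.mem_piFinset.mp hc.1 f)).2
    rw [← h1, ← h2, hef]
  calc BalMap.card * 81 ^ s = ∑ _a ∈ BalMap, 81 ^ s := by rw [Finset.sum_const, smul_eq_mul]
    _ ≤ ∑ a ∈ BalMap, ((Z a).card + 12 * 54 ^ s) := Finset.sum_le_sum hXZ
    _ = (BalMap.biUnion Z).card + BalMap.card * (12 * 54 ^ s) := by
        rw [Finset.sum_add_distrib, Finset.card_biUnion hdisj, Finset.sum_const, smul_eq_mul]
    _ ≤ (PC t).card + BalMap.card * (12 * 54 ^ s) :=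
        Nat.add_le_add_right (Finset.card_le_card hsub) _

end Pool.Agent.Helper91.Kneser
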