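import Mathlib
import Pool.Agent.Helper91.K4

set_option autoImplicit false
set_option linter.constructorNameAsVariable false
set_option maxRecDepth 4000

namespace Pool.Agent.Helper91.Kneser

open Finset

variable {n : ℕ}

lemma inter_card (A e f : Finset (Fin n)) (hAf : A ⊆ f) :
    (f ∩ e).card = (A ∩ e).card + (f ∩ (e \ A)).card := by
  have h1 : f ∩ e = (A ∩ e) ∪ (f ∩ (e \ A)) := by
    ext x
    simp only [Finset.mem_inter, Finset.mem_union, Finset.mem_sdiff]
    constructor
    · rintro ⟨h1, h2⟩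
      by_cases h : x ∈ A
      · exact Or.inl ⟨h, h2⟩
      · exact Or.inr ⟨h1, h2, h⟩
    · rintro (⟨h1, h2⟩ | ⟨h1, h2, _⟩)
      · exact ⟨hAf h1, h2⟩
      · exact ⟨h1, h2⟩
  rw [h1, Finset.card_union_of_disjoint]
  rw [Finset.disjoint_left]
  intro x hx1 hx2
  exact (Finset.mem_sdiff.mp (Finset.mem_inter.mp hx2).2).2 (Finset.mem_inter.mp hx1).1

/-- Supersets of `A` meeting `e` in at least six points. -/
def nbr (A e : Finset (Fin n)) : Finset (Finset (Fin n)) :=
  Finset.univ.filter (fun f => f.card = 8 ∧ A ⊆ f ∧ 6 ≤ (f ∩ e).card)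

/-- Supersets of `A` meeting `Y`. -/
def GG (A Y : Finset (Fin n)) : Finset (Finset (Fin n)) :=
  Finset.univ.filter (fun f => f.card = 8 ∧ A ⊆ f ∧ (f ∩ Y).Nonempty)

lemma mem_nbr (A e f : Finset (Fin n)) :
    f ∈ nbr A e ↔ f.card = 8 ∧ A ⊆ f ∧ 6 ≤ (f ∩ e).card := by simp [nbr]

lemma mem_GG (A Y f : Finset (Fin n)) :
    f ∈ GG A Y ↔ f.card = 8 ∧ A ⊆ f ∧ (f ∩ Y).Nonempty := by simp [GG]

lemma nbr_eq_GG (A e : Finset (Fin n)) (h : (A ∩ e).card = 5) : nbr A e = GG A (e \ A) := by
  ext f
  rw [mem_nbr, mem_GG]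
  constructor
  · rintro ⟨h1, h2, h3⟩
    refine ⟨h1, h2, ?_⟩
    rw [inter_card A e f h2, h] at h3
    rw [← Finset.card_pos]
    omega
  · rintro ⟨h1, h2, h3⟩
    refine ⟨h1, h2, ?_⟩
    rw [inter_card A e f h2, h]
    rw [← Finset.card_pos] at h3
    omega

lemma inter_le_two (A f Y : Finset (Fin n)) (hA : A.card = 6) (hf : f.card = 8) (hAf : A ⊆ f)
    (hd : Disjoint A Y) : (f ∩ Y).card ≤ 2 := by
  have h1 : f ∩ Y ⊆ f \ A := by
    intro x hx
    rw [Finset.mem_inter] at hx
    rw [Finset.mem_sdiff]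
    exact ⟨hx.1, fun h => (Finset.disjoint_left.mp hd) h hx.2⟩
  have h2 := Finset.card_le_card h1
  rw [Finset.card_sdiff_of_subset hAf] at h2
  omega

lemma nbr_small (A e : Finset (Fin n)) (hA : A.card = 6) (he : e.card = 8)
    (h : (A ∩ e).card ≤ 4) : (nbr A e).card ≤ 6 := by
  classical
  rcases (nbr A e).eq_empty_or_nonempty with h0 | ⟨f0, hf0⟩
  · rw [h0]; simp
  have key : ∀ f ∈ nbr A e, f \ A ⊆ e \ A ∧ (A ∩ e).card = 4 := by
    intro f hf
    obtain ⟨h1, h2, h3⟩ := (mem_nbr A e f).mp hf
    have h4 := inter_le_two A f (e \ A) hA h1 h2 Finset.disjoint_sdiff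
    rw [inter_card A e f h2] at h3
    have h5 : (f ∩ (e \ A)).card = 2 := by omega
    refine ⟨?_, by omega⟩
    have h6 : f ∩ (e \ A) ⊆ f \ A := by
      intro x hx
      rw [Finset.mem_inter, Finset.mem_sdiff] at hx
      rw [Finset.mem_sdiff]
      exact ⟨hx.1, hx.2.2⟩
    have h7 : (f \ A).card = 2 := by
      rw [Finset.card_sdiff_of_subset h2]; omega
    have h8 : f ∩ (e \ A) = f \ A := Finset.eq_of_subset_of_card_le h6 (by omega)
    rw [← h8]
    exact Finset.inter_subset_right
  have h4 := (key f0 hf0).2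
  have h5 : (e \ A).card = 4 := by
    have := Finset.card_sdiff_add_card_inter e A
    rw [Finset.inter_comm] at this
    omega
  calc (nbr A e).card = ((nbr A e).image (fun f => f \ A)).card := by
        rw [Finset.card_image_of_injOn]
        intro f hf f' hf' hff
        have h1 := ((mem_nbr A e f).mp hf).2.1
        have h2 := ((mem_nbr A e f').mp hf').2.1
        simp only at hff
        rw [← Finset.union_sdiff_of_subset h1, ← Finset.union_sdiff_of_subset h2, hff]
    _ ≤ (Finset.powersetCard 2 (e \ A)).card := by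
        apply Finset.card_le_card
        intro x hx
        rw [Finset.mem_image] at hx
        obtain ⟨f, hf, rfl⟩ := hx
        rw [Finset.mem_powersetCard]
        refine ⟨(key f hf).1, ?_⟩
        obtain ⟨h1, h2, h3⟩ := (mem_nbr A e f).mp hf
        rw [Finset.card_sdiff_of_subset h2]; omega
    _ = 6 := by
        rw [Finset.card_powersetCard, h5]; decide

lemma superset_eq (A f : Finset (Fin n)) (hA : A.card = 6) (hf : f.card = 8) (hAf : A ⊆ f)
    (x : Fin n) (hx : x ∈ f) (hxA : x ∉ A) : ∃ y, f = insert x (insert y A) := by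
  have h4 : (insert x A).card = 7 := by rw [Finset.card_insert_of_notMem hxA, hA]
  have h5 : insert x A ⊆ f := Finset.insert_subset hx hAf
  have h6 : (f \ insert x A).card = 1 := by
    rw [Finset.card_sdiff_of_subset h5, h4, hf]
  obtain ⟨y, hy⟩ := Finset.card_eq_one.mp h6
  refine ⟨y, ?_⟩
  rw [← Finset.union_sdiff_of_subset h5, hy]
  ext z
  simp only [Finset.mem_insert, Finset.mem_union, Finset.mem_singleton]
  tauto

lemma card_GG_le (A Y : Finset (Fin n)) (hA : A.card = 6) (hd : Disjoint A Y) :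
    (GG A Y).card ≤ Y.card * n := by
  classical
  calc (GG A Y).card ≤ ((Y ×ˢ (Finset.univ : Finset (Fin n))).image
        (fun p => insert p.1 (insert p.2 A))).card := by
        apply Finset.card_le_card
        intro f hf
        obtain ⟨h1, h2, x, hx⟩ := (mem_GG A Y f).mp hf
        rw [Finset.mem_inter] at hx
        obtain ⟨y, hy⟩ := superset_eq A f hA h1 h2 x hx.1
          (fun h => (Finset.disjoint_left.mp hd) h hx.2)
        rw [Finset.mem_image]
        exact ⟨(x, y), by simp [hx.2], hy.symm⟩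
    _ ≤ (Y ×ˢ (Finset.univ : Finset (Fin n))).card := Finset.card_image_le
    _ = Y.card * n := by rw [Finset.card_product]; simp

/-- The exact size of `GG`. -/
lemma card_GG (A Y : Finset (Fin n)) (hA : A.card = 6) (hY : Y.card = 3) (hd : Disjoint A Y) :
    (GG A Y).card + (n - 9).choose 2 = (n - 6).choose 2 := by
  classical
  rw [← card_star A hA]
  have h1 : (Finset.univ.filter (fun f : Finset (Fin n) => f.card = 8 ∧ A ⊆ f ∧ f ⊆ Yᶜ)).card
      = (n - 9).choose 2 := by
    rw [card_between A Yᶜ ?_ 8 (by omega), Finset.card_compl, Fintype.card_fin, hY, hA]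
    · congr 1
    · intro x hx
      rw [Finset.mem_compl]
      exact Finset.disjoint_left.mp hd hx
  rw [← h1, ← Finset.card_union_of_disjoint]
  · congr 1
    ext f
    rw [Finset.mem_union, mem_GG, mem_star, Finset.mem_filter]
    constructor
    · rintro (⟨h1, h2, _⟩ | ⟨_, h1, h2, _⟩)
      · exact ⟨h1, h2⟩
      · exact ⟨h1, h2⟩
    · rintro ⟨h1, h2⟩
      by_cases h : (f ∩ Y).Nonempty
      · exact Or.inl ⟨h1, h2, h⟩
      · right
        refine ⟨Finset.mem_univ _, h1, h2, fun x hx => ?_⟩
        rw [Finset.mem_compl]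
        intro hxY
        exact h ⟨x, Finset.mem_inter.mpr ⟨hx, hxY⟩⟩
  · rw [Finset.disjoint_left]
    intro f hf1 hf2
    obtain ⟨_, _, x, hx⟩ := (mem_GG A Y f).mp hf1
    have := (Finset.mem_filter.mp hf2).2.2.2
    rw [Finset.mem_inter] at hx
    exact (Finset.mem_compl.mp (this hx.1)) hx.2

lemma nbr_le (A e : Finset (Fin n)) (hA : A.card = 6) (he : e.card = 8) (h : ¬ A ⊆ e)
    (hn : 2 ≤ n) : (nbr A e).card ≤ 3 * n := by
  have h5 : (A ∩ e).card ≤ 5 := by
    by_contra hcon
    have : A ∩ e = A := Finset.eq_of_subset_of_card_le Finset.inter_subset_left (by omega)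
    exact h (this ▸ Finset.inter_subset_right)
  by_cases h4 : (A ∩ e).card ≤ 4
  · exact (nbr_small A e hA he h4).trans (by omega)
  · have h5' : (A ∩ e).card = 5 := by omega
    rw [nbr_eq_GG A e h5']
    refine (card_GG_le A (e \ A) hA Finset.disjoint_sdiff).trans ?_
    apply Nat.mul_le_mul_right
    have := Finset.card_sdiff_add_card_inter e A
    rw [Finset.inter_comm] at this
    omega

lemma card_GG_inter_le (A Y Y' : Finset (Fin n)) (hA : A.card = 6) (hY : Y.card = 3)
    (hY' : Y'.card = 3) (hne : Y ≠ Y') (hd : Disjoint A Y) (hd' : Disjoint A Y') :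
    (GG A Y ∩ GG A Y').card ≤ 2 * n + 9 := by
  classical
  have h2 : (Y ∩ Y').card ≤ 2 := by
    by_contra hcon
    have h1 : Y ∩ Y' = Y := Finset.eq_of_subset_of_card_le Finset.inter_subset_left (by omega)
    have h3 : Y ∩ Y' = Y' := Finset.eq_of_subset_of_card_le Finset.inter_subset_right (by omega)
    exact hne (h1.symm.trans h3)
  calc (GG A Y ∩ GG A Y').card
      ≤ (GG A (Y ∩ Y') ∪ (Y ×ˢ Y').image (fun p => insert p.1 (insert p.2 A))).card := by
        apply Finset.card_le_card
        intro f hf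
        rw [Finset.mem_inter] at hf
        obtain ⟨h1, h2, x, hx⟩ := (mem_GG A Y f).mp hf.1
        obtain ⟨_, _, y, hy⟩ := (mem_GG A Y' f).mp hf.2
        rw [Finset.mem_inter] at hx hy
        rw [Finset.mem_union]
        by_cases hxy : x = y
        · left
          rw [mem_GG]
          refine ⟨h1, h2, x, ?_⟩
          rw [Finset.mem_inter, Finset.mem_inter]
          exact ⟨hx.1, hx.2, hxy ▸ hy.2⟩
        · right
          have hxA : x ∉ A := fun h => (Finset.disjoint_left.mp hd) h hx.2
          have hyA : y ∉ A := fun h => (Finset.disjoint_left.mp hd') h hy.2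
          obtain ⟨z, hz⟩ := superset_eq A f hA h1 h2 x hx.1 hxA
          have hyz : y = z := by
            have := hy.1
            rw [hz, Finset.mem_insert, Finset.mem_insert] at this
            rcases this with h | h | h
            · exact absurd h.symm hxy
            · exact h
            · exact absurd h hyA
          rw [Finset.mem_image]
          refine ⟨(x, y), ?_, ?_⟩
          · rw [Finset.mem_product]
            exact ⟨hx.2, hy.2⟩
          · rw [hz, hyz]
    _ ≤ (GG A (Y ∩ Y')).card + ((Y ×ˢ Y').image (fun p => insert p.1 (insert p.2 A))).card :=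
        Finset.card_union_le _ _
    _ ≤ 2 * n + 9 := by
        apply add_le_add
        · refine (card_GG_le A (Y ∩ Y') hA ?_).trans (Nat.mul_le_mul_right _ h2)
          exact Finset.disjoint_of_subset_right Finset.inter_subset_left hd
        · refine Finset.card_image_le.trans ?_
          rw [Finset.card_product, hY, hY']

/-- Exceptional edges. -/
lemma exceptional (t : Fin 4 → Six n) (ht : Nice t) (e : Ht t) (i : Fin 4) (hi : idx t e ≠ i)
    (h5 : 5 ≤ (e.1 ∩ (t i).1).card) :
    (e.1 ∩ (t i).1).card = 5 ∧ e.1 \ (t i).1 = (t (idx t e)).1 \ (t i).1 ∧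
      ((t (idx t e)).1 \ (t i).1).card = 3 := by
  classical
  have hsub := idx_spec t e
  have hc := card_edge t e
  have h1 : ((t (idx t e)).1 \ (t i).1) ⊆ e.1 \ (t i).1 :=
    Finset.sdiff_subset_sdiff hsub le_rfl
  have h2 := Finset.card_sdiff_add_card_inter e.1 (t i).1
  have h3 := Finset.card_sdiff_add_card_inter (t (idx t e)).1 (t i).1
  have h4 := ht (idx t e) i hi
  rw [(t (idx t e)).2] at h3
  have h6 := Finset.card_le_card h1
  have h7 : (t (idx t e)).1 \ (t i).1 = e.1 \ (t i).1 :=
    Finset.eq_of_subset_of_card_le h1 (by omega)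
  refine ⟨by omega, h7.symm, ?_⟩
  rw [h7]
  omega

/-- The exceptional edges with respect to the centre `i`. -/
noncomputable def exc (t : Fin 4 → Six n) (i : Fin 4) : Finset (Ht t) :=
  Finset.univ.filter (fun e => idx t e ≠ i ∧ (e.1 ∩ (t i).1).card = 5)

lemma mem_exc (t : Fin 4 → Six n) (i : Fin 4) (e : Ht t) :
    e ∈ exc t i ↔ idx t e ≠ i ∧ (e.1 ∩ (t i).1).card = 5 := by simp [exc]

lemma edge_of_exc (A e : Finset (Fin n)) (hA : A.card = 6) (h5 : (e ∩ A).card = 5) :
    ∃ x ∈ A, e = (e \ A) ∪ A.erase x := by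
  classical
  have h1 : (A \ e).card = 1 := by
    have := Finset.card_sdiff_add_card_inter A e
    rw [Finset.inter_comm] at this
    omega
  obtain ⟨x, hx⟩ := Finset.card_eq_one.mp h1
  have hxm : x ∈ A \ e := by rw [hx]; simp
  rw [Finset.mem_sdiff] at hxm
  refine ⟨x, hxm.1, ?_⟩
  ext y
  simp only [Finset.mem_union, Finset.mem_sdiff, Finset.mem_erase]
  constructor
  · intro hy
    by_cases hyA : y ∈ A
    · right
      exact ⟨fun h => hxm.2 (h ▸ hy), hyA⟩
    · exact Or.inl ⟨hy, hyA⟩
  · rintro (h | ⟨h1, h2⟩)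
    · exact h.1
    · by_contra hcon
      have : y ∈ A \ e := Finset.mem_sdiff.mpr ⟨h2, hcon⟩
      rw [hx, Finset.mem_singleton] at this
      exact h1 this

lemma card_exc_le (t : Fin 4 → Six n) (ht : Nice t) (i : Fin 4) : (exc t i).card ≤ 24 := by
  classical
  calc (exc t i).card = ((exc t i).image Subtype.val).card :=
        (Finset.card_image_of_injective _ Subtype.val_injective).symm
    _ ≤ (((Finset.univ : Finset (Fin 4)) ×ˢ (t i).1).image
        (fun p => ((t p.1).1 \ (t i).1) ∪ ((t i).1).erase p.2)).card := by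
        apply Finset.card_le_card
        intro x hx
        rw [Finset.mem_image] at hx
        obtain ⟨e, he, rfl⟩ := hx
        obtain ⟨h1, h2⟩ := (mem_exc t i e).mp he
        obtain ⟨y, hy, hey⟩ := edge_of_exc (t i).1 e.1 (t i).2 h2
        have h3 := (exceptional t ht e i h1 (by omega)).2.1
        rw [Finset.mem_image]
        refine ⟨(idx t e, y), ?_, ?_⟩
        · rw [Finset.mem_product]
          exact ⟨Finset.mem_univ _, hy⟩
        · simp only
          rw [← h3]
          exact hey.symm
    _ ≤ ((Finset.univ : Finset (Fin 4)) ×ˢ (t i).1).card := Finset.card_image_le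
    _ = 24 := by rw [Finset.card_product, (t i).2]; simp

end Pool.Agent.Helper91.Kneser
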