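import Mathlib
import Pool.Agent.Helper91.K5

set_option autoImplicit false
set_option linter.constructorNameAsVariable false
set_option maxRecDepth 4000

namespace Pool.Agent.Helper91.Kneser

open Finset

attribute [local irreducible] BalMap

variable {n : ℕ}

/-- Mixed colours. -/
def Mixed (t : Fin 4 → Six n) (c : Ht t → Fin 12) (σ : Fin 12) : Prop :=
  ∃ e f, c e = σ ∧ c f = σ ∧ idx t e ≠ idx t f

lemma exists_mixed (t : Fin 4 → Six n) (c : Ht t → Fin 12) (h : ¬ IsPure t c) :
    ∃ σ, Mixed t c σ := by
  unfold IsPure at h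
  push Not at h
  obtain ⟨e, f, h1, h2⟩ := h
  exact ⟨c e, e, f, rfl, h1.symm, h2⟩

/-- The part of a class in the star `i` lies in a neighbourhood. -/
lemma class_nbr (t : Fin 4 → Six n) (c : Ht t → Fin 12) (hc : c ∈ KC (Ht t)) (e f : Ht t)
    (hef : c e = c f) : f.1 ∈ nbr (t (idx t f)).1 e.1 := by
  rw [mem_KC] at hc
  rw [mem_nbr]
  exact ⟨card_edge t f, idx_spec t f, hc f e hef.symm⟩

lemma not_sub (t : Fin 4 → Six n) (ht : Nice t) (e : Ht t) (i : Fin 4) (h : idx t e ≠ i) :
    ¬ (t i).1 ⊆ e.1 := fun h' => h (idx_eq t ht e i h')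

open Classical in
lemma class_card (t : Fin 4 → Six n) (ht : Nice t) (hn : 2 ≤ n) (c : Ht t → Fin 12)
    (hc : c ∈ KC (Ht t)) (σ : Fin 12) (hσ : Mixed t c σ) :
    (Finset.univ.filter (fun e => c e = σ)).card ≤ 12 * n := by
  obtain ⟨e1, e2, h1, h2, h12⟩ := hσ
  have hpart : ∀ i : Fin 4, (Finset.univ.filter (fun e => c e = σ ∧ idx t e = i)).card ≤ 3 * n := by
    intro i
    have hex : ∃ e, c e = σ ∧ idx t e ≠ i := by
      by_cases h : idx t e1 = i
      · exact ⟨e2, h2, fun h' => h12 (h.trans h'.symm)⟩
      · exact ⟨e1, h1, h⟩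
    obtain ⟨e, he1, he2⟩ := hex
    calc (Finset.univ.filter (fun e => c e = σ ∧ idx t e = i)).card
        = ((Finset.univ.filter (fun e => c e = σ ∧ idx t e = i)).image Subtype.val).card :=
          (Finset.card_image_of_injective _ Subtype.val_injective).symm
      _ ≤ (nbr (t i).1 e.1).card := by
          apply Finset.card_le_card
          intro x hx
          rw [Finset.mem_image] at hx
          obtain ⟨f, hf, rfl⟩ := hx
          have hf' := (Finset.mem_filter.mp hf).2
          have := class_nbr t c hc e f (he1.trans hf'.1.symm)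
          rwa [hf'.2] at this
      _ ≤ 3 * n := nbr_le _ _ (t i).2 (card_edge t e) (not_sub t ht e i he2) hn
  calc (Finset.univ.filter (fun e => c e = σ)).card
      ≤ ((Finset.univ : Finset (Fin 4)).biUnion
        (fun i => Finset.univ.filter (fun e => c e = σ ∧ idx t e = i))).card := by
        apply Finset.card_le_card
        intro e he
        rw [Finset.mem_biUnion]
        exact ⟨idx t e, Finset.mem_univ _, by simpa using he⟩
    _ ≤ ∑ i : Fin 4, (Finset.univ.filter (fun e => c e = σ ∧ idx t e = i)).card :=
        Finset.card_biUnion_le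
    _ ≤ ∑ _i : Fin 4, 3 * n := Finset.sum_le_sum (fun i _ => hpart i)
    _ = 12 * n := by simp; ring

/-- Allowed colours, second version. -/
noncomputable def alv {L : ℕ} (t : Fin 4 → Six n) (β : Fin 12 → Option (Fin 4))
    (g : Fin 12 → Fin L → Option (Ht t)) (e : Ht t) : Finset (Fin 12) := by
  classical
  exact Finset.univ.filter (fun σ => β σ = some (idx t e) ∨ ∃ i, g σ i = some e)

lemma mem_alv {L : ℕ} (t : Fin 4 → Six n) (β : Fin 12 → Option (Fin 4))
    (g : Fin 12 → Fin L → Option (Ht t)) (e : Ht t) (σ : Fin 12) :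
    σ ∈ alv t β g e ↔ β σ = some (idx t e) ∨ ∃ i, g σ i = some e := by
  classical
  unfold alv
  rw [Finset.mem_filter]
  simp

/-- Multiplicities of the four centres. -/
def mu (β : Fin 12 → Option (Fin 4)) (i : Fin 4) : ℕ :=
  (Finset.univ.filter (fun σ => β σ = some i)).card

open Classical in
lemma prod_alv_le {L : ℕ} (t : Fin 4 → Six n) (ht : Nice t) (β : Fin 12 → Option (Fin 4))
    (g : Fin 12 → Fin L → Option (Ht t)) :
    ∏ e, (alv t β g e).card ≤ 12 ^ (12 * L) * (∏ i, max 1 (mu β i)) ^ ((n - 6).choose 2) := by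
  have h1 : (Finset.univ.filter (fun e : Ht t => ∃ σ i, g σ i = some e)).card ≤ 12 * L := by
    have hsub : (Finset.univ.filter (fun e : Ht t => ∃ σ i, g σ i = some e)).image some ⊆
        (Finset.univ : Finset (Fin 12 × Fin L)).image (fun p => g p.1 p.2) := by
      intro x hx
      rw [Finset.mem_image] at hx
      obtain ⟨e, he, rfl⟩ := hx
      obtain ⟨σ, i, h⟩ := (Finset.mem_filter.mp he).2
      rw [Finset.mem_image]
      exact ⟨(σ, i), Finset.mem_univ _, h⟩
    calc (Finset.univ.filter (fun e : Ht t => ∃ σ i, g σ i = some e)).card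
        = ((Finset.univ.filter (fun e : Ht t => ∃ σ i, g σ i = some e)).image some).card :=
          (Finset.card_image_of_injective _ (Option.some_injective _)).symm
      _ ≤ ((Finset.univ : Finset (Fin 12 × Fin L)).image (fun p => g p.1 p.2)).card :=
          Finset.card_le_card hsub
      _ ≤ (Finset.univ : Finset (Fin 12 × Fin L)).card := Finset.card_image_le
      _ = 12 * L := by simp
  calc ∏ e, (alv t β g e).card
      ≤ ∏ e : Ht t, ((if ∃ σ i, g σ i = some e then 12 else 1) * max 1 (mu β (idx t e))) := by
        apply Finset.prod_le_prod'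
        intro e _
        by_cases hb : ∃ σ i, g σ i = some e
        · rw [if_pos hb]
          calc (alv t β g e).card ≤ 12 := (Finset.card_le_univ _).trans (by simp)
            _ = 12 * 1 := by ring
            _ ≤ _ := Nat.mul_le_mul_left 12 (le_max_left _ _)
        · rw [if_neg hb, one_mul]
          push Not at hb
          refine le_trans ?_ (le_max_right _ _)
          unfold mu
          apply Finset.card_le_card
          intro σ hσ
          rw [mem_alv] at hσ
          rw [Finset.mem_filter]
          refine ⟨Finset.mem_univ _, ?_⟩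
          rcases hσ with h | ⟨i, hi⟩
          · exact h
          · exact absurd hi (hb σ i)
    _ = (∏ e : Ht t, (if ∃ σ i, g σ i = some e then 12 else 1)) *
        ∏ e : Ht t, (fun i => max 1 (mu β i)) (idx t e) := Finset.prod_mul_distrib
    _ = 12 ^ (Finset.univ.filter (fun e : Ht t => ∃ σ i, g σ i = some e)).card *
        (∏ i, max 1 (mu β i)) ^ ((n - 6).choose 2) := by
        congr 1
        · rw [Finset.prod_ite, Finset.prod_const, Finset.prod_const_one, mul_one]
        · rw [prod_by_idx t ht (fun i => max 1 (mu β i)), Finset.prod_pow]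
    _ ≤ _ := by
        apply Nat.mul_le_mul_right
        exact Nat.pow_le_pow_right (by norm_num) h1

lemma num48_aux : ∀ a b c d : Fin 12, a.val + b.val + c.val + d.val ≤ 11 →
    ¬ ((a.val = 2 ∧ b.val = 3 ∧ c.val = 3 ∧ d.val = 3) ∨
      (a.val = 3 ∧ b.val = 2 ∧ c.val = 3 ∧ d.val = 3) ∨
      (a.val = 3 ∧ b.val = 3 ∧ c.val = 2 ∧ d.val = 3) ∨
      (a.val = 3 ∧ b.val = 3 ∧ c.val = 3 ∧ d.val = 2)) →
    max 1 a.val * max 1 b.val * max 1 c.val * max 1 d.val ≤ 48 := by
  decide +kernel

lemma num48 (k : Fin 4 → ℕ) (hk : ∑ i, k i ≤ 11)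
    (h : ¬ ∃ i0, k i0 = 2 ∧ ∀ i, i ≠ i0 → k i = 3) : ∏ i, max 1 (k i) ≤ 48 := by
  rw [Fin.sum_univ_four] at hk
  rw [Fin.prod_univ_four]
  have := num48_aux ⟨k 0, by omega⟩ ⟨k 1, by omega⟩ ⟨k 2, by omega⟩ ⟨k 3, by omega⟩ hk ?_
  · exact this
  · simp only
    rintro (⟨h0, h1, h2, h3⟩ | ⟨h0, h1, h2, h3⟩ | ⟨h0, h1, h2, h3⟩ | ⟨h0, h1, h2, h3⟩)
    · apply h
      refine ⟨0, h0, fun i hi => ?_⟩
      fin_cases i <;> first | exact absurd rfl hi | assumption
    · apply h
      refine ⟨1, h1, fun i hi => ?_⟩
      fin_cases i <;> first | exact absurd rfl hi | assumption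
    · apply h
      refine ⟨2, h2, fun i hi => ?_⟩
      fin_cases i <;> first | exact absurd rfl hi | assumption
    · apply h
      refine ⟨3, h3, fun i hi => ?_⟩
      fin_cases i <;> first | exact absurd rfl hi | assumption

lemma sum_mu (β : Fin 12 → Option (Fin 4)) :
    ∑ i, mu β i = (Finset.univ.filter (fun σ => β σ ≠ none)).card := by
  classical
  unfold mu
  rw [← Finset.card_biUnion]
  · congr 1
    ext σ
    simp only [Finset.mem_biUnion, Finset.mem_univ, true_and, Finset.mem_filter, ne_eq]
    rw [← Option.ne_none_iff_exists']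
  · intro i _ j _ hij
    rw [Function.onFun, Finset.disjoint_left]
    intro σ h1 h2
    rw [Finset.mem_filter] at h1 h2
    exact hij (Option.some_injective _ (h1.2.symm.trans h2.2))

/-- Special colourings. -/
noncomputable def Sp (t : Fin 4 → Six n) (a : Fin 12 → Fin 4) (σ : Fin 12) :
    Finset (Ht t → Fin 12) := by
  classical
  exact (NM t).filter (fun c => ∀ e, c e ≠ σ → a (c e) = idx t e)

lemma mem_Sp (t : Fin 4 → Six n) (a : Fin 12 → Fin 4) (σ : Fin 12) (c : Ht t → Fin 12) :
    c ∈ Sp t a σ ↔ c ∈ NM t ∧ ∀ e, c e ≠ σ → a (c e) = idx t e := by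
  classical
  unfold Sp
  rw [Finset.mem_filter]

/-- Second error factor. -/
def Efac2 (n : ℕ) : ℕ := (5 ^ 12 * ((n ^ 8 + 1) ^ (12 * n)) ^ 12) * 12 ^ (12 * (12 * n))

open Classical in
lemma NM_le (t : Fin 4 → Six n) (ht : Nice t) (hn : 2 ≤ n) :
    (NM t).card ≤ Efac2 n * 48 ^ ((n - 6).choose 2) +
      ∑ a ∈ BalMap, ∑ σ, (Sp t a σ).card := by
  have key : ∀ c ∈ NM t, (∃ a ∈ BalMap, ∃ σ, c ∈ Sp t a σ) ∨
      ∃ D ∈ (Finset.univ : Finset ((Fin 12 → Option (Fin 4)) ×
        (Fin 12 → Fin (12 * n) → Option (Ht t)))).filter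
          (fun D => ∏ i, max 1 (mu D.1 i) ≤ 48), ∀ e, c e ∈ alv t D.1 D.2 e := by
    intro c hcNM
    have hc : c ∈ KC (Ht t) := (Finset.mem_filter.mp hcNM).1
    have hnp : ¬ IsPure t c := (Finset.mem_filter.mp hcNM).2
    obtain ⟨σ0, hσ0⟩ := exists_mixed t c hnp
    -- choose centres of pure colours
    have hpure : ∀ σ, ¬ Mixed t c σ → ∃ i, ∀ e, c e = σ → idx t e = i := by
      intro σ hσ
      by_cases hex : ∃ e, c e = σ
      · obtain ⟨e, he⟩ := hex
        refine ⟨idx t e, fun f hf => ?_⟩
        by_contra hne
        exact hσ ⟨f, e, hf, he, hne⟩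
      · push Not at hex
        exact ⟨0, fun e he => absurd he (hex e)⟩
    let β : Fin 12 → Option (Fin 4) := fun σ =>
      if h : Mixed t c σ then none else some (hpure σ h).choose
    have hβ1 : ∀ σ i, β σ = some i → ∀ e, c e = σ → idx t e = i := by
      intro σ i hσ e he
      by_cases h : Mixed t c σ
      · have h2 : β σ = none := dif_pos h
        rw [h2] at hσ
        exact absurd hσ (by simp)
      · have h2 : β σ = some (hpure σ h).choose := dif_neg h
        rw [h2] at hσ
        rw [← Option.some_injective _ hσ]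
        exact (hpure σ h).choose_spec e he
    have hβ2 : ∀ σ, β σ = none ↔ Mixed t c σ := by
      intro σ
      by_cases h : Mixed t c σ
      · have h2 : β σ = none := dif_pos h
        exact ⟨fun _ => h, fun _ => h2⟩
      · have h2 : β σ = some (hpure σ h).choose := dif_neg h
        rw [h2]
        simp [h]
    have hg0 : ∀ σ, ∃ g : Fin (12 * n) → Option (Ht t), Mixed t c σ →
        ∀ e, c e = σ → ∃ i, g i = some e := by
      intro σ
      by_cases h : Mixed t c σ
      · obtain ⟨g, hg⟩ := exists_enum _ _ (class_card t ht hn c hc σ h)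
        exact ⟨g, fun _ e he => hg e (by simp [he])⟩
      · exact ⟨fun _ => none, fun h' => absurd h' h⟩
    choose g hg using hg0
    have hcov : ∀ e, c e ∈ alv t β g e := by
      intro e
      rw [mem_alv]
      rcases hb : β (c e) with _ | i
      · exact Or.inr (hg (c e) ((hβ2 _).mp hb) e rfl)
      · left
        rw [hβ1 _ _ hb e rfl]
    have hsum : ∑ i, mu β i ≤ 11 := by
      rw [sum_mu]
      calc _ ≤ ((Finset.univ : Finset (Fin 12)).erase σ0).card := by
            apply Finset.card_le_card
            intro σ hσ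
            rw [Finset.mem_erase]
            refine ⟨?_, Finset.mem_univ _⟩
            rintro rfl
            exact (Finset.mem_filter.mp hσ).2 ((hβ2 _).mpr hσ0)
        _ = 11 := by simp
    by_cases hsp : ∃ i0, mu β i0 = 2 ∧ ∀ i, i ≠ i0 → mu β i = 3
    · left
      obtain ⟨i0, hi0, hi⟩ := hsp
      -- only `σ0` is mixed
      have h11 : ∑ i, mu β i = 11 := by
        rw [← Finset.add_sum_erase _ _ (Finset.mem_univ i0), hi0,
          Finset.sum_congr rfl (fun i hi' => hi i (Finset.ne_of_mem_erase hi'))]
        simp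
      have honly : ∀ σ, β σ = none → σ = σ0 := by
        intro σ hσ
        by_contra hne
        rw [sum_mu] at h11
        have : (Finset.univ.filter (fun σ => β σ ≠ none)).card ≤ 10 := by
          calc _ ≤ (((Finset.univ : Finset (Fin 12)).erase σ0).erase σ).card := by
                apply Finset.card_le_card
                intro τ hτ
                have h1 := (Finset.mem_filter.mp hτ).2
                rw [Finset.mem_erase, Finset.mem_erase]
                refine ⟨?_, ?_, Finset.mem_univ _⟩
                · rintro rfl; exact h1 hσ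
                · rintro rfl; exact h1 ((hβ2 _).mpr hσ0)
            _ = 10 := by
                rw [Finset.card_erase_of_mem, Finset.card_erase_of_mem (Finset.mem_univ _)]
                · simp
                · rw [Finset.mem_erase]
                  exact ⟨hne, Finset.mem_univ _⟩
        omega
      have hσ0n : β σ0 = none := (hβ2 _).mpr hσ0
      refine ⟨fun σ => (β σ).getD i0, ?_, σ0, ?_⟩
      · rw [mem_BalMap]
        intro i
        by_cases hii : i = i0
        · have : Finset.univ.filter (fun σ => (β σ).getD i0 = i)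
              = insert σ0 (Finset.univ.filter (fun σ => β σ = some i0)) := by
            ext σ
            rw [Finset.mem_insert, Finset.mem_filter, Finset.mem_filter]
            rcases hb : β σ with _ | j
            · simp only [Option.getD_none, hii, Finset.mem_univ, true_and]
              simp [honly σ hb]
            · simp only [Option.getD_some, Finset.mem_univ, true_and, hii]
              constructor
              · intro h; right; rw [h]
              · rintro (h | h)
                · rw [h, hσ0n] at hb; exact absurd hb (by simp)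
                · exact Option.some_injective _ h
          rw [this, Finset.card_insert_of_notMem]
          · have := hi0
            unfold mu at this
            rw [this]
          · rw [Finset.mem_filter, hσ0n]
            simp
        · have : Finset.univ.filter (fun σ => (β σ).getD i0 = i)
              = Finset.univ.filter (fun σ => β σ = some i) := by
            ext σ
            rw [Finset.mem_filter, Finset.mem_filter]
            rcases hb : β σ with _ | j
            · simp [Ne.symm hii]
            · simp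
          rw [this]
          exact hi i hii
      · rw [mem_Sp]
        refine ⟨hcNM, fun e he => ?_⟩
        rcases hb : β (c e) with _ | j
        · exact absurd (honly _ hb) he
        · simp only [Option.getD_some]
          exact (hβ1 _ _ hb e rfl).symm
    · right
      refine ⟨(β, g), ?_, hcov⟩
      rw [Finset.mem_filter]
      exact ⟨Finset.mem_univ _, num48 _ hsum hsp⟩
  set X1 := (NM t).filter (fun c => ∃ a ∈ BalMap, ∃ σ, c ∈ Sp t a σ) with hX1
  set X2 := (NM t).filter (fun c => ¬ ∃ a ∈ BalMap, ∃ σ, c ∈ Sp t a σ) with hX2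
  have hsplit : (NM t).card = X1.card + X2.card :=
    (Finset.card_filter_add_card_filter_not _).symm
  rw [hsplit, add_comm]
  apply add_le_add
  · have hcov : ∀ c ∈ X2, ∃ D ∈ (Finset.univ : Finset ((Fin 12 → Option (Fin 4)) ×
        (Fin 12 → Fin (12 * n) → Option (Ht t)))).filter
          (fun D => ∏ i, max 1 (mu D.1 i) ≤ 48), ∀ e, c e ∈ alv t D.1 D.2 e := by
      intro c hc
      rw [hX2, Finset.mem_filter] at hc
      exact (key c hc.1).resolve_left hc.2
    refine (cover_bound _ _ (fun D : (Fin 12 → Option (Fin 4)) ×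
      (Fin 12 → Fin (12 * n) → Option (Ht t)) => alv t D.1 D.2) hcov).trans ?_
    calc _ ≤ ∑ _D ∈ (Finset.univ : Finset ((Fin 12 → Option (Fin 4)) ×
        (Fin 12 → Fin (12 * n) → Option (Ht t)))).filter
          (fun D => ∏ i, max 1 (mu D.1 i) ≤ 48),
          (12 ^ (12 * (12 * n)) * 48 ^ ((n - 6).choose 2)) := by
          apply Finset.sum_le_sum
          intro D hD
          refine (prod_alv_le t ht D.1 D.2).trans (Nat.mul_le_mul_left _ ?_)
          exact Nat.pow_le_pow_left (Finset.mem_filter.mp hD).2 _
      _ = (((Finset.univ : Finset ((Fin 12 → Option (Fin 4)) ×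
        (Fin 12 → Fin (12 * n) → Option (Ht t)))).filter
          (fun D => ∏ i, max 1 (mu D.1 i) ≤ 48)).card) *
          (12 ^ (12 * (12 * n)) * 48 ^ ((n - 6).choose 2)) := by
          rw [Finset.sum_const, smul_eq_mul]
      _ ≤ (5 ^ 12 * ((n ^ 8 + 1) ^ (12 * n)) ^ 12) *
          (12 ^ (12 * (12 * n)) * 48 ^ ((n - 6).choose 2)) := by
          apply Nat.mul_le_mul_right
          refine (Finset.card_le_univ _).trans ?_
          rw [Fintype.card_prod, Fintype.card_fun, Fintype.card_fun, Fintype.card_fun,
            Fintype.card_fin, Fintype.card_fin, Fintype.card_option, Fintype.card_option,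
            Fintype.card_fin]
          apply Nat.mul_le_mul_left
          apply Nat.pow_le_pow_left
          apply Nat.pow_le_pow_left
          apply Nat.add_le_add_right
          exact card_H_le _ (fun e he => ((mem_Ht t e).mp he).1)
      _ = Efac2 n * 48 ^ ((n - 6).choose 2) := by
          unfold Efac2
          ring
  · calc X1.card ≤ (BalMap.biUnion (fun a => Finset.univ.biUnion (fun σ => Sp t a σ))).card := by
          apply Finset.card_le_card
          intro c hc
          rw [hX1, Finset.mem_filter] at hc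
          obtain ⟨_, a, ha, σ, h⟩ := hc
          rw [Finset.mem_biUnion]
          refine ⟨a, ha, ?_⟩
          rw [Finset.mem_biUnion]
          exact ⟨σ, Finset.mem_univ _, h⟩
      _ ≤ ∑ a ∈ BalMap, (Finset.univ.biUnion (fun σ => Sp t a σ)).card :=
          Finset.card_biUnion_le
      _ ≤ ∑ a ∈ BalMap, ∑ σ, (Sp t a σ).card :=
          Finset.sum_le_sum (fun a _ => Finset.card_biUnion_le)

end Pool.Agent.Helper91.Kneser
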