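import Mathlib
import Pool.Agent.Helper91.K6

set_option autoImplicit false
set_option linter.constructorNameAsVariable false
set_option maxRecDepth 4000

namespace Pool.Agent.Helper91.Kneser

open Finset

attribute [local irreducible] BalMap

variable {n : ℕ}

/-- Allowed colours, third version: all colours except `σ` follow `a`, and `σ` may be used
on `Z`. -/
noncomputable def alz (t : Fin 4 → Six n) (a : Fin 12 → Fin 4) (σ : Fin 12)
    (Z : Finset (Ht t)) (e : Ht t) : Finset (Fin 12) := by
  classical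
  exact Finset.univ.filter (fun τ => (τ ≠ σ ∧ a τ = idx t e) ∨ (τ = σ ∧ e ∈ Z))

/-- The corresponding product set. -/
noncomputable def PZ (t : Fin 4 → Six n) (a : Fin 12 → Fin 4) (σ : Fin 12)
    (Z : Finset (Ht t)) : Finset (Ht t → Fin 12) := by
  classical
  exact Fintype.piFinset (alz t a σ Z)

lemma mem_PZ (t : Fin 4 → Six n) (a : Fin 12 → Fin 4) (σ : Fin 12)
    (Z : Finset (Ht t)) (c : Ht t → Fin 12) :
    c ∈ PZ t a σ Z ↔ (∀ e, c e ≠ σ → a (c e) = idx t e) ∧ ∀ e, c e = σ → e ∈ Z := by
  classical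
  unfold PZ alz
  rw [Fintype.mem_piFinset]
  simp only [Finset.mem_filter, Finset.mem_univ, true_and]
  constructor
  · intro h
    refine ⟨fun e he => ?_, fun e he => ?_⟩
    · rcases h e with h1 | h1
      · exact h1.2
      · exact absurd h1.1 he
    · rcases h e with h1 | h1
      · exact absurd he h1.1
      · exact h1.2
  · rintro ⟨h1, h2⟩ e
    by_cases h : c e = σ
    · exact Or.inr ⟨h, h2 e h⟩
    · exact Or.inl ⟨h, h1 e h⟩

lemma PZ_mono (t : Fin 4 → Six n) (a : Fin 12 → Fin 4) (σ : Fin 12)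
    (Z Z' : Finset (Ht t)) (h : Z ⊆ Z') : PZ t a σ Z ⊆ PZ t a σ Z' := by
  intro c hc
  rw [mem_PZ] at hc ⊢
  exact ⟨hc.1, fun e he => h (hc.2 e he)⟩

open Classical in
lemma card_alz (t : Fin 4 → Six n) (a : Fin 12 → Fin 4) (ha : a ∈ BalMap) (σ : Fin 12)
    (Z : Finset (Ht t)) (e : Ht t) :
    (alz t a σ Z e).card = (if idx t e = a σ then 2 else 3) + (if e ∈ Z then 1 else 0) := by
  rw [mem_BalMap] at ha
  have h1 : alz t a σ Z e = (Finset.univ.filter (fun τ => τ ≠ σ ∧ a τ = idx t e)) ∪
      (Finset.univ.filter (fun τ => τ = σ ∧ e ∈ Z)) := by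
    unfold alz
    rw [← Finset.filter_or]
  rw [h1, Finset.card_union_of_disjoint]
  · congr 1
    · have h2 := ha (idx t e)
      by_cases h : idx t e = a σ
      · rw [if_pos h]
        have h3 : Finset.univ.filter (fun τ => τ ≠ σ ∧ a τ = idx t e)
            = (Finset.univ.filter (fun τ => a τ = idx t e)).erase σ := by
          ext τ
          simp only [Finset.mem_filter, Finset.mem_univ, true_and, Finset.mem_erase]
        rw [h3, Finset.card_erase_of_mem, h2]
        rw [Finset.mem_filter]
        exact ⟨Finset.mem_univ _, h.symm⟩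
      · rw [if_neg h, ← h2]
        congr 1
        ext τ
        simp only [Finset.mem_filter, Finset.mem_univ, true_and]
        constructor
        · exact fun hh => hh.2
        · intro hh
          refine ⟨?_, hh⟩
          rintro rfl
          exact h hh.symm
    · by_cases h : e ∈ Z
      · rw [if_pos h, Finset.card_eq_one]
        exact ⟨σ, by ext τ; simp [h]⟩
      · rw [if_neg h, Finset.card_eq_zero, Finset.filter_eq_empty_iff]
        intro τ _ h'
        exact h h'.2
  · rw [Finset.disjoint_left]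
    intro τ h2 h3
    exact (Finset.mem_filter.mp h2).2.1 (Finset.mem_filter.mp h3).2.1

open Classical in
lemma card_PZ (t : Fin 4 → Six n) (ht : Nice t) (a : Fin 12 → Fin 4) (ha : a ∈ BalMap)
    (σ : Fin 12) (Z : Finset (Ht t)) :
    ((PZ t a σ Z).card : ℝ) = 54 ^ ((n - 6).choose 2) *
      ((3 / 2 : ℝ) ^ (Z.filter (fun e => idx t e = a σ)).card *
        (4 / 3 : ℝ) ^ (Z.filter (fun e => idx t e ≠ a σ)).card) := by
  have h1 : (PZ t a σ Z).card = ∏ e, (alz t a σ Z e).card := by
    unfold PZ
    rw [Fintype.card_piFinset]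
  have hbase : (∏ e : Ht t, ((if idx t e = a σ then 2 else 3 : ℕ) : ℝ))
      = 54 ^ ((n - 6).choose 2) := by
    rw [← Nat.cast_prod]
    have h2 := prod_by_idx t ht (fun i => if i = a σ then 2 else 3)
    rw [h2, Finset.prod_pow]
    have h3 : ∏ i : Fin 4, (if i = a σ then 2 else 3) = 54 := by
      generalize a σ = j
      fin_cases j <;> rfl
    rw [h3]
    norm_num
  rw [h1, Nat.cast_prod]
  calc ∏ e : Ht t, ((alz t a σ Z e).card : ℝ)
      = ∏ e : Ht t, (((if idx t e = a σ then 2 else 3 : ℕ) : ℝ) *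
        ((if e ∈ Z ∧ idx t e = a σ then (3 / 2 : ℝ) else 1) *
          (if e ∈ Z ∧ idx t e ≠ a σ then (4 / 3 : ℝ) else 1))) := by
        refine Finset.prod_congr rfl (fun e _ => ?_)
        rw [card_alz t a ha σ Z e]
        by_cases h2 : idx t e = a σ <;> by_cases h3 : e ∈ Z <;> simp [h2, h3] <;> norm_num
    _ = (∏ e : Ht t, ((if idx t e = a σ then 2 else 3 : ℕ) : ℝ)) *
        ((∏ e : Ht t, (if e ∈ Z ∧ idx t e = a σ then (3 / 2 : ℝ) else 1)) *
          (∏ e : Ht t, (if e ∈ Z ∧ idx t e ≠ a σ then (4 / 3 : ℝ) else 1))) := by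
        rw [Finset.prod_mul_distrib, Finset.prod_mul_distrib]
    _ = _ := by
        rw [hbase]
        congr 2
        · rw [Finset.prod_ite, Finset.prod_const, Finset.prod_const_one, mul_one]
          congr 2
          ext e
          simp
        · rw [Finset.prod_ite, Finset.prod_const, Finset.prod_const_one, mul_one]
          congr 2
          ext e
          simp

/-- Good region. -/
noncomputable def GR (t : Fin 4 → Six n) (i : Fin 4) (Y : Finset (Fin n)) : Finset (Ht t) := by
  classical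
  exact Finset.univ.filter (fun f => idx t f = i ∧ (f.1 ∩ Y).Nonempty)

/-- Exceptional region. -/
noncomputable def XR (t : Fin 4 → Six n) (i : Fin 4) (Y : Finset (Fin n)) : Finset (Ht t) := by
  classical
  exact Finset.univ.filter (fun e => idx t e ≠ i ∧ (e.1 ∩ (t i).1).card = 5 ∧ e.1 \ (t i).1 = Y)

/-- The relevant triples. -/
def YY (t : Fin 4 → Six n) (i : Fin 4) : Finset (Finset (Fin n)) :=
  ((Finset.univ.filter (fun j => j ≠ i)).image (fun j => (t j).1 \ (t i).1)).filter
    (fun Y => Y.card = 3)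

lemma mem_GR (t : Fin 4 → Six n) (i : Fin 4) (Y : Finset (Fin n)) (f : Ht t) :
    f ∈ GR t i Y ↔ idx t f = i ∧ (f.1 ∩ Y).Nonempty := by
  classical
  unfold GR
  rw [Finset.mem_filter]
  simp

lemma mem_XR (t : Fin 4 → Six n) (i : Fin 4) (Y : Finset (Fin n)) (e : Ht t) :
    e ∈ XR t i Y ↔ idx t e ≠ i ∧ (e.1 ∩ (t i).1).card = 5 ∧ e.1 \ (t i).1 = Y := by
  classical
  unfold XR
  rw [Finset.mem_filter]
  simp

lemma mem_YY (t : Fin 4 → Six n) (i : Fin 4) (Y : Finset (Fin n)) :
    Y ∈ YY t i ↔ (∃ j, j ≠ i ∧ (t j).1 \ (t i).1 = Y) ∧ Y.card = 3 := by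
  unfold YY
  rw [Finset.mem_filter, Finset.mem_image]
  simp

lemma YY_disjoint (t : Fin 4 → Six n) (i : Fin 4) (Y : Finset (Fin n)) (hY : Y ∈ YY t i) :
    Disjoint (t i).1 Y := by
  obtain ⟨⟨j, _, rfl⟩, _⟩ := (mem_YY t i Y).mp hY
  exact Finset.disjoint_sdiff

lemma card_YY_le (t : Fin 4 → Six n) (i : Fin 4) : (YY t i).card ≤ 4 := by
  unfold YY
  refine (Finset.card_filter_le _ _).trans (Finset.card_image_le.trans ?_)
  exact (Finset.card_le_univ _).trans (by simp)

lemma YY_of_exceptional (t : Fin 4 → Six n) (ht : Nice t) (e : Ht t) (i : Fin 4)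
    (hi : idx t e ≠ i) (h5 : 5 ≤ (e.1 ∩ (t i).1).card) : e.1 \ (t i).1 ∈ YY t i := by
  obtain ⟨h1, h2, h3⟩ := exceptional t ht e i hi h5
  rw [mem_YY]
  refine ⟨⟨idx t e, hi, h2.symm⟩, ?_⟩
  rw [h2, h3]

lemma image_GR (t : Fin 4 → Six n) (ht : Nice t) (i : Fin 4) (Y : Finset (Fin n)) :
    (GR t i Y).image Subtype.val = GG (t i).1 Y := by
  classical
  ext f
  rw [Finset.mem_image, mem_GG]
  constructor
  · rintro ⟨f', hf', rfl⟩
    rw [mem_GR] at hf'
    refine ⟨card_edge t f', ?_, hf'.2⟩
    rw [← hf'.1]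
    exact idx_spec t f'
  · rintro ⟨h1, h2, h3⟩
    have hmem : f ∈ Ht t := (mem_Ht t f).mpr ⟨h1, ⟨i, h2⟩⟩
    refine ⟨⟨f, hmem⟩, ?_, rfl⟩
    rw [mem_GR]
    exact ⟨idx_eq t ht ⟨f, hmem⟩ i h2, h3⟩

/-- The size of the good region. -/
def gn (n : ℕ) : ℕ := (n - 6).choose 2 - (n - 9).choose 2

lemma card_GR (t : Fin 4 → Six n) (ht : Nice t) (i : Fin 4) (Y : Finset (Fin n))
    (hY : Y.card = 3) (hd : Disjoint (t i).1 Y) : (GR t i Y).card = gn n := by
  classical
  rw [← Finset.card_image_of_injective _ (Subtype.val_injective (p := fun e => e ∈ Ht t)),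
    image_GR t ht]
  have := card_GG (t i).1 Y (t i).2 hY hd
  unfold gn
  omega

lemma gn_le (t : Fin 4 → Six n) (ht : Nice t) (i : Fin 4) (Y : Finset (Fin n))
    (hY : Y.card = 3) (hd : Disjoint (t i).1 Y) : (GR t i Y).card ≤ 3 * n := by
  classical
  rw [← Finset.card_image_of_injective _ (Subtype.val_injective (p := fun e => e ∈ Ht t)),
    image_GR t ht]
  have := card_GG_le (t i).1 Y (t i).2 hd
  rwa [hY] at this

lemma card_GR_inter (t : Fin 4 → Six n) (ht : Nice t) (i : Fin 4) (Y Y' : Finset (Fin n))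
    (hY : Y ∈ YY t i) (hY' : Y' ∈ YY t i) (hne : Y ≠ Y') :
    (GR t i Y ∩ GR t i Y').card ≤ 2 * n + 9 := by
  classical
  rw [← Finset.card_image_of_injective _ (Subtype.val_injective (p := fun e => e ∈ Ht t)),
    Finset.image_inter _ _ Subtype.val_injective, image_GR t ht, image_GR t ht]
  exact card_GG_inter_le _ _ _ (t i).2 ((mem_YY t i Y).mp hY).2 ((mem_YY t i Y').mp hY').2 hne
    (YY_disjoint t i Y hY) (YY_disjoint t i Y' hY')

/-- The weight. -/
noncomputable def phi (t : Fin 4 → Six n) (i : Fin 4) : ℝ :=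
  ∑ Y ∈ YY t i, ((4 / 3 : ℝ) ^ (XR t i Y).card - 1)

open Classical in
/-- Cover of the special colourings. -/
lemma Sp_cover (t : Fin 4 → Six n) (ht : Nice t) (a : Fin 12 → Fin 4) (σ : Fin 12)
    (c : Ht t → Fin 12) (hc : c ∈ Sp t a σ) :
    (∃ Y ∈ YY t (a σ), c ∈ PZ t a σ (GR t (a σ) Y ∪ XR t (a σ) Y) \ PZ t a σ (GR t (a σ) Y)) ∨
    (∃ p ∈ (YY t (a σ) ×ˢ YY t (a σ)).filter (fun p => p.1 ≠ p.2),
      c ∈ PZ t a σ ((GR t (a σ) p.1 ∩ GR t (a σ) p.2) ∪ exc t (a σ))) ∨
    (∃ i ∈ (Finset.univ : Finset (Fin 4)).filter (fun i => i ≠ a σ), ∃ Y ∈ YY t i,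
      c ∈ PZ t a σ (GR t i Y ∪ exc t i)) ∨
    (∃ g : Fin 24 → Option (Ht t), c ∈ PZ t a σ
      (Finset.univ.filter (fun e => ∃ i, g i = some e))) := by
  rw [mem_Sp] at hc
  obtain ⟨hNM, hca⟩ := hc
  have hK : c ∈ KC (Ht t) := (Finset.mem_filter.mp hNM).1
  have hnp : ¬ IsPure t c := (Finset.mem_filter.mp hNM).2
  have hmix : Mixed t c σ := by
    obtain ⟨τ, e, f, h1, h2, h3⟩ := exists_mixed t c hnp
    by_cases h : τ = σ
    · exact ⟨e, f, h1.trans h, h2.trans h, h3⟩
    · exfalso
      apply h3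
      rw [← hca e (by rw [h1]; exact h), ← hca f (by rw [h2]; exact h), h1, h2]
  by_cases hsmall : ∀ i, (Finset.univ.filter (fun e => c e = σ ∧ idx t e = i)).card ≤ 6
  · right; right; right
    have h24 : (Finset.univ.filter (fun e => c e = σ)).card ≤ 24 := by
      calc (Finset.univ.filter (fun e => c e = σ)).card
          ≤ ((Finset.univ : Finset (Fin 4)).biUnion
            (fun i => Finset.univ.filter (fun e => c e = σ ∧ idx t e = i))).card := by
            apply Finset.card_le_card
            intro e he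
            rw [Finset.mem_biUnion]
            exact ⟨idx t e, Finset.mem_univ _, by simpa using he⟩
        _ ≤ ∑ i : Fin 4, (Finset.univ.filter (fun e => c e = σ ∧ idx t e = i)).card :=
            Finset.card_biUnion_le
        _ ≤ ∑ _i : Fin 4, 6 := Finset.sum_le_sum (fun i _ => hsmall i)
        _ = 24 := by simp
    obtain ⟨g, hg⟩ := exists_enum _ _ h24
    refine ⟨g, ?_⟩
    rw [mem_PZ]
    refine ⟨hca, fun e he => ?_⟩
    rw [Finset.mem_filter]
    exact ⟨Finset.mem_univ _, hg e (by simp [he])⟩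
  · push Not at hsmall
    obtain ⟨i1, hi1⟩ := hsmall
    -- every edge of the class outside the star `i1` is exceptional
    have hexc : ∀ e, c e = σ → idx t e ≠ i1 → 5 ≤ (e.1 ∩ (t i1).1).card := by
      intro e he hne
      by_contra hcon
      have h4 : ((t i1).1 ∩ e.1).card ≤ 4 := by
        rw [Finset.inter_comm]; omega
      have h6 := nbr_small (t i1).1 e.1 (t i1).2 (card_edge t e) h4
      have : (Finset.univ.filter (fun e => c e = σ ∧ idx t e = i1)).card ≤ 6 := by
        calc (Finset.univ.filter (fun e => c e = σ ∧ idx t e = i1)).card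
            = ((Finset.univ.filter (fun e => c e = σ ∧ idx t e = i1)).image Subtype.val).card :=
              (Finset.card_image_of_injective _ Subtype.val_injective).symm
          _ ≤ (nbr (t i1).1 e.1).card := by
              apply Finset.card_le_card
              intro x hx
              rw [Finset.mem_image] at hx
              obtain ⟨f, hf, rfl⟩ := hx
              have hf' := (Finset.mem_filter.mp hf).2
              have := class_nbr t c hK e f (he.trans hf'.1.symm)
              rwa [hf'.2] at this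
          _ ≤ 6 := h6
      omega
    have hgood : ∀ e f, c e = σ → idx t e ≠ i1 → c f = σ → idx t f = i1 →
        f ∈ GR t i1 (e.1 \ (t i1).1) := by
      intro e f he hne hf hfi
      have h5 := hexc e he hne
      have h5' := (exceptional t ht e i1 hne h5).1
      rw [mem_GR]
      refine ⟨hfi, ?_⟩
      have h6 := class_nbr t c hK e f (he.trans hf.symm)
      rw [hfi, nbr_eq_GG _ _ (by rw [Finset.inter_comm]; exact h5'), mem_GG] at h6
      exact h6.2.2
    obtain ⟨e0, he0, hne0⟩ : ∃ e, c e = σ ∧ idx t e ≠ i1 := by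
      obtain ⟨e1, e2, h1, h2, h12⟩ := hmix
      by_cases h : idx t e1 = i1
      · exact ⟨e2, h2, fun h' => h12 (h.trans h'.symm)⟩
      · exact ⟨e1, h1, h⟩
    have hY0 := YY_of_exceptional t ht e0 i1 hne0 (hexc e0 he0 hne0)
    by_cases hi : i1 = a σ
    · subst hi
      by_cases hall : ∀ e, c e = σ → idx t e ≠ a σ → e.1 \ (t (a σ)).1 = e0.1 \ (t (a σ)).1
      · left
        refine ⟨_, hY0, ?_⟩
        rw [Finset.mem_sdiff]
        constructor
        · rw [mem_PZ]
          refine ⟨hca, fun e he => ?_⟩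
          rw [Finset.mem_union]
          by_cases hee : idx t e = a σ
          · exact Or.inl (hgood e0 e he0 hne0 he hee)
          · right
            rw [mem_XR]
            exact ⟨hee, (exceptional t ht e (a σ) hee (hexc e he hee)).1, hall e he hee⟩
        · rw [mem_PZ]
          rintro ⟨_, h2⟩
          have := h2 e0 he0
          rw [mem_GR] at this
          exact hne0 this.1
      · right; left
        push Not at hall
        obtain ⟨e', he', hne', hYne⟩ := hall
        have hY' := YY_of_exceptional t ht e' (a σ) hne' (hexc e' he' hne')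
        refine ⟨(e0.1 \ (t (a σ)).1, e'.1 \ (t (a σ)).1), ?_, ?_⟩
        · rw [Finset.mem_filter, Finset.mem_product]
          exact ⟨⟨hY0, hY'⟩, fun h => hYne h.symm⟩
        · rw [mem_PZ]
          refine ⟨hca, fun e he => ?_⟩
          rw [Finset.mem_union]
          by_cases hee : idx t e = a σ
          · left
            rw [Finset.mem_inter]
            exact ⟨hgood e0 e he0 hne0 he hee, hgood e' e he' hne' he hee⟩
          · right
            rw [mem_exc]
            exact ⟨hee, (exceptional t ht e (a σ) hee (hexc e he hee)).1⟩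
    · right; right; left
      refine ⟨i1, ?_, _, hY0, ?_⟩
      · rw [Finset.mem_filter]
        exact ⟨Finset.mem_univ _, hi⟩
      · rw [mem_PZ]
        refine ⟨hca, fun e he => ?_⟩
        rw [Finset.mem_union]
        by_cases hee : idx t e = i1
        · exact Or.inl (hgood e0 e he0 hne0 he hee)
        · right
          rw [mem_exc]
          exact ⟨hee, (exceptional t ht e i1 hee (hexc e he hee)).1⟩

lemma PZ_le_pow (t : Fin 4 → Six n) (ht : Nice t) (a : Fin 12 → Fin 4) (ha : a ∈ BalMap)
    (σ : Fin 12) (Z : Finset (Ht t)) (m : ℕ) (hZ : Z.card ≤ m) :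
    ((PZ t a σ Z).card : ℝ) ≤ 54 ^ ((n - 6).choose 2) * (3 / 2 : ℝ) ^ m := by
  classical
  rw [card_PZ t ht a ha σ Z]
  apply mul_le_mul_of_nonneg_left _ (by positivity)
  calc (3 / 2 : ℝ) ^ (Z.filter (fun e => idx t e = a σ)).card *
        (4 / 3 : ℝ) ^ (Z.filter (fun e => idx t e ≠ a σ)).card
      ≤ (3 / 2 : ℝ) ^ (Z.filter (fun e => idx t e = a σ)).card *
        (3 / 2 : ℝ) ^ (Z.filter (fun e => idx t e ≠ a σ)).card := by
        apply mul_le_mul_of_nonneg_left _ (by positivity)
        exact pow_le_pow_left₀ (by norm_num) (by norm_num) _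
    _ = (3 / 2 : ℝ) ^ Z.card := by
        rw [← pow_add]
        congr 1
        exact Finset.card_filter_add_card_filter_not _
    _ ≤ (3 / 2 : ℝ) ^ m := pow_le_pow_right₀ (by norm_num) hZ

open Classical in
lemma filt1 (t : Fin 4 → Six n) (i : Fin 4) (Y : Finset (Fin n)) :
    (GR t i Y ∪ XR t i Y).filter (fun e => idx t e = i) = GR t i Y := by
  ext e
  rw [Finset.mem_filter, Finset.mem_union, mem_GR, mem_XR]
  constructor
  · rintro ⟨h1 | h1, h2⟩
    · exact h1
    · exact absurd h2 h1.1
  · intro h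
    exact ⟨Or.inl h, h.1⟩

open Classical in
lemma filt2 (t : Fin 4 → Six n) (i : Fin 4) (Y : Finset (Fin n)) :
    (GR t i Y ∪ XR t i Y).filter (fun e => idx t e ≠ i) = XR t i Y := by
  ext e
  rw [Finset.mem_filter, Finset.mem_union, mem_GR, mem_XR]
  constructor
  · rintro ⟨h1 | h1, h2⟩
    · exact absurd h1.1 h2
    · exact h1
  · intro h
    exact ⟨Or.inr h, h.1⟩

open Classical in
lemma filt3 (t : Fin 4 → Six n) (i : Fin 4) (Y : Finset (Fin n)) :
    (GR t i Y).filter (fun e => idx t e = i) = GR t i Y := by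
  ext e
  rw [Finset.mem_filter, mem_GR]
  constructor
  · rintro ⟨h1, h2⟩
    exact h1
  · intro h
    exact ⟨h, h.1⟩

open Classical in
lemma filt4 (t : Fin 4 → Six n) (i : Fin 4) (Y : Finset (Fin n)) :
    (GR t i Y).filter (fun e => idx t e ≠ i) = ∅ := by
  rw [Finset.eq_empty_iff_forall_notMem]
  intro e he
  rw [Finset.mem_filter, mem_GR] at he
  exact he.2 he.1.1

/-- The error term. -/
noncomputable def err (n : ℕ) : ℝ :=
  16 * (3 / 2 : ℝ) ^ (2 * n + 33) + 16 * ((3 / 2 : ℝ) ^ 24 * (4 / 3 : ℝ) ^ (3 * n + 24)) +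
    ((n : ℝ) ^ 8 + 1) ^ 24 * (3 / 2 : ℝ) ^ 24

open Classical in
/-- The number of special colourings. -/
lemma Sp_le (t : Fin 4 → Six n) (ht : Nice t) (a : Fin 12 → Fin 4) (ha : a ∈ BalMap)
    (σ : Fin 12) :
    ((Sp t a σ).card : ℝ) ≤ 54 ^ ((n - 6).choose 2) *
      ((3 / 2 : ℝ) ^ gn n * phi t (a σ) + err n) := by
  set s := (n - 6).choose 2 with hs
  have hcov : (Sp t a σ).card ≤
      ∑ Y ∈ YY t (a σ), (PZ t a σ (GR t (a σ) Y ∪ XR t (a σ) Y) \ PZ t a σ (GR t (a σ) Y)).card +
      (∑ p ∈ (YY t (a σ) ×ˢ YY t (a σ)).filter (fun p => p.1 ≠ p.2),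
        (PZ t a σ ((GR t (a σ) p.1 ∩ GR t (a σ) p.2) ∪ exc t (a σ))).card +
      (∑ i ∈ (Finset.univ : Finset (Fin 4)).filter (fun i => i ≠ a σ), ∑ Y ∈ YY t i,
        (PZ t a σ (GR t i Y ∪ exc t i)).card +
      ∑ g : Fin 24 → Option (Ht t), (PZ t a σ
        (Finset.univ.filter (fun e => ∃ i, g i = some e))).card)) := by
    calc (Sp t a σ).card ≤
        (((YY t (a σ)).biUnion (fun Y =>
          PZ t a σ (GR t (a σ) Y ∪ XR t (a σ) Y) \ PZ t a σ (GR t (a σ) Y))) ∪
        ((((YY t (a σ) ×ˢ YY t (a σ)).filter (fun p => p.1 ≠ p.2)).biUnion (fun p =>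
          PZ t a σ ((GR t (a σ) p.1 ∩ GR t (a σ) p.2) ∪ exc t (a σ)))) ∪
        ((((Finset.univ : Finset (Fin 4)).filter (fun i => i ≠ a σ)).biUnion (fun i =>
          (YY t i).biUnion (fun Y => PZ t a σ (GR t i Y ∪ exc t i)))) ∪
        ((Finset.univ : Finset (Fin 24 → Option (Ht t))).biUnion (fun g => PZ t a σ
          (Finset.univ.filter (fun e => ∃ i, g i = some e))))))).card := by
          apply Finset.card_le_card
          intro c hc
          rw [Finset.mem_union, Finset.mem_union, Finset.mem_union]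
          rcases Sp_cover t ht a σ c hc with ⟨Y, hY, h⟩ | ⟨p, hp, h⟩ | ⟨i, hi, Y, hY, h⟩ | ⟨g, h⟩
          · left
            rw [Finset.mem_biUnion]
            exact ⟨Y, hY, h⟩
          · right; left
            rw [Finset.mem_biUnion]
            exact ⟨p, hp, h⟩
          · right; right; left
            rw [Finset.mem_biUnion]
            refine ⟨i, hi, ?_⟩
            rw [Finset.mem_biUnion]
            exact ⟨Y, hY, h⟩
          · right; right; right
            rw [Finset.mem_biUnion]
            exact ⟨g, Finset.mem_univ _, h⟩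
      _ ≤ _ := by
          refine (Finset.card_union_le _ _).trans (add_le_add Finset.card_biUnion_le ?_)
          refine (Finset.card_union_le _ _).trans (add_le_add Finset.card_biUnion_le ?_)
          refine (Finset.card_union_le _ _).trans (add_le_add ?_ Finset.card_biUnion_le)
          exact Finset.card_biUnion_le.trans
            (Finset.sum_le_sum (fun i _ => Finset.card_biUnion_le))
  have hA : ((∑ Y ∈ YY t (a σ), (PZ t a σ (GR t (a σ) Y ∪ XR t (a σ) Y) \
      PZ t a σ (GR t (a σ) Y)).card : ℕ) : ℝ) = 54 ^ s * ((3 / 2 : ℝ) ^ gn n * phi t (a σ)) := by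
    unfold phi
    rw [Nat.cast_sum, Finset.mul_sum, Finset.mul_sum]
    refine Finset.sum_congr rfl (fun Y hY => ?_)
    rw [Finset.card_sdiff_of_subset (PZ_mono t a σ _ _ Finset.subset_union_left),
      Nat.cast_sub (Finset.card_le_card (PZ_mono t a σ _ _ Finset.subset_union_left)),
      card_PZ t ht a ha σ, card_PZ t ht a ha σ]
    have h1 := filt1 t (a σ) Y
    have h2 := filt2 t (a σ) Y
    have h3 := filt3 t (a σ) Y
    have h4 := filt4 t (a σ) Y
    rw [h1, h2, h3, h4, card_GR t ht (a σ) Y ((mem_YY t _ Y).mp hY).2 (YY_disjoint t _ Y hY),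
      Finset.card_empty, pow_zero]
    ring
  have hB : ((∑ p ∈ (YY t (a σ) ×ˢ YY t (a σ)).filter (fun p => p.1 ≠ p.2),
      (PZ t a σ ((GR t (a σ) p.1 ∩ GR t (a σ) p.2) ∪ exc t (a σ))).card : ℕ) : ℝ) ≤
      54 ^ s * (16 * (3 / 2 : ℝ) ^ (2 * n + 33)) := by
    rw [Nat.cast_sum]
    calc _ ≤ ∑ _p ∈ (YY t (a σ) ×ˢ YY t (a σ)).filter (fun p => p.1 ≠ p.2),
        (54 ^ s * (3 / 2 : ℝ) ^ (2 * n + 33)) := by
          apply Finset.sum_le_sum
          intro p hp
          rw [Finset.mem_filter, Finset.mem_product] at hp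
          apply PZ_le_pow t ht a ha σ
          calc _ ≤ (GR t (a σ) p.1 ∩ GR t (a σ) p.2).card + (exc t (a σ)).card :=
                Finset.card_union_le _ _
            _ ≤ (2 * n + 9) + 24 :=
                add_le_add (card_GR_inter t ht _ _ _ hp.1.1 hp.1.2 hp.2) (card_exc_le t ht _)
            _ = 2 * n + 33 := by ring
      _ = ((YY t (a σ) ×ˢ YY t (a σ)).filter (fun p => p.1 ≠ p.2)).card *
          (54 ^ s * (3 / 2 : ℝ) ^ (2 * n + 33)) := by rw [Finset.sum_const, nsmul_eq_mul]
      _ ≤ 16 * (54 ^ s * (3 / 2 : ℝ) ^ (2 * n + 33)) := by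
          apply mul_le_mul_of_nonneg_right _ (by positivity)
          have : ((YY t (a σ) ×ˢ YY t (a σ)).filter (fun p => p.1 ≠ p.2)).card ≤ 16 := by
            refine (Finset.card_filter_le _ _).trans ?_
            rw [Finset.card_product]
            exact Nat.mul_le_mul (card_YY_le t _) (card_YY_le t _)
          exact_mod_cast this
      _ = _ := by ring
  have hC : ((∑ i ∈ (Finset.univ : Finset (Fin 4)).filter (fun i => i ≠ a σ), ∑ Y ∈ YY t i,
      (PZ t a σ (GR t i Y ∪ exc t i)).card : ℕ) : ℝ) ≤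
      54 ^ s * (16 * ((3 / 2 : ℝ) ^ 24 * (4 / 3 : ℝ) ^ (3 * n + 24))) := by
    rw [Nat.cast_sum]
    calc _ ≤ ∑ _i ∈ (Finset.univ : Finset (Fin 4)).filter (fun i => i ≠ a σ),
        (4 * (54 ^ s * ((3 / 2 : ℝ) ^ 24 * (4 / 3 : ℝ) ^ (3 * n + 24)))) := by
          apply Finset.sum_le_sum
          intro i hi
          have hi' := (Finset.mem_filter.mp hi).2
          rw [Nat.cast_sum]
          calc _ ≤ ∑ _Y ∈ YY t i, (54 ^ s * ((3 / 2 : ℝ) ^ 24 * (4 / 3 : ℝ) ^ (3 * n + 24))) := by
                apply Finset.sum_le_sum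
                intro Y hY
                rw [card_PZ t ht a ha σ]
                apply mul_le_mul_of_nonneg_left _ (by positivity)
                apply mul_le_mul _ _ (by positivity) (by positivity)
                · apply pow_le_pow_right₀ (by norm_num)
                  calc _ ≤ (exc t i).card := by
                        apply Finset.card_le_card
                        intro e he
                        rw [Finset.mem_filter, Finset.mem_union, mem_GR] at he
                        rcases he with ⟨h1 | h1, h2⟩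
                        · exact absurd (h1.1.symm.trans h2) hi'
                        · exact h1
                    _ ≤ 24 := card_exc_le t ht i
                · apply pow_le_pow_right₀ (by norm_num)
                  calc _ ≤ (GR t i Y ∪ exc t i).card := Finset.card_filter_le _ _
                    _ ≤ (GR t i Y).card + (exc t i).card := Finset.card_union_le _ _
                    _ ≤ 3 * n + 24 := add_le_add (gn_le t ht i Y ((mem_YY t _ Y).mp hY).2
                        (YY_disjoint t _ Y hY)) (card_exc_le t ht i)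
            _ = (YY t i).card * (54 ^ s * ((3 / 2 : ℝ) ^ 24 * (4 / 3 : ℝ) ^ (3 * n + 24))) := by
                rw [Finset.sum_const, nsmul_eq_mul]
            _ ≤ 4 * (54 ^ s * ((3 / 2 : ℝ) ^ 24 * (4 / 3 : ℝ) ^ (3 * n + 24))) := by
                apply mul_le_mul_of_nonneg_right _ (by positivity)
                exact_mod_cast card_YY_le t i
      _ = ((Finset.univ : Finset (Fin 4)).filter (fun i => i ≠ a σ)).card *
          (4 * (54 ^ s * ((3 / 2 : ℝ) ^ 24 * (4 / 3 : ℝ) ^ (3 * n + 24)))) := by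
          rw [Finset.sum_const, nsmul_eq_mul]
      _ ≤ 4 * (4 * (54 ^ s * ((3 / 2 : ℝ) ^ 24 * (4 / 3 : ℝ) ^ (3 * n + 24)))) := by
          apply mul_le_mul_of_nonneg_right _ (by positivity)
          have : ((Finset.univ : Finset (Fin 4)).filter (fun i => i ≠ a σ)).card ≤ 4 :=
            (Finset.card_filter_le _ _).trans (by simp)
          exact_mod_cast this
      _ = _ := by ring
  have hD : ((∑ g : Fin 24 → Option (Ht t), (PZ t a σ
        (Finset.univ.filter (fun e => ∃ i, g i = some e))).card : ℕ) : ℝ) ≤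
      54 ^ s * (((n : ℝ) ^ 8 + 1) ^ 24 * (3 / 2 : ℝ) ^ 24) := by
    rw [Nat.cast_sum]
    calc _ ≤ ∑ _g : Fin 24 → Option (Ht t), (54 ^ s * (3 / 2 : ℝ) ^ 24) := by
          apply Finset.sum_le_sum
          intro g _
          apply PZ_le_pow t ht a ha σ
          calc (Finset.univ.filter (fun e => ∃ i, g i = some e)).card
              = ((Finset.univ.filter (fun e => ∃ i, g i = some e)).image some).card :=
                (Finset.card_image_of_injective _ (Option.some_injective _)).symm
            _ ≤ ((Finset.univ : Finset (Fin 24)).image g).card := by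
                apply Finset.card_le_card
                intro x hx
                rw [Finset.mem_image] at hx
                obtain ⟨e, he, rfl⟩ := hx
                obtain ⟨i, h⟩ := (Finset.mem_filter.mp he).2
                rw [Finset.mem_image]
                exact ⟨i, Finset.mem_univ _, h⟩
            _ ≤ (Finset.univ : Finset (Fin 24)).card := Finset.card_image_le
            _ = 24 := by simp
      _ = (Fintype.card (Fin 24 → Option (Ht t)) : ℝ) * (54 ^ s * (3 / 2 : ℝ) ^ 24) := by
          rw [Finset.sum_const, nsmul_eq_mul, Finset.card_univ]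
      _ ≤ ((n : ℝ) ^ 8 + 1) ^ 24 * (54 ^ s * (3 / 2 : ℝ) ^ 24) := by
          apply mul_le_mul_of_nonneg_right _ (by positivity)
          rw [Fintype.card_fun, Fintype.card_option, Fintype.card_fin]
          push_cast
          apply pow_le_pow_left₀ (by positivity)
          have := card_H_le (Ht t) (fun e he => ((mem_Ht t e).mp he).1)
          have h2 : (Fintype.card (Ht t) : ℝ) ≤ (n : ℝ) ^ 8 := by exact_mod_cast this
          linarith
      _ = _ := by ring
  have hcov' : ((Sp t a σ).card : ℝ) ≤ _ := Nat.cast_le.mpr hcov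
  push_cast at hcov' hA hB hC hD
  unfold err
  rw [mul_add, mul_add, mul_add]
  linarith

end Pool.Agent.Helper91.Kneser
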