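import Mathlib
import Pool.Agent.Helper91.K7

set_option autoImplicit false
set_option linter.constructorNameAsVariable false
set_option maxRecDepth 4000

namespace Pool.Agent.Helper91.Kneser

open Finset

attribute [local irreducible] BalMap

variable {n : ℕ}

/-- Union of the centres. -/
def WW (t : Fin 4 → Six n) : Finset (Fin n) := Finset.univ.biUnion (fun i => (t i).1)

lemma sub_WW (t : Fin 4 → Six n) (i : Fin 4) : (t i).1 ⊆ WW t :=
  Finset.subset_biUnion_of_mem (fun i => (t i).1) (Finset.mem_univ i)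

lemma card_WW_le (t : Fin 4 → Six n) : (WW t).card ≤ 24 := by
  unfold WW
  refine Finset.card_biUnion_le.trans ?_
  rw [Finset.sum_congr rfl (fun i _ => (t i).2)]
  simp

/-- Core edges. -/
def Core (t : Fin 4 → Six n) (e : Ht t) : Prop :=
  Disjoint (e.1 \ (t (idx t e)).1) (WW t)

open Classical in
lemma card_core (t : Fin 4 → Six n) (ht : Nice t) (j : Fin 4) :
    (n - 24).choose 2 ≤ (Finset.univ.filter (fun e : Ht t => Core t e ∧ idx t e = j)).card := by
  have h1 : (Finset.univ.filter (fun f : Finset (Fin n) => f.card = 8 ∧ (t j).1 ⊆ f ∧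
      f ⊆ (t j).1 ∪ (WW t)ᶜ)).card = (((t j).1 ∪ (WW t)ᶜ).card - 6).choose 2 := by
    rw [card_between _ _ Finset.subset_union_left 8 (by rw [(t j).2]; omega), (t j).2]
  have h2 : ((t j).1 ∪ (WW t)ᶜ).card = 6 + (n - (WW t).card) := by
    rw [Finset.card_union_of_disjoint, (t j).2, Finset.card_compl, Fintype.card_fin]
    rw [Finset.disjoint_left]
    intro x hx
    rw [Finset.mem_compl, not_not]
    exact sub_WW t j hx
  have h3 := card_WW_le t
  calc (n - 24).choose 2 ≤ (n - (WW t).card).choose 2 := Nat.choose_le_choose 2 (by omega)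
    _ = (Finset.univ.filter (fun f : Finset (Fin n) => f.card = 8 ∧ (t j).1 ⊆ f ∧
      f ⊆ (t j).1 ∪ (WW t)ᶜ)).card := by
        rw [h1, h2]
        congr 1
        omega
    _ ≤ ((Finset.univ.filter (fun e : Ht t => Core t e ∧ idx t e = j)).image
          Subtype.val).card := by
        apply Finset.card_le_card
        intro f hf
        obtain ⟨_, hf1, hf2, hf3⟩ := Finset.mem_filter.mp hf
        have hmem : f ∈ Ht t := (mem_Ht t f).mpr ⟨hf1, ⟨j, hf2⟩⟩
        have hidx : idx t ⟨f, hmem⟩ = j := idx_eq t ht _ j hf2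
        rw [Finset.mem_image]
        refine ⟨⟨f, hmem⟩, ?_, rfl⟩
        rw [Finset.mem_filter]
        refine ⟨Finset.mem_univ _, ?_, hidx⟩
        unfold Core
        rw [hidx, Finset.disjoint_left]
        intro x hx hxW
        rw [Finset.mem_sdiff] at hx
        rcases Finset.mem_union.mp (hf3 hx.1) with h | h
        · exact hx.2 h
        · exact (Finset.mem_compl.mp h) hxW
    _ = _ := Finset.card_image_of_injective _ Subtype.val_injective

lemma core_not_GR (t : Fin 4 → Six n) (i : Fin 4) (Y : Finset (Fin n)) (hY : Y ∈ YY t i)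
    (e : Ht t) (he : Core t e) : e ∉ GR t i Y := by
  intro h
  rw [mem_GR] at h
  obtain ⟨h1, x, hx⟩ := h
  rw [Finset.mem_inter] at hx
  obtain ⟨⟨j, _, hj⟩, _⟩ := (mem_YY t i Y).mp hY
  have hx2 := hx.2
  rw [← hj, Finset.mem_sdiff] at hx2
  unfold Core at he
  rw [h1] at he
  exact (Finset.disjoint_left.mp he) (Finset.mem_sdiff.mpr ⟨hx.1, hx2.2⟩) (sub_WW t j hx2.1)

lemma core_not_XR (t : Fin 4 → Six n) (ht : Nice t) (i : Fin 4) (Y : Finset (Fin n))
    (e : Ht t) (he : Core t e) : e ∉ XR t i Y := by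
  intro h
  rw [mem_XR] at h
  obtain ⟨h1, h2, _⟩ := h
  have h3 := ht (idx t e) i h1
  have h4 : ∃ x ∈ e.1 ∩ (t i).1, x ∉ (t (idx t e)).1 ∩ (t i).1 := by
    by_contra hcon
    push Not at hcon
    have := Finset.card_le_card (show e.1 ∩ (t i).1 ⊆ (t (idx t e)).1 ∩ (t i).1 from hcon)
    omega
  obtain ⟨x, hx1, hx2⟩ := h4
  rw [Finset.mem_inter] at hx1
  unfold Core at he
  refine (Finset.disjoint_left.mp he) (Finset.mem_sdiff.mpr ⟨hx1.1, ?_⟩) (sub_WW t i hx1.2)
  intro h
  exact hx2 (Finset.mem_inter.mpr ⟨h, hx1.2⟩)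

open Classical in
/-- The data sets. -/
noncomputable def XD (t : Fin 4 → Six n) (a : Fin 12 → Fin 4) (σ : Fin 12)
    (Y : Finset (Fin n)) : Finset (Ht t → Fin 12) :=
  (PZ t a σ (GR t (a σ) Y ∪ XR t (a σ) Y)).filter (fun c =>
    (∃ e ∈ XR t (a σ) Y, c e = σ) ∧ (∃ e ∈ GR t (a σ) Y, c e = σ) ∧
      ∀ τ, τ ≠ σ → ∃ e, Core t e ∧ c e = τ)

open Classical in
lemma XD_sub_NM (t : Fin 4 → Six n) (a : Fin 12 → Fin 4) (σ : Fin 12)
    (Y : Finset (Fin n)) (hY : Y ∈ YY t (a σ)) : XD t a σ Y ⊆ NM t := by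
  intro c hc
  unfold XD at hc
  rw [Finset.mem_filter, mem_PZ] at hc
  obtain ⟨⟨h1, h2⟩, ⟨e1, he1, he1σ⟩, ⟨e2, he2, he2σ⟩, _⟩ := hc
  unfold NM
  rw [Finset.mem_filter, mem_KC]
  constructor
  · intro e f hef
    by_cases he : c e = σ
    · have hf : c f = σ := hef ▸ he
      have h3 := h2 e he
      have h4 := h2 f hf
      have hA := (t (a σ)).2
      have hY3 := ((mem_YY t _ Y).mp hY).2
      rw [Finset.mem_union, mem_GR, mem_XR] at h3 h4
      rcases h3 with ⟨h3, h3'⟩ | ⟨h3, h3', h3''⟩ <;> rcases h4 with ⟨h4, h4'⟩ | ⟨h4, h4', h4''⟩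
      · rw [← hA]
        apply Finset.card_le_card
        apply Finset.subset_inter
        · rw [← h3]; exact idx_spec t e
        · rw [← h4]; exact idx_spec t f
      · rw [inter_card (t (a σ)).1 f.1 e.1 (by rw [← h3]; exact idx_spec t e),
          Finset.inter_comm (t (a σ)).1, h4', h4'']
        have := Finset.card_pos.mpr h3'
        omega
      · rw [Finset.inter_comm,
          inter_card (t (a σ)).1 e.1 f.1 (by rw [← h4]; exact idx_spec t f),
          Finset.inter_comm (t (a σ)).1, h3', h3'']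
        have := Finset.card_pos.mpr h4'
        omega
      · have h5 : Y ∪ ((e.1 ∩ (t (a σ)).1) ∩ (f.1 ∩ (t (a σ)).1)) ⊆ e.1 ∩ f.1 := by
          apply Finset.union_subset
          · apply Finset.subset_inter
            · rw [← h3'']; exact Finset.sdiff_subset
            · rw [← h4'']; exact Finset.sdiff_subset
          · intro x hx
            rw [Finset.mem_inter, Finset.mem_inter, Finset.mem_inter] at hx
            exact Finset.mem_inter.mpr ⟨hx.1.1, hx.2.1⟩
        have h6 : Disjoint Y ((e.1 ∩ (t (a σ)).1) ∩ (f.1 ∩ (t (a σ)).1)) := by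
          rw [Finset.disjoint_left]
          intro x hx hx'
          rw [Finset.mem_inter, Finset.mem_inter] at hx'
          exact (Finset.disjoint_left.mp (YY_disjoint t _ Y hY)) hx'.1.2 hx
        have h7 := Finset.card_le_card h5
        rw [Finset.card_union_of_disjoint h6, hY3] at h7
        have h8 := Finset.card_union_add_card_inter (e.1 ∩ (t (a σ)).1) (f.1 ∩ (t (a σ)).1)
        have h9 : ((e.1 ∩ (t (a σ)).1) ∪ (f.1 ∩ (t (a σ)).1)).card ≤ 6 :=
          (Finset.card_le_card (Finset.union_subset Finset.inter_subset_right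
            Finset.inter_subset_right)).trans hA.le
        omega
    · have hf : c f ≠ σ := hef ▸ he
      have h3 := h1 e he
      have h4 := h1 f hf
      rw [← (t (idx t e)).2]
      apply Finset.card_le_card
      apply Finset.subset_inter (idx_spec t e)
      rw [← h3, hef, h4]
      exact idx_spec t f
  · intro hp
    have := hp e1 e2 (he1σ.trans he2σ.symm)
    rw [mem_XR] at he1
    rw [mem_GR] at he2
    exact he1.1 (this.trans he2.1)

open Classical in
lemma XD_disjoint (t : Fin 4 → Six n) (ht : Nice t) (a a' : Fin 12 → Fin 4)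
    (ha : a ∈ BalMap) (ha' : a' ∈ BalMap) (σ σ' : Fin 12)
    (Y Y' : Finset (Fin n)) (hY : Y ∈ YY t (a σ)) (hY' : Y' ∈ YY t (a' σ'))
    (c : Ht t → Fin 12) (hc : c ∈ XD t a σ Y) (hc' : c ∈ XD t a' σ' Y') :
    a = a' ∧ σ = σ' ∧ Y = Y' := by
  unfold XD at hc hc'
  rw [Finset.mem_filter, mem_PZ] at hc hc'
  obtain ⟨⟨h1, h2⟩, ⟨e1, he1, he1σ⟩, ⟨e2, he2, he2σ⟩, h3⟩ := hc
  obtain ⟨⟨h1', h2'⟩, ⟨e1', he1', he1σ'⟩, ⟨e2', he2', he2σ'⟩, h3'⟩ := hc'
  have hσcore : ∀ e, Core t e → c e ≠ σ := by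
    intro e he hce
    have := h2 e hce
    rw [Finset.mem_union] at this
    rcases this with h | h
    · exact core_not_GR t _ Y hY e he h
    · exact core_not_XR t ht _ Y e he h
  have hσ : σ = σ' := by
    by_contra hne
    obtain ⟨e, he, hce⟩ := h3' σ hne
    exact hσcore e he hce
  subst hσ
  have hoff : ∀ τ, τ ≠ σ → a τ = a' τ := by
    intro τ hτ
    obtain ⟨e, he, hce⟩ := h3 τ hτ
    have h4 := h1 e (by rw [hce]; exact hτ)
    have h5 := h1' e (by rw [hce]; exact hτ)
    rw [hce] at h4 h5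
    rw [h4, h5]
  have haσ : a σ = a' σ := by
    by_contra hne
    rw [mem_BalMap] at ha ha'
    have h4 := ha (a σ)
    have h5 := ha' (a σ)
    have h6 : Finset.univ.filter (fun τ => a' τ = a σ)
        = (Finset.univ.filter (fun τ => a τ = a σ)).erase σ := by
      ext τ
      rw [Finset.mem_erase, Finset.mem_filter, Finset.mem_filter]
      constructor
      · rintro ⟨h7, h8⟩
        have hτ : τ ≠ σ := by
          rintro rfl
          exact hne h8.symm
        exact ⟨hτ, h7, (hoff τ hτ).trans h8⟩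
      · rintro ⟨h7, h8, h9⟩
        exact ⟨h8, (hoff τ h7).symm.trans h9⟩
    rw [h6, Finset.card_erase_of_mem (by simp), h4] at h5
    omega
  refine ⟨?_, rfl, ?_⟩
  · funext τ
    by_cases hτ : τ = σ
    · rw [hτ]; exact haσ
    · exact hoff τ hτ
  · have h4 := h2' e1 he1σ
    rw [mem_XR] at he1
    rw [Finset.mem_union, mem_GR, mem_XR, ← haσ] at h4
    rcases h4 with h4 | h4
    · exact absurd h4.1 he1.1
    · rw [← he1.2.2, h4.2.2]

open Classical in
/-- Colourings avoiding `τ` on core edges. -/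
lemma avoid_le (t : Fin 4 → Six n) (ht : Nice t) (a : Fin 12 → Fin 4) (ha : a ∈ BalMap)
    (σ : Fin 12) (Z : Finset (Ht t)) (hZ : ∀ e, Core t e → e ∉ Z) (τ : Fin 12) (hτ : τ ≠ σ) :
    (((PZ t a σ Z).filter (fun c => ∀ e, Core t e → c e ≠ τ)).card : ℝ) ≤
      (PZ t a σ Z).card * (2 / 3 : ℝ) ^ ((n - 24).choose 2) := by
  have h0 : (PZ t a σ Z).card = ∏ e, (alz t a σ Z e).card := by
    unfold PZ
    rw [Fintype.card_piFinset]
  have h1 : ((PZ t a σ Z).filter (fun c => ∀ e, Core t e → c e ≠ τ)).card ≤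
      ∏ e, (if Core t e then (alz t a σ Z e).erase τ else alz t a σ Z e).card := by
    rw [← Fintype.card_piFinset]
    apply Finset.card_le_card
    intro c hc
    rw [Finset.mem_filter] at hc
    rw [Fintype.mem_piFinset]
    intro e
    have h2 : c e ∈ alz t a σ Z e := by
      have := hc.1
      unfold PZ at this
      exact Fintype.mem_piFinset.mp this e
    by_cases he : Core t e
    · rw [if_pos he, Finset.mem_erase]
      exact ⟨hc.2 e he, h2⟩
    · rw [if_neg he]
      exact h2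
  have h2 : ∀ e : Ht t, ((if Core t e then (alz t a σ Z e).erase τ else alz t a σ Z e).card : ℝ)
      ≤ ((alz t a σ Z e).card : ℝ) * (if Core t e ∧ idx t e = a τ then (2 / 3 : ℝ) else 1) := by
    intro e
    by_cases he : Core t e
    · by_cases hi : idx t e = a τ
      · rw [if_pos he, if_pos ⟨he, hi⟩]
        have hmem : τ ∈ alz t a σ Z e := by
          unfold alz
          rw [Finset.mem_filter]
          exact ⟨Finset.mem_univ _, Or.inl ⟨hτ, hi.symm⟩⟩
        rw [Finset.card_erase_of_mem hmem, card_alz t a ha σ Z e, if_neg (hZ e he)]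
        by_cases h3 : idx t e = a σ
        · rw [if_pos h3]; norm_num
        · rw [if_neg h3]; norm_num
      · rw [if_pos he, if_neg (fun h => hi h.2), mul_one]
        exact_mod_cast Finset.card_erase_le
    · rw [if_neg he, if_neg (fun h => he h.1), mul_one]
  calc (((PZ t a σ Z).filter (fun c => ∀ e, Core t e → c e ≠ τ)).card : ℝ)
      ≤ ((∏ e, (if Core t e then (alz t a σ Z e).erase τ else alz t a σ Z e).card : ℕ) : ℝ) :=
        Nat.cast_le.mpr h1
    _ = ∏ e, ((if Core t e then (alz t a σ Z e).erase τ else alz t a σ Z e).card : ℝ) := by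
        rw [Nat.cast_prod]
    _ ≤ ∏ e, (((alz t a σ Z e).card : ℝ) *
        (if Core t e ∧ idx t e = a τ then (2 / 3 : ℝ) else 1)) :=
        Finset.prod_le_prod (fun e _ => Nat.cast_nonneg _) (fun e _ => h2 e)
    _ = (PZ t a σ Z).card * (2 / 3 : ℝ) ^
        (Finset.univ.filter (fun e : Ht t => Core t e ∧ idx t e = a τ)).card := by
        rw [Finset.prod_mul_distrib, h0, Nat.cast_prod, Finset.prod_ite, Finset.prod_const,
          Finset.prod_const_one, mul_one]
    _ ≤ (PZ t a σ Z).card * (2 / 3 : ℝ) ^ ((n - 24).choose 2) := by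
        apply mul_le_mul_of_nonneg_left _ (Nat.cast_nonneg _)
        exact pow_le_pow_of_le_one (by norm_num) (by norm_num) (card_core t ht (a τ))

/-- The lower error. -/
noncomputable def err2 (n : ℕ) : ℝ :=
  (4 / 3 : ℝ) ^ 24 + 11 * ((2 / 3 : ℝ) ^ ((n - 24).choose 2) * ((3 / 2 : ℝ) ^ gn n *
    (4 / 3 : ℝ) ^ 24))

lemma card_XR_le (t : Fin 4 → Six n) (ht : Nice t) (i : Fin 4) (Y : Finset (Fin n)) :
    (XR t i Y).card ≤ 24 := by
  refine (Finset.card_le_card ?_).trans (card_exc_le t ht i)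
  intro e he
  rw [mem_XR] at he
  rw [mem_exc]
  exact ⟨he.1, he.2.1⟩

open Classical in
lemma filt5 (t : Fin 4 → Six n) (i : Fin 4) (Y : Finset (Fin n)) :
    (XR t i Y).filter (fun e => idx t e = i) = ∅ := by
  rw [Finset.eq_empty_iff_forall_notMem]
  intro e he
  rw [Finset.mem_filter, mem_XR] at he
  exact he.1.1 he.2

open Classical in
lemma filt6 (t : Fin 4 → Six n) (i : Fin 4) (Y : Finset (Fin n)) :
    (XR t i Y).filter (fun e => idx t e ≠ i) = XR t i Y := by
  ext e
  rw [Finset.mem_filter, mem_XR]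
  constructor
  · rintro ⟨h1, _⟩
    exact h1
  · intro h
    exact ⟨h, h.1⟩

open Classical in
lemma card_XD_ge (t : Fin 4 → Six n) (ht : Nice t) (a : Fin 12 → Fin 4) (ha : a ∈ BalMap)
    (σ : Fin 12) (Y : Finset (Fin n)) (hY : Y ∈ YY t (a σ)) :
    54 ^ ((n - 6).choose 2) * ((3 / 2 : ℝ) ^ gn n * ((4 / 3 : ℝ) ^ (XR t (a σ) Y).card - 1)
      - err2 n) ≤ ((XD t a σ Y).card : ℝ) := by
  set Z := GR t (a σ) Y ∪ XR t (a σ) Y with hZ
  set x := (XR t (a σ) Y).card with hx
  set s := (n - 6).choose 2 with hs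
  have hgr := card_GR t ht (a σ) Y ((mem_YY t _ Y).mp hY).2 (YY_disjoint t _ Y hY)
  have c1 : ((PZ t a σ Z).card : ℝ) = 54 ^ s * ((3 / 2 : ℝ) ^ gn n * (4 / 3 : ℝ) ^ x) := by
    rw [card_PZ t ht a ha σ, hZ, filt1, filt2, hgr]
  have c2 : ((PZ t a σ (GR t (a σ) Y)).card : ℝ) = 54 ^ s * (3 / 2 : ℝ) ^ gn n := by
    rw [card_PZ t ht a ha σ, filt3, filt4, hgr, Finset.card_empty, pow_zero, mul_one]
  have c3 : ((PZ t a σ (XR t (a σ) Y)).card : ℝ) = 54 ^ s * (4 / 3 : ℝ) ^ x := by
    rw [card_PZ t ht a ha σ, filt5, filt6, Finset.card_empty, pow_zero, one_mul]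
  have hcore : ∀ e, Core t e → e ∉ Z := by
    intro e he h
    rw [hZ, Finset.mem_union] at h
    rcases h with h | h
    · exact core_not_GR t _ Y hY e he h
    · exact core_not_XR t ht _ Y e he h
  have hcov : (PZ t a σ Z).card ≤ (XD t a σ Y).card + ((PZ t a σ (GR t (a σ) Y)).card +
      ((PZ t a σ (XR t (a σ) Y)).card + ∑ τ ∈ Finset.univ.erase σ,
        ((PZ t a σ Z).filter (fun c => ∀ e, Core t e → c e ≠ τ)).card)) := by
    calc (PZ t a σ Z).card ≤ (XD t a σ Y ∪ (PZ t a σ (GR t (a σ) Y) ∪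
        (PZ t a σ (XR t (a σ) Y) ∪ (Finset.univ.erase σ).biUnion (fun τ =>
          (PZ t a σ Z).filter (fun c => ∀ e, Core t e → c e ≠ τ))))).card := by
          apply Finset.card_le_card
          intro c hc
          rw [Finset.mem_union, Finset.mem_union, Finset.mem_union]
          by_cases h1 : ∃ e ∈ XR t (a σ) Y, c e = σ
          · by_cases h2 : ∃ e ∈ GR t (a σ) Y, c e = σ
            · by_cases h3 : ∀ τ, τ ≠ σ → ∃ e, Core t e ∧ c e = τ
              · left
                unfold XD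
                rw [Finset.mem_filter]
                exact ⟨hc, h1, h2, h3⟩
              · right; right; right
                push Not at h3
                obtain ⟨τ, hτ, h3⟩ := h3
                rw [Finset.mem_biUnion]
                refine ⟨τ, Finset.mem_erase.mpr ⟨hτ, Finset.mem_univ _⟩, ?_⟩
                rw [Finset.mem_filter]
                exact ⟨hc, h3⟩
            · right; right; left
              push Not at h2
              rw [mem_PZ] at hc ⊢
              refine ⟨hc.1, fun e he => ?_⟩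
              have := hc.2 e he
              rw [hZ, Finset.mem_union] at this
              rcases this with h | h
              · exact absurd he (h2 e h)
              · exact h
          · right; left
            push Not at h1
            rw [mem_PZ] at hc ⊢
            refine ⟨hc.1, fun e he => ?_⟩
            have := hc.2 e he
            rw [hZ, Finset.mem_union] at this
            rcases this with h | h
            · exact h
            · exact absurd he (h1 e h)
      _ ≤ _ := by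
          refine (Finset.card_union_le _ _).trans (Nat.add_le_add_left ?_ _)
          refine (Finset.card_union_le _ _).trans (Nat.add_le_add_left ?_ _)
          exact (Finset.card_union_le _ _).trans
            (Nat.add_le_add_left Finset.card_biUnion_le _)
  have hcov' : ((PZ t a σ Z).card : ℝ) ≤ _ := Nat.cast_le.mpr hcov
  push_cast at hcov'
  have hx24 : (4 / 3 : ℝ) ^ x ≤ (4 / 3 : ℝ) ^ 24 :=
    pow_le_pow_right₀ (by norm_num) (card_XR_le t ht _ Y)
  have hsum : ∑ τ ∈ Finset.univ.erase σ,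
      ((((PZ t a σ Z).filter (fun c => ∀ e, Core t e → c e ≠ τ)).card : ℕ) : ℝ) ≤
      11 * ((54 ^ s * ((3 / 2 : ℝ) ^ gn n * (4 / 3 : ℝ) ^ 24)) *
        (2 / 3 : ℝ) ^ ((n - 24).choose 2)) := by
    calc _ ≤ ∑ _τ ∈ (Finset.univ : Finset (Fin 12)).erase σ,
        ((54 ^ s * ((3 / 2 : ℝ) ^ gn n * (4 / 3 : ℝ) ^ 24)) *
          (2 / 3 : ℝ) ^ ((n - 24).choose 2)) := by
          apply Finset.sum_le_sum
          intro τ hτ
          refine (avoid_le t ht a ha σ Z hcore τ (Finset.ne_of_mem_erase hτ)).trans ?_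
          rw [c1]
          apply mul_le_mul_of_nonneg_right _ (by positivity)
          apply mul_le_mul_of_nonneg_left _ (by positivity)
          exact mul_le_mul_of_nonneg_left hx24 (by positivity)
      _ = _ := by
          rw [Finset.sum_const, Finset.card_erase_of_mem (Finset.mem_univ _)]
          simp
  have h54 : (0 : ℝ) < 54 ^ s := by positivity
  have hc3' : (54 : ℝ) ^ s * (4 / 3 : ℝ) ^ x ≤ 54 ^ s * (4 / 3 : ℝ) ^ 24 :=
    mul_le_mul_of_nonneg_left hx24 h54.le
  rw [c1, c2, c3] at hcov'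
  unfold err2
  nlinarith [hcov', hsum, hc3']

open Classical in
/-- Lower bound for the number of non-pure colourings. -/
lemma NM_ge (t : Fin 4 → Six n) (ht : Nice t) :
    (BalMap.card : ℝ) * (54 ^ ((n - 6).choose 2) *
      ((3 / 2 : ℝ) ^ gn n * (3 * ∑ i, phi t i) - 48 * err2 n)) ≤ ((NM t).card : ℝ) := by
  set s := (n - 6).choose 2 with hs
  have herr : 0 ≤ err2 n := by unfold err2; positivity
  -- the index set
  let I : Finset (Σ _a : Fin 12 → Fin 4, Σ _σ : Fin 12, Finset (Fin n)) :=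
    BalMap.sigma (fun a => (Finset.univ : Finset (Fin 12)).sigma (fun σ => YY t (a σ)))
  have hI : ∀ p ∈ I, p.1 ∈ BalMap ∧ p.2.2 ∈ YY t (p.1 p.2.1) := by
    intro p hp
    rw [Finset.mem_sigma, Finset.mem_sigma] at hp
    exact ⟨hp.1, hp.2.2⟩
  have hsub : I.biUnion (fun p => XD t p.1 p.2.1 p.2.2) ⊆ NM t := by
    intro c hc
    rw [Finset.mem_biUnion] at hc
    obtain ⟨p, hp, h⟩ := hc
    exact XD_sub_NM t p.1 p.2.1 p.2.2 (hI p hp).2 h
  have hdisj : (I : Set (Σ _a : Fin 12 → Fin 4, Σ _σ : Fin 12, Finset (Fin n))).PairwiseDisjoint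
      (fun p => XD t p.1 p.2.1 p.2.2) := by
    intro p hp q hq hpq
    rw [Function.onFun, Finset.disjoint_left]
    intro c hc hc'
    apply hpq
    obtain ⟨h1, h2, h3⟩ := XD_disjoint t ht p.1 q.1 (hI p hp).1 (hI q hq).1 p.2.1 q.2.1
      p.2.2 q.2.2 (hI p hp).2 (hI q hq).2 c hc hc'
    obtain ⟨a, σ, Y⟩ := p
    obtain ⟨a', σ', Y'⟩ := q
    simp only at h1 h2 h3
    subst h1 h2 h3
    rfl
  have h1 : ∑ p ∈ I, ((XD t p.1 p.2.1 p.2.2).card : ℝ) ≤ ((NM t).card : ℝ) := by
    rw [← Nat.cast_sum, ← Finset.card_biUnion hdisj]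
    exact Nat.cast_le.mpr (Finset.card_le_card hsub)
  refine le_trans ?_ h1
  rw [Finset.sum_sigma]
  rw [← nsmul_eq_mul, ← Finset.sum_const]
  apply Finset.sum_le_sum
  intro a ha
  rw [Finset.sum_sigma]
  have h2 : ∀ σ : Fin 12, 54 ^ s * ((3 / 2 : ℝ) ^ gn n * phi t (a σ) - 4 * err2 n) ≤
      ∑ Y ∈ YY t (a σ), ((XD t a σ Y).card : ℝ) := by
    intro σ
    calc 54 ^ s * ((3 / 2 : ℝ) ^ gn n * phi t (a σ) - 4 * err2 n)
        ≤ 54 ^ s * ((3 / 2 : ℝ) ^ gn n * phi t (a σ) - (YY t (a σ)).card * err2 n) := by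
          apply mul_le_mul_of_nonneg_left _ (by positivity)
          have : ((YY t (a σ)).card : ℝ) ≤ 4 := by exact_mod_cast card_YY_le t _
          nlinarith
      _ = ∑ Y ∈ YY t (a σ), 54 ^ s * ((3 / 2 : ℝ) ^ gn n *
          ((4 / 3 : ℝ) ^ (XR t (a σ) Y).card - 1) - err2 n) := by
          symm
          rw [← Finset.mul_sum, Finset.sum_sub_distrib, ← Finset.mul_sum, Finset.sum_const,
            nsmul_eq_mul]
          rfl
      _ ≤ _ := Finset.sum_le_sum (fun Y hY => card_XD_ge t ht a ha σ Y hY)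
  have h3 : ∑ σ : Fin 12, phi t (a σ) = 3 * ∑ i, phi t i := by
    rw [mem_BalMap] at ha
    rw [← Finset.sum_fiberwise_of_maps_to (s := Finset.univ) (t := Finset.univ) (g := a)
      (fun _ _ => Finset.mem_univ _), Finset.mul_sum]
    refine Finset.sum_congr rfl (fun i _ => ?_)
    rw [Finset.sum_congr rfl (g := fun _ => phi t i)
      (fun σ hσ => by rw [(Finset.mem_filter.mp hσ).2]), Finset.sum_const, ha i]
    simp
  calc 54 ^ s * ((3 / 2 : ℝ) ^ gn n * (3 * ∑ i, phi t i) - 48 * err2 n)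
      = ∑ σ : Fin 12, 54 ^ s * ((3 / 2 : ℝ) ^ gn n * phi t (a σ) - 4 * err2 n) := by
        rw [← Finset.mul_sum, Finset.sum_sub_distrib, ← Finset.mul_sum, h3]
        simp
        ring
    _ ≤ _ := Finset.sum_le_sum (fun σ _ => h2 σ)

end Pool.Agent.Helper91.Kneser
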