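import Mathlib
import Pool.Agent.Helper91.K8

set_option autoImplicit false
set_option linter.constructorNameAsVariable false
set_option maxRecDepth 4000

namespace Pool.Agent.Helper91.Kneser

open Finset

attribute [local irreducible] BalMap

variable {n : ℕ}

/-- Equidistant centres. -/
def Equi (t : Fin 4 → Six n) : Prop := ∀ i j, i ≠ j → ((t i).1 ∩ (t j).1).card = 3

lemma equi_nice (t : Fin 4 → Six n) (h : Equi t) : Nice t := fun i j hij => (h i j hij).le

lemma fourth : ∀ i j k : Fin 4, ∃ m : Fin 4, m ≠ i ∧ m ≠ j ∧ m ≠ k := by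
  decide

/-- In an equidistant family the triples `t j \ t i` are distinct. -/
lemma equi_unique (t : Fin 4 → Six n) (h : Equi t) (i j k : Fin 4) (hij : j ≠ i) (hik : k ≠ i)
    (hY : (t j).1 \ (t i).1 = (t k).1 \ (t i).1) : j = k := by
  classical
  by_contra hjk
  -- a fourth index
  obtain ⟨m, hmi, hmj, hmk⟩ := fourth i j k
  set A := (t i).1 with hA
  set B := (t j).1 with hB
  set C := (t k).1 with hC
  set D := (t m).1 with hD
  have cA : A.card = 6 := (t i).2
  have cB : B.card = 6 := (t j).2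
  have cC : C.card = 6 := (t k).2
  have hAB : (B ∩ A).card = 3 := h j i hij
  have hAC : (C ∩ A).card = 3 := h k i hik
  have hBC : (B ∩ C).card = 3 := h j k hjk
  have hDA : (D ∩ A).card = 3 := h m i hmi
  have hDB : (D ∩ B).card = 3 := h m j hmj
  have hDC : (D ∩ C).card = 3 := h m k hmk
  have hBA' : (B \ A).card = 3 := by
    have := Finset.card_sdiff_add_card_inter B A
    omega
  -- `B ∩ C = B \ A`
  have h1 : B \ A ⊆ B ∩ C := by
    intro x hx
    have hx2 := hx
    rw [hY] at hx2
    exact Finset.mem_inter.mpr ⟨(Finset.mem_sdiff.mp hx).1, (Finset.mem_sdiff.mp hx2).1⟩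
  have h2 : B \ A = B ∩ C := Finset.eq_of_subset_of_card_le h1 (by omega)
  -- `A` is the disjoint union of `B ∩ A` and `C ∩ A`
  have h3 : Disjoint (B ∩ A) (C ∩ A) := by
    rw [Finset.disjoint_left]
    intro x hx hx'
    rw [Finset.mem_inter] at hx hx'
    have : x ∈ B \ A := by
      rw [h2]
      exact Finset.mem_inter.mpr ⟨hx.1, hx'.1⟩
    exact (Finset.mem_sdiff.mp this).2 hx.2
  have h4 : (B ∩ A) ∪ (C ∩ A) = A := by
    apply Finset.eq_of_subset_of_card_le
    · exact Finset.union_subset Finset.inter_subset_right Finset.inter_subset_right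
    · rw [Finset.card_union_of_disjoint h3]
      omega
  have h5 : (D ∩ A).card = (D ∩ (B ∩ A)).card + (D ∩ (C ∩ A)).card := by
    rw [← Finset.card_union_of_disjoint, ← Finset.inter_union_distrib_left, h4]
    exact Finset.disjoint_of_subset_left Finset.inter_subset_right
      (Finset.disjoint_of_subset_right Finset.inter_subset_right h3)
  have h6 : (D ∩ B).card = (D ∩ (B \ A)).card + (D ∩ (B ∩ A)).card := by
    rw [← Finset.card_union_of_disjoint, ← Finset.inter_union_distrib_left,
      Finset.sdiff_union_inter]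
    exact Finset.disjoint_of_subset_left Finset.inter_subset_right
      (Finset.disjoint_of_subset_right Finset.inter_subset_right
        (Finset.disjoint_sdiff_inter B A))
  have h7 : (D ∩ C).card = (D ∩ (B \ A)).card + (D ∩ (C ∩ A)).card := by
    rw [hY, ← Finset.card_union_of_disjoint, ← Finset.inter_union_distrib_left,
      Finset.sdiff_union_inter]
    exact Finset.disjoint_of_subset_left Finset.inter_subset_right
      (Finset.disjoint_of_subset_right Finset.inter_subset_right
        (Finset.disjoint_sdiff_inter C A))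
  omega

lemma equi_XR (t : Fin 4 → Six n) (h : Equi t) (i : Fin 4) (Y : Finset (Fin n))
    (hY : Y ∈ YY t i) : (XR t i Y).card ≤ 3 := by
  classical
  obtain ⟨⟨j, hj, hjY⟩, _⟩ := (mem_YY t i Y).mp hY
  calc (XR t i Y).card = ((XR t i Y).image Subtype.val).card :=
        (Finset.card_image_of_injective _ Subtype.val_injective).symm
    _ ≤ (((t i).1 \ (t j).1).image (fun x => Y ∪ ((t i).1).erase x)).card := by
        apply Finset.card_le_card
        intro x hx
        rw [Finset.mem_image] at hx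
        obtain ⟨e, he, rfl⟩ := hx
        rw [mem_XR] at he
        obtain ⟨h1, h2, h3⟩ := he
        have h4 := (exceptional t (equi_nice t h) e i h1 (by omega)).2.1
        have h5 : idx t e = j :=
          equi_unique t h i (idx t e) j h1 hj (by rw [← h4, h3, hjY])
        obtain ⟨x, hx, hex⟩ := edge_of_exc (t i).1 e.1 (t i).2 h2
        rw [Finset.mem_image]
        refine ⟨x, ?_, ?_⟩
        · rw [Finset.mem_sdiff]
          refine ⟨hx, fun hxj => ?_⟩
          have h6 : x ∈ e.1 := by
            have := idx_spec t e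
            rw [h5] at this
            exact this hxj
          rw [hex, Finset.mem_union, Finset.mem_sdiff, Finset.mem_erase] at h6
          rcases h6 with h6 | h6
          · exact h6.2 hx
          · exact h6.1 rfl
        · rw [← h3]
          exact hex.symm
    _ ≤ ((t i).1 \ (t j).1).card := Finset.card_image_le
    _ = 3 := by
        have h1 := Finset.card_sdiff_add_card_inter (t i).1 (t j).1
        have h2 := h i j hj.symm
        have h3 := (t i).2
        omega

lemma equi_phi (t : Fin 4 → Six n) (h : Equi t) (i : Fin 4) : phi t i ≤ 37 / 9 := by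
  classical
  have hc : (YY t i).card ≤ 3 := by
    unfold YY
    refine (Finset.card_filter_le _ _).trans (Finset.card_image_le.trans ?_)
    rw [Finset.filter_ne', Finset.card_erase_of_mem (Finset.mem_univ _)]
    simp
  unfold phi
  calc ∑ Y ∈ YY t i, ((4 / 3 : ℝ) ^ (XR t i Y).card - 1) ≤ ∑ _Y ∈ YY t i, (37 / 27 : ℝ) := by
        apply Finset.sum_le_sum
        intro Y hY
        have h1 : (4 / 3 : ℝ) ^ (XR t i Y).card ≤ (4 / 3 : ℝ) ^ 3 :=
          pow_le_pow_right₀ (by norm_num) (equi_XR t h i Y hY)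
        norm_num at h1 ⊢
        linarith
    _ = (YY t i).card * (37 / 27 : ℝ) := by rw [Finset.sum_const, nsmul_eq_mul]
    _ ≤ 3 * (37 / 27 : ℝ) := by
        apply mul_le_mul_of_nonneg_right _ (by norm_num)
        exact_mod_cast hc
    _ = 37 / 9 := by norm_num

/-- Upper bound for equidistant centres. -/
lemma NM_equi (t : Fin 4 → Six n) (h : Equi t) (hn : 2 ≤ n) :
    ((NM t).card : ℝ) ≤ (Efac2 n : ℝ) * 48 ^ ((n - 6).choose 2) +
      (BalMap.card : ℝ) * (54 ^ ((n - 6).choose 2) *
        ((3 / 2 : ℝ) ^ gn n * (148 / 3) + 12 * err n)) := by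
  have h1 := NM_le t (equi_nice t h) hn
  have h2 : ((NM t).card : ℝ) ≤ _ := Nat.cast_le.mpr h1
  push_cast at h2
  refine h2.trans ?_
  apply add_le_add le_rfl
  rw [← nsmul_eq_mul, ← Finset.sum_const]
  apply Finset.sum_le_sum
  intro a ha
  calc ∑ σ : Fin 12, ((Sp t a σ).card : ℝ)
      ≤ ∑ _σ : Fin 12, 54 ^ ((n - 6).choose 2) * ((3 / 2 : ℝ) ^ gn n * (37 / 9) + err n) := by
        apply Finset.sum_le_sum
        intro σ _
        refine (Sp_le t (equi_nice t h) a ha σ).trans ?_
        apply mul_le_mul_of_nonneg_left _ (by positivity)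
        apply add_le_add _ le_rfl
        exact mul_le_mul_of_nonneg_left (equi_phi t h _) (by positivity)
    _ = _ := by
        rw [Finset.sum_const, Finset.card_univ, Fintype.card_fin, nsmul_eq_mul]
        push_cast
        ring

/-- The base sets. -/
def bs : Fin 4 → Finset (Fin 12) := fun i =>
  match i with
  | 0 => {0, 1, 2, 3, 4, 5}
  | 1 => {0, 1, 2, 6, 7, 8}
  | 2 => {3, 4, 5, 6, 7, 8}
  | 3 => {0, 1, 2, 9, 10, 11}

lemma bs_card (i : Fin 4) : (bs i).card = 6 := by
  revert i
  decide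

/-- The special centres. -/
def ts (hn : 12 ≤ n) : Fin 4 → Six n := fun i =>
  ⟨(bs i).map (Fin.castLEEmb hn), by rw [Finset.card_map]; exact bs_card i⟩

lemma ts_nice (hn : 12 ≤ n) : Nice (ts hn) := by
  intro i j hij
  show (((bs i).map (Fin.castLEEmb hn)) ∩ ((bs j).map (Fin.castLEEmb hn))).card ≤ 3
  rw [← Finset.map_inter, Finset.card_map]
  revert i j
  decide

lemma ts_YY (hn : 12 ≤ n) (i j : Fin 4) (hj : j ≠ i) (P : Finset (Fin 12))
    (hP : bs j \ bs i = P) (h3 : P.card = 3) : P.map (Fin.castLEEmb hn) ∈ YY (ts hn) i := by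
  rw [mem_YY]
  refine ⟨⟨j, hj, ?_⟩, by rw [Finset.card_map]; exact h3⟩
  show (bs j).map (Fin.castLEEmb hn) \ (bs i).map (Fin.castLEEmb hn) = _
  rw [← Finset.map_sdiff, hP]

lemma ts_XR (hn : 12 ≤ n) (i : Fin 4) (P Xs : Finset (Fin 12)) (h3 : P.card = 3)
    (hd : Disjoint (bs i) P) (hXs : Xs ⊆ bs i)
    (hj : ∀ x ∈ Xs, ∃ j, bs j ⊆ P ∪ (bs i).erase x) :
    Xs.card ≤ (XR (ts hn) i (P.map (Fin.castLEEmb hn))).card := by
  classical
  set φ := Fin.castLEEmb hn with hφ
  have hcard : ∀ x ∈ Xs, (P ∪ (bs i).erase x).card = 8 := by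
    intro x hx
    rw [Finset.card_union_of_disjoint, h3, Finset.card_erase_of_mem (hXs hx), bs_card]
    exact Finset.disjoint_of_subset_right (Finset.erase_subset _ _) hd.symm
  have hmem : ∀ x ∈ Xs, (P ∪ (bs i).erase x).map φ ∈ Ht (ts hn) := by
    intro x hx
    obtain ⟨j, hjx⟩ := hj x hx
    rw [mem_Ht]
    refine ⟨by rw [Finset.card_map]; exact hcard x hx, j, ?_⟩
    show (bs j).map φ ⊆ _
    exact Finset.map_subset_map.mpr hjx
  have hXR : ∀ x (hx : x ∈ Xs), (⟨(P ∪ (bs i).erase x).map φ, hmem x hx⟩ : Ht (ts hn)) ∈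
      XR (ts hn) i (P.map φ) := by
    intro x hx
    have hinter : (P ∪ (bs i).erase x) ∩ bs i = (bs i).erase x := by
      ext y
      rw [Finset.mem_inter, Finset.mem_union, Finset.mem_erase]
      constructor
      · rintro ⟨h | h, h'⟩
        · exact absurd h (Finset.disjoint_left.mp hd h')
        · exact h
      · intro h
        exact ⟨Or.inr h, h.2⟩
    have hsd : (P ∪ (bs i).erase x) \ bs i = P := by
      ext y
      rw [Finset.mem_sdiff, Finset.mem_union, Finset.mem_erase]
      constructor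
      · rintro ⟨h | h, h'⟩
        · exact h
        · exact absurd h.2 h'
      · intro h
        exact ⟨Or.inl h, fun h' => (Finset.disjoint_left.mp hd h') h⟩
    rw [mem_XR]
    refine ⟨?_, ?_, ?_⟩
    · intro hidx
      have h1 := idx_spec (ts hn) ⟨(P ∪ (bs i).erase x).map φ, hmem x hx⟩
      rw [hidx] at h1
      have h2 : bs i ⊆ P ∪ (bs i).erase x := Finset.map_subset_map.mp h1
      have h3 := h2 (hXs hx)
      rw [Finset.mem_union, Finset.mem_erase] at h3
      rcases h3 with h3 | h3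
      · exact (Finset.disjoint_left.mp hd (hXs hx)) h3
      · exact h3.1 rfl
    · show ((P ∪ (bs i).erase x).map φ ∩ (bs i).map φ).card = 5
      rw [← Finset.map_inter, Finset.card_map, hinter, Finset.card_erase_of_mem (hXs hx), bs_card]
    · show (P ∪ (bs i).erase x).map φ \ (bs i).map φ = P.map φ
      rw [← Finset.map_sdiff, hsd]
  calc Xs.card = Xs.attach.card := Finset.card_attach.symm
    _ = (Xs.attach.image (fun x =>
        (⟨(P ∪ (bs i).erase x.1).map φ, hmem x.1 x.2⟩ : Ht (ts hn)))).card := by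
        symm
        apply Finset.card_image_of_injective
        intro x y hxy
        have h1 := Finset.map_injective φ (congrArg Subtype.val hxy)
        apply Subtype.ext
        by_contra hne
        have h2 : x.1 ∈ P ∪ (bs i).erase y.1 := by
          rw [Finset.mem_union, Finset.mem_erase]
          exact Or.inr ⟨hne, hXs x.2⟩
        rw [← h1, Finset.mem_union, Finset.mem_erase] at h2
        rcases h2 with h2 | h2
        · exact (Finset.disjoint_left.mp hd (hXs x.2)) h2
        · exact h2.1 rfl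
    _ ≤ (XR (ts hn) i (P.map φ)).card := by
        apply Finset.card_le_card
        intro e he
        rw [Finset.mem_image] at he
        obtain ⟨x, _, rfl⟩ := he
        exact hXR x.1 x.2

lemma phi_two (t : Fin 4 → Six n) (i : Fin 4) (Y Y' : Finset (Fin n)) (hY : Y ∈ YY t i)
    (hY' : Y' ∈ YY t i) (hne : Y ≠ Y') (p q : ℕ) (hp : p ≤ (XR t i Y).card)
    (hq : q ≤ (XR t i Y').card) :
    ((4 / 3 : ℝ) ^ p - 1) + ((4 / 3 : ℝ) ^ q - 1) ≤ phi t i := by
  classical
  unfold phi
  calc ((4 / 3 : ℝ) ^ p - 1) + ((4 / 3 : ℝ) ^ q - 1)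
      ≤ ((4 / 3 : ℝ) ^ (XR t i Y).card - 1) + ((4 / 3 : ℝ) ^ (XR t i Y').card - 1) := by
        have h1 : (4 / 3 : ℝ) ^ p ≤ (4 / 3 : ℝ) ^ (XR t i Y).card :=
          pow_le_pow_right₀ (by norm_num) hp
        have h2 : (4 / 3 : ℝ) ^ q ≤ (4 / 3 : ℝ) ^ (XR t i Y').card :=
          pow_le_pow_right₀ (by norm_num) hq
        linarith
    _ = ∑ Z ∈ {Y, Y'}, ((4 / 3 : ℝ) ^ (XR t i Z).card - 1) := by
        rw [Finset.sum_pair hne]
    _ ≤ _ := by
        apply Finset.sum_le_sum_of_subset_of_nonneg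
        · intro Z hZ
          rw [Finset.mem_insert, Finset.mem_singleton] at hZ
          rcases hZ with rfl | rfl
          · exact hY
          · exact hY'
        · intro Z _ _
          have : (1 : ℝ) ≤ (4 / 3 : ℝ) ^ (XR t i Z).card := one_le_pow₀ (by norm_num)
          linarith

lemma phi_one (t : Fin 4 → Six n) (i : Fin 4) (Y : Finset (Fin n)) (hY : Y ∈ YY t i)
    (p : ℕ) (hp : p ≤ (XR t i Y).card) : ((4 / 3 : ℝ) ^ p - 1) ≤ phi t i := by
  classical
  unfold phi
  calc ((4 / 3 : ℝ) ^ p - 1) ≤ ((4 / 3 : ℝ) ^ (XR t i Y).card - 1) := by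
        have h1 : (4 / 3 : ℝ) ^ p ≤ (4 / 3 : ℝ) ^ (XR t i Y).card :=
          pow_le_pow_right₀ (by norm_num) hp
        linarith
    _ ≤ _ := by
        apply Finset.single_le_sum (f := fun Z => ((4 / 3 : ℝ) ^ (XR t i Z).card - 1)) _ hY
        intro Z _
        have : (1 : ℝ) ≤ (4 / 3 : ℝ) ^ (XR t i Z).card := one_le_pow₀ (by norm_num)
        linarith

lemma map_ne {P Q : Finset (Fin 12)} (hn : 12 ≤ n) (h : P ≠ Q) :
    P.map (Fin.castLEEmb hn) ≠ Q.map (Fin.castLEEmb hn) :=
  fun h' => h (Finset.map_injective _ h')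

/-- The weight of the special centres. -/
lemma phi_ts (hn : 12 ≤ n) : (58 / 3 : ℝ) ≤ ∑ i, phi (ts hn) i := by
  rw [Fin.sum_univ_four]
  have h0 : ((4 / 3 : ℝ) ^ 6 - 1) + ((4 / 3 : ℝ) ^ 3 - 1) ≤ phi (ts hn) 0 :=
    phi_two (ts hn) 0 _ _ (ts_YY hn 0 1 (by decide) {6, 7, 8} (by decide) (by decide))
      (ts_YY hn 0 3 (by decide) {9, 10, 11} (by decide) (by decide))
      (map_ne hn (by decide)) 6 3
      (ts_XR hn 0 {6, 7, 8} {0, 1, 2, 3, 4, 5} (by decide) (by decide) (by decide) (by decide))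
      (ts_XR hn 0 {9, 10, 11} {3, 4, 5} (by decide) (by decide) (by decide) (by decide))
  have h1 : ((4 / 3 : ℝ) ^ 6 - 1) + ((4 / 3 : ℝ) ^ 3 - 1) ≤ phi (ts hn) 1 :=
    phi_two (ts hn) 1 _ _ (ts_YY hn 1 0 (by decide) {3, 4, 5} (by decide) (by decide))
      (ts_YY hn 1 3 (by decide) {9, 10, 11} (by decide) (by decide))
      (map_ne hn (by decide)) 6 3
      (ts_XR hn 1 {3, 4, 5} {0, 1, 2, 6, 7, 8} (by decide) (by decide) (by decide) (by decide))
      (ts_XR hn 1 {9, 10, 11} {6, 7, 8} (by decide) (by decide) (by decide) (by decide))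
  have h2 : ((4 / 3 : ℝ) ^ 6 - 1) ≤ phi (ts hn) 2 :=
    phi_one (ts hn) 2 _ (ts_YY hn 2 0 (by decide) {0, 1, 2} (by decide) (by decide)) 6
      (ts_XR hn 2 {0, 1, 2} {3, 4, 5, 6, 7, 8} (by decide) (by decide) (by decide) (by decide))
  have h3 : ((4 / 3 : ℝ) ^ 3 - 1) + ((4 / 3 : ℝ) ^ 3 - 1) ≤ phi (ts hn) 3 :=
    phi_two (ts hn) 3 _ _ (ts_YY hn 3 0 (by decide) {3, 4, 5} (by decide) (by decide))
      (ts_YY hn 3 1 (by decide) {6, 7, 8} (by decide) (by decide))
      (map_ne hn (by decide)) 3 3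
      (ts_XR hn 3 {3, 4, 5} {9, 10, 11} (by decide) (by decide) (by decide) (by decide))
      (ts_XR hn 3 {6, 7, 8} {9, 10, 11} (by decide) (by decide) (by decide) (by decide))
  norm_num at h0 h1 h2 h3 ⊢
  linarith

end Pool.Agent.Helper91.Kneser
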