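import Mathlib
import Pool.Agent.Helper91.K9

set_option autoImplicit false
set_option linter.constructorNameAsVariable false
set_option maxRecDepth 4000

namespace Pool.Agent.Helper91.Kneser

open Finset Filter

attribute [local irreducible] BalMap

lemma ev (K : ℝ) (m : ℕ) (r : ℝ) (hr : 1 < r) : ∀ᶠ n : ℕ in atTop, K * (n : ℝ) ^ m ≤ r ^ n := by
  have h1 : Tendsto (fun n : ℕ => K * ((n : ℝ) ^ m / r ^ n)) atTop (nhds (K * 0)) :=
    (tendsto_pow_const_div_const_pow_of_one_lt m hr).const_mul K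
  rw [mul_zero] at h1
  have h2 : ∀ᶠ n : ℕ in atTop, K * ((n : ℝ) ^ m / r ^ n) < 1 :=
    h1.eventually (eventually_lt_nhds one_pos)
  filter_upwards [h2] with n hn
  have h3 : 0 < r ^ n := by positivity
  have h4 : K * ((n : ℝ) ^ m / r ^ n) = K * (n : ℝ) ^ m / r ^ n := by ring
  rw [h4, div_lt_one h3] at hn
  exact hn.le

lemma sq_le_choose (n : ℕ) (hn : 23 ≤ n) : n * n ≤ 4 * (n - 6).choose 2 := by
  obtain ⟨k, rfl⟩ : ∃ k, n = k + 23 := ⟨n - 23, by omega⟩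
  have h1 : k + 23 - 6 = (k + 16) + 1 := by omega
  rw [h1, Nat.choose_two_right]
  have h2 : (k + 16 + 1) * (k + 16 + 1 - 1) = (k + 16 + 1) * (k + 16) := by
    rw [Nat.add_sub_cancel]
  rw [h2]
  have h3 : 2 ∣ (k + 16 + 1) * (k + 16) := by
    have := Nat.even_mul_succ_self (k + 16)
    rw [mul_comm] at this
    exact this.two_dvd
  obtain ⟨q, hq⟩ := h3
  rw [hq, Nat.mul_div_cancel_left _ (by norm_num)]
  nlinarith

lemma main_ev (K : ℝ) (hK : 0 ≤ K) (m : ℕ) (p q r : ℝ) (hp : 0 < p) (hr : 1 < r)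
    (hr4 : r ^ 4 * p ≤ q) :
    ∀ᶠ n : ℕ in atTop, (K * (n : ℝ) ^ m) ^ n * p ^ ((n - 6).choose 2) ≤
      q ^ ((n - 6).choose 2) := by
  filter_upwards [ev K m r hr, eventually_ge_atTop 23] with n hn h23
  calc (K * (n : ℝ) ^ m) ^ n * p ^ ((n - 6).choose 2)
      ≤ (r ^ n) ^ n * p ^ ((n - 6).choose 2) := by
        apply mul_le_mul_of_nonneg_right _ (by positivity)
        exact pow_le_pow_left₀ (by positivity) hn n
    _ = r ^ (n * n) * p ^ ((n - 6).choose 2) := by rw [← pow_mul]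
    _ ≤ r ^ (4 * (n - 6).choose 2) * p ^ ((n - 6).choose 2) := by
        apply mul_le_mul_of_nonneg_right _ (by positivity)
        exact pow_le_pow_right₀ hr.le (sq_le_choose n h23)
    _ = (r ^ 4 * p) ^ ((n - 6).choose 2) := by rw [pow_mul, ← mul_pow]
    _ ≤ q ^ ((n - 6).choose 2) := pow_le_pow_left₀ (by positivity) hr4 _

lemma pow_le_pow_n (a : ℝ) (ha : 1 ≤ a) (n : ℕ) (hn : 1 ≤ n) : a ≤ a ^ n := by
  calc a = a ^ 1 := (pow_one a).symm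
    _ ≤ a ^ n := pow_le_pow_right₀ ha hn

lemma Efac_le (a b c d : ℕ) (n : ℕ) (hn : 1 ≤ n) :
    ((((n : ℝ) ^ 6 + 1) ^ a * ((((n : ℝ) ^ 8 + 1) ^ (b * n)) ^ a)) *
      (12 ^ (c * n) * 3 ^ (d * n))) ≤
      ((2 : ℝ) ^ (a + b * a) * 12 ^ c * 3 ^ d * (n : ℝ) ^ (8 * (a + b * a))) ^ n := by
  have hn1 : (1 : ℝ) ≤ n := by exact_mod_cast hn
  have h8 : (n : ℝ) ^ 8 + 1 ≤ 2 * (n : ℝ) ^ 8 := by
    have : (1 : ℝ) ≤ (n : ℝ) ^ 8 := one_le_pow₀ hn1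
    linarith
  have h6 : (n : ℝ) ^ 6 + 1 ≤ 2 * (n : ℝ) ^ 8 := by
    have h : (1 : ℝ) ≤ (n : ℝ) ^ 8 := one_le_pow₀ hn1
    have h' : (n : ℝ) ^ 6 ≤ (n : ℝ) ^ 8 := pow_le_pow_right₀ hn1 (by norm_num)
    linarith
  have h2 : (1 : ℝ) ≤ 2 * (n : ℝ) ^ 8 := by
    have : (1 : ℝ) ≤ (n : ℝ) ^ 8 := one_le_pow₀ hn1
    linarith
  calc ((((n : ℝ) ^ 6 + 1) ^ a * ((((n : ℝ) ^ 8 + 1) ^ (b * n)) ^ a)) *
        (12 ^ (c * n) * 3 ^ (d * n)))
      ≤ (((2 * (n : ℝ) ^ 8) ^ (a * n) * (((2 * (n : ℝ) ^ 8) ^ (b * n)) ^ a)) *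
        (12 ^ (c * n) * 3 ^ (d * n))) := by
        apply mul_le_mul_of_nonneg_right _ (by positivity)
        apply mul_le_mul _ _ (by positivity) (by positivity)
        · calc ((n : ℝ) ^ 6 + 1) ^ a ≤ (2 * (n : ℝ) ^ 8) ^ a :=
                pow_le_pow_left₀ (by positivity) h6 _
            _ ≤ (2 * (n : ℝ) ^ 8) ^ (a * n) :=
                pow_le_pow_right₀ h2 (Nat.le_mul_of_pos_right a hn)
        · apply pow_le_pow_left₀ (by positivity)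
          exact pow_le_pow_left₀ (by positivity) h8 _
    _ = _ := by
        rw [mul_comm a n, mul_comm b n, mul_comm c n, mul_comm d n]
        simp only [mul_pow, pow_mul, pow_add]
        ring

lemma ev_E1 : ∀ᶠ n : ℕ in atTop,
    (Efac n : ℝ) * 77 ^ ((n - 6).choose 2) * 10 ≤ 81 ^ ((n - 6).choose 2) := by
  have h := main_ev (10 * ((2 : ℝ) ^ (12 + 224 * 12) * 12 ^ 2832 * 3 ^ 4)) (by positivity)
    (8 * (12 + 224 * 12)) 77 81 1.01 (by norm_num) (by norm_num) (by norm_num)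
  filter_upwards [h, eventually_ge_atTop 1] with n hn h1
  have h2 := Efac_le 12 224 2832 4 n h1
  have h3 : (Efac n : ℝ) = ((((n : ℝ) ^ 6 + 1) ^ 12 * ((((n : ℝ) ^ 8 + 1) ^ (224 * n)) ^ 12)) *
      (12 ^ (2832 * n) * 3 ^ (4 * n))) := by
    unfold Efac
    have : 12 * (224 * n) + 144 * n = 2832 * n := by ring
    rw [this]
    push_cast
    rfl
  rw [← h3] at h2
  have h10 : (10 : ℝ) ≤ 10 ^ n := pow_le_pow_n 10 (by norm_num) n h1
  calc (Efac n : ℝ) * 77 ^ ((n - 6).choose 2) * 10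
      = (10 * (Efac n : ℝ)) * 77 ^ ((n - 6).choose 2) := by ring
    _ ≤ (10 ^ n * (((2 : ℝ) ^ (12 + 224 * 12) * 12 ^ 2832 * 3 ^ 4 *
          (n : ℝ) ^ (8 * (12 + 224 * 12))) ^ n)) * 77 ^ ((n - 6).choose 2) := by
        apply mul_le_mul_of_nonneg_right _ (by positivity)
        exact mul_le_mul h10 h2 (by positivity) (by positivity)
    _ = (10 * ((2 : ℝ) ^ (12 + 224 * 12) * 12 ^ 2832 * 3 ^ 4) *
          (n : ℝ) ^ (8 * (12 + 224 * 12))) ^ n * 77 ^ ((n - 6).choose 2) := by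
        rw [← mul_pow]
        congr 2
        exact (mul_assoc _ _ _).symm
    _ ≤ _ := hn

lemma ev_E2 : ∀ᶠ n : ℕ in atTop,
    (120 : ℝ) * 54 ^ ((n - 6).choose 2) ≤ 81 ^ ((n - 6).choose 2) := by
  have h := main_ev 120 (by norm_num) 0 54 81 1.1 (by norm_num) (by norm_num) (by norm_num)
  filter_upwards [h, eventually_ge_atTop 1] with n hn h1
  rw [pow_zero, mul_one] at hn
  refine le_trans ?_ hn
  apply mul_le_mul_of_nonneg_right _ (by positivity)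
  exact pow_le_pow_n 120 (by norm_num) n h1

lemma ev_E4 : ∀ᶠ n : ℕ in atTop,
    (Efac2 n : ℝ) * 48 ^ ((n - 6).choose 2) ≤ 54 ^ ((n - 6).choose 2) := by
  have h := main_ev (((5 : ℝ) ^ 12) * (2 ^ (12 + 12 * 12) * 12 ^ 144 * 3 ^ 0)) (by positivity)
    (8 * (12 + 12 * 12)) 48 54 1.01 (by norm_num) (by norm_num) (by norm_num)
  filter_upwards [h, eventually_ge_atTop 1] with n hn h1
  have h2 := Efac_le 12 12 144 0 n h1
  have h3 : (Efac2 n : ℝ) ≤ 5 ^ 12 * ((((n : ℝ) ^ 6 + 1) ^ 12 *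
      ((((n : ℝ) ^ 8 + 1) ^ (12 * n)) ^ 12)) * (12 ^ (144 * n) * 3 ^ (0 * n))) := by
    unfold Efac2
    have : 12 * (12 * n) = 144 * n := by ring
    rw [this]
    push_cast
    have e5 : (244140625 : ℝ) = 5 ^ 12 := by norm_num
    rw [zero_mul, pow_zero, mul_one, mul_assoc, e5]
    apply mul_le_mul_of_nonneg_left _ (by positivity)
    apply mul_le_mul_of_nonneg_right _ (by positivity)
    apply le_mul_of_one_le_left (by positivity)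
    apply one_le_pow₀
    have : (0 : ℝ) ≤ (n : ℝ) ^ 6 := by positivity
    linarith
  have h5 : (5 : ℝ) ^ 12 ≤ (5 ^ 12) ^ n := pow_le_pow_n _ (by norm_num) n h1
  calc (Efac2 n : ℝ) * 48 ^ ((n - 6).choose 2)
      ≤ ((5 ^ 12) ^ n * (((2 : ℝ) ^ (12 + 12 * 12) * 12 ^ 144 * 3 ^ 0 *
          (n : ℝ) ^ (8 * (12 + 12 * 12))) ^ n)) * 48 ^ ((n - 6).choose 2) := by
        apply mul_le_mul_of_nonneg_right _ (by positivity)
        exact h3.trans (mul_le_mul h5 h2 (by positivity) (by positivity))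
    _ = (((5 : ℝ) ^ 12) * (2 ^ (12 + 12 * 12) * 12 ^ 144 * 3 ^ 0) *
          (n : ℝ) ^ (8 * (12 + 12 * 12))) ^ n * 48 ^ ((n - 6).choose 2) := by
        rw [← mul_pow]
        congr 2
        exact (mul_assoc _ _ _).symm
    _ ≤ _ := hn

lemma choose_two_eq (k : ℕ) : 2 * (k + 1).choose 2 = (k + 1) * k := by
  rw [Nat.choose_two_right, Nat.add_sub_cancel]
  have h3 : 2 ∣ (k + 1) * k := by
    have := Nat.even_mul_succ_self k
    rw [mul_comm] at this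
    exact this.two_dvd
  exact Nat.mul_div_cancel' h3

lemma gn_eq (n : ℕ) (hn : 10 ≤ n) : gn n + 24 = 3 * n := by
  obtain ⟨k, rfl⟩ : ∃ k, n = k + 10 := ⟨n - 10, by omega⟩
  unfold gn
  have h1 := choose_two_eq (k + 3)
  have h2 := choose_two_eq k
  have e1 : k + 10 - 6 = k + 3 + 1 := by omega
  have e2 : k + 10 - 9 = k + 1 := by omega
  rw [e1, e2]
  have h3 : 2 * (k + 3 + 1).choose 2 = 2 * (k + 1).choose 2 + 6 * k + 12 := by
    rw [h1, h2]; ring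
  omega

lemma ev_E3 : ∀ᶠ n : ℕ in atTop, 12 * err n ≤ (3 / 2 : ℝ) ^ gn n := by
  have ha := ev (576 * (3 / 2 : ℝ) ^ 57) 0 (3 / 2) (by norm_num)
  have hb := ev (576 * ((3 / 2 : ℝ) ^ 48 * (4 / 3) ^ 24)) 0 (9 / 8) (by norm_num)
  have hc := ev (36 * (2 ^ 24 * (3 / 2 : ℝ) ^ 48)) 192 (3 / 2) (by norm_num)
  filter_upwards [ha, hb, hc, eventually_ge_atTop 10] with n ha hb hc hn
  have hg := gn_eq n hn
  rw [pow_zero, mul_one] at ha hb
  have hpos : (0 : ℝ) < (3 / 2 : ℝ) ^ 24 := by positivity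
  have hpg : (3 / 2 : ℝ) ^ gn n * (3 / 2) ^ 24 = (3 / 2) ^ (3 * n) := by
    rw [← pow_add, hg]
  have h3n : (3 / 2 : ℝ) ^ (3 * n) = (3 / 2) ^ (2 * n) * (3 / 2) ^ n := by
    rw [← pow_add]; congr 1; ring
  have hA : 3 * (12 * (16 * (3 / 2 : ℝ) ^ (2 * n + 33))) * (3 / 2) ^ 24 ≤ (3 / 2) ^ (3 * n) := by
    rw [h3n]
    calc 3 * (12 * (16 * (3 / 2 : ℝ) ^ (2 * n + 33))) * (3 / 2) ^ 24
        = (3 / 2 : ℝ) ^ (2 * n) * (576 * (3 / 2 : ℝ) ^ 57) := by ring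
      _ ≤ _ := mul_le_mul_of_nonneg_left ha (by positivity)
  have hB : 3 * (12 * (16 * ((3 / 2 : ℝ) ^ 24 * (4 / 3) ^ (3 * n + 24)))) * (3 / 2) ^ 24 ≤
      (3 / 2) ^ (3 * n) := by
    have e1 : (9 / 8 : ℝ) ^ n ≤ (9 / 8) ^ (3 * n) :=
      pow_le_pow_right₀ (by norm_num) (by omega)
    have e2 : (3 / 2 : ℝ) ^ (3 * n) = (4 / 3) ^ (3 * n) * (9 / 8) ^ (3 * n) := by
      rw [← mul_pow]; norm_num
    rw [e2]
    calc 3 * (12 * (16 * ((3 / 2 : ℝ) ^ 24 * (4 / 3) ^ (3 * n + 24)))) * (3 / 2) ^ 24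
        = (4 / 3 : ℝ) ^ (3 * n) * (576 * ((3 / 2 : ℝ) ^ 48 * (4 / 3) ^ 24)) := by ring
      _ ≤ _ := mul_le_mul_of_nonneg_left (hb.trans e1) (by positivity)
  have hC : 3 * (12 * (((n : ℝ) ^ 8 + 1) ^ 24 * (3 / 2) ^ 24)) * (3 / 2) ^ 24 ≤
      (3 / 2) ^ (3 * n) := by
    have hn1 : (1 : ℝ) ≤ n := by
      have : 1 ≤ n := by omega
      exact_mod_cast this
    have h8 : (n : ℝ) ^ 8 + 1 ≤ 2 * (n : ℝ) ^ 8 := by
      have : (1 : ℝ) ≤ (n : ℝ) ^ 8 := one_le_pow₀ hn1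
      linarith
    have h24 : ((n : ℝ) ^ 8 + 1) ^ 24 ≤ 2 ^ 24 * (n : ℝ) ^ 192 := by
      calc ((n : ℝ) ^ 8 + 1) ^ 24 ≤ (2 * (n : ℝ) ^ 8) ^ 24 :=
            pow_le_pow_left₀ (by positivity) h8 _
        _ = _ := by rw [mul_pow, ← pow_mul]
    calc 3 * (12 * (((n : ℝ) ^ 8 + 1) ^ 24 * (3 / 2) ^ 24)) * (3 / 2) ^ 24
        = ((n : ℝ) ^ 8 + 1) ^ 24 * (36 * (3 / 2) ^ 48) := by ring
      _ ≤ (2 ^ 24 * (n : ℝ) ^ 192) * (36 * (3 / 2) ^ 48) :=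
          mul_le_mul_of_nonneg_right h24 (by positivity)
      _ = 36 * (2 ^ 24 * (3 / 2 : ℝ) ^ 48) * (n : ℝ) ^ 192 := by ring
      _ ≤ (3 / 2) ^ n := hc
      _ ≤ (3 / 2) ^ (3 * n) := pow_le_pow_right₀ (by norm_num) (by omega)
  have hsum : 12 * err n * (3 / 2 : ℝ) ^ 24 ≤ (3 / 2 : ℝ) ^ gn n * (3 / 2) ^ 24 := by
    rw [hpg]
    unfold err
    linarith
  exact le_of_mul_le_mul_right hsum hpos

lemma choose_ge (n : ℕ) (hn : 27 ≤ n) : n - 24 ≤ (n - 24).choose 2 := by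
  obtain ⟨k, rfl⟩ : ∃ k, n = k + 27 := ⟨n - 27, by omega⟩
  have e1 : k + 27 - 24 = k + 2 + 1 := by omega
  rw [e1]
  have h1 := choose_two_eq (k + 2)
  nlinarith

lemma ev_E5 : ∀ᶠ n : ℕ in atTop, 48 * err2 n ≤ (3 / 2 : ℝ) ^ gn n := by
  have ha := ev (96 * (4 / 3 : ℝ) ^ 24 * (3 / 2) ^ 24) 0 (3 / 2) (by norm_num)
  have hb := ev (1056 * (4 / 3 : ℝ) ^ 24 * (3 / 2) ^ 24) 0 (3 / 2) (by norm_num)
  filter_upwards [ha, hb, eventually_ge_atTop 27] with n ha hb hn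
  have hg := gn_eq n (by omega)
  rw [pow_zero, mul_one] at ha hb
  have hpos : (0 : ℝ) < (3 / 2 : ℝ) ^ 24 := by positivity
  have h1 : 96 * (4 / 3 : ℝ) ^ 24 ≤ (3 / 2) ^ gn n := by
    have h : 96 * (4 / 3 : ℝ) ^ 24 * (3 / 2) ^ 24 ≤ (3 / 2) ^ gn n * (3 / 2) ^ 24 := by
      rw [← pow_add, hg]
      exact ha.trans (pow_le_pow_right₀ (by norm_num) (by omega))
    exact le_of_mul_le_mul_right h hpos
  have h2 : 1056 * (4 / 3 : ℝ) ^ 24 * (2 / 3) ^ ((n - 24).choose 2) ≤ 1 := by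
    have e1 : (2 / 3 : ℝ) ^ ((n - 24).choose 2) ≤ (2 / 3) ^ (n - 24) :=
      pow_le_pow_of_le_one (by norm_num) (by norm_num) (choose_ge n hn)
    have e2 : (3 / 2 : ℝ) ^ n = (3 / 2) ^ (n - 24) * (3 / 2) ^ 24 := by
      rw [← pow_add]; congr 1; omega
    have e3 : 1056 * (4 / 3 : ℝ) ^ 24 ≤ (3 / 2) ^ (n - 24) := by
      rw [e2] at hb
      exact le_of_mul_le_mul_right hb hpos
    calc 1056 * (4 / 3 : ℝ) ^ 24 * (2 / 3) ^ ((n - 24).choose 2)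
        ≤ (3 / 2) ^ (n - 24) * (2 / 3) ^ (n - 24) :=
          mul_le_mul e3 e1 (by positivity) (by positivity)
      _ = 1 := by rw [← mul_pow]; norm_num
  have hgp : (0 : ℝ) < (3 / 2 : ℝ) ^ gn n := by positivity
  unfold err2
  have h3 : 1056 * (4 / 3 : ℝ) ^ 24 * (2 / 3) ^ ((n - 24).choose 2) * (3 / 2) ^ gn n ≤
      1 * (3 / 2) ^ gn n := mul_le_mul_of_nonneg_right h2 hgp.le
  linarith

end Pool.Agent.Helper91.Kneser
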