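import Mathlib
import Pool.Agent.Helper91.K10

set_option autoImplicit false
set_option linter.constructorNameAsVariable false
set_option maxRecDepth 4000

namespace Pool.Agent.Helper91.Kneser

open Finset Filter

attribute [local irreducible] BalMap

variable {n : ℕ}

lemma BalMap_pos : 1 ≤ BalMap.card := by
  rw [Nat.one_le_iff_ne_zero, Finset.card_ne_zero]
  refine ⟨fun σ => ⟨σ.1 % 4, Nat.mod_lt _ (by norm_num)⟩, ?_⟩
  rw [mem_BalMap]
  decide

lemma KC_ts_ge (hn : 12 ≤ n)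
    (h2 : (120 : ℝ) * 54 ^ ((n - 6).choose 2) ≤ 81 ^ ((n - 6).choose 2)) :
    (BalMap.card : ℝ) * 81 ^ ((n - 6).choose 2) * 9 ≤ 10 * ((KC (Ht (ts hn))).card : ℝ) := by
  have h3 := card_PC_ge (ts hn) (ts_nice hn)
  have h4 : ((BalMap.card * 81 ^ ((n - 6).choose 2) : ℕ) : ℝ) ≤
      (((PC (ts hn)).card + BalMap.card * (12 * 54 ^ ((n - 6).choose 2)) : ℕ) : ℝ) :=
    Nat.cast_le.mpr h3
  push_cast at h4
  have h5 : ((KC (Ht (ts hn))).card : ℝ) = ((PC (ts hn)).card : ℝ) + ((NM (ts hn)).card : ℝ) := by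
    rw [card_KC]
    push_cast
    rfl
  have h6 : (0 : ℝ) ≤ ((NM (ts hn)).card : ℝ) := by positivity
  have h7 : (BalMap.card : ℝ) * (120 * 54 ^ ((n - 6).choose 2)) ≤
      (BalMap.card : ℝ) * 81 ^ ((n - 6).choose 2) :=
    mul_le_mul_of_nonneg_left h2 (by positivity)
  rw [h5]
  linarith

lemma lt_of_none (hn : 12 ≤ n)
    (h1 : (Efac n : ℝ) * 77 ^ ((n - 6).choose 2) * 10 ≤ 81 ^ ((n - 6).choose 2))
    (h2 : (120 : ℝ) * 54 ^ ((n - 6).choose 2) ≤ 81 ^ ((n - 6).choose 2))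
    (H : Finset (Finset (Fin n))) (h8 : ∀ e ∈ H, e.card = 8)
    (hno : ¬ ∃ t : Fin 4 → Six n, Function.Injective t ∧ ∀ e ∈ H, ∃ i, (t i).1 ⊆ e) :
    (KC H).card < (KC (Ht (ts hn))).card := by
  have h3 := struct_none H h8 hno
  have h4 : ((KC H).card : ℝ) ≤ ((Efac n * 77 ^ ((n - 6).choose 2) : ℕ) : ℝ) :=
    Nat.cast_le.mpr h3
  push_cast at h4
  have h5 := KC_ts_ge hn h2
  have hN : (1 : ℝ) ≤ (BalMap.card : ℝ) := by exact_mod_cast BalMap_pos
  have hpos : (0 : ℝ) < 81 ^ ((n - 6).choose 2) := by positivity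
  have h6 : (81 : ℝ) ^ ((n - 6).choose 2) ≤ (BalMap.card : ℝ) * 81 ^ ((n - 6).choose 2) :=
    le_mul_of_one_le_left hpos.le hN
  have h7 : ((KC H).card : ℝ) < ((KC (Ht (ts hn))).card : ℝ) := by linarith
  exact_mod_cast h7

lemma lt_of_some (hn : 12 ≤ n)
    (h1 : (Efac n : ℝ) * 77 ^ ((n - 6).choose 2) * 10 ≤ 81 ^ ((n - 6).choose 2))
    (h2 : (120 : ℝ) * 54 ^ ((n - 6).choose 2) ≤ 81 ^ ((n - 6).choose 2))
    (H : Finset (Finset (Fin n))) (h8 : ∀ e ∈ H, e.card = 8)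
    (t : Fin 4 → Six n) (ht : Function.Injective t) (hHt : ∀ e ∈ H, ∃ i, (t i).1 ⊆ e)
    (hno : ¬ (H = Ht t ∧ Nice t)) :
    (KC H).card < (KC (Ht (ts hn))).card := by
  have h3 := struct_some H h8 t ht hHt
  have h4 : ((KC H).card : ℝ) ≤ ((BalMap.card * (∏ e : H, 3 * jn t e.1)
      + Efac n * 77 ^ ((n - 6).choose 2) : ℕ) : ℝ) := Nat.cast_le.mpr h3
  rw [Nat.cast_add, Nat.cast_mul] at h4
  have h3' := prod_jn_loss (by omega) H h8 t hHt hno
  have h4' : ((3 * ∏ e : H, 3 * jn t e.1 : ℕ) : ℝ) ≤ ((2 * 81 ^ ((n - 6).choose 2) : ℕ) : ℝ) :=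
    Nat.cast_le.mpr h3'
  rw [Nat.cast_mul] at h4'
  set P : ℝ := ((∏ e : H, 3 * jn t e.1 : ℕ) : ℝ) with hP
  push_cast at h4 h4'
  have h5 := KC_ts_ge hn h2
  have hN : (1 : ℝ) ≤ (BalMap.card : ℝ) := by exact_mod_cast BalMap_pos
  have hpos : (0 : ℝ) < 81 ^ ((n - 6).choose 2) := by positivity
  have h6 : (81 : ℝ) ^ ((n - 6).choose 2) ≤ (BalMap.card : ℝ) * 81 ^ ((n - 6).choose 2) :=
    le_mul_of_one_le_left hpos.le hN
  have h8' : (BalMap.card : ℝ) * (3 * P) ≤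
      (BalMap.card : ℝ) * (2 * 81 ^ ((n - 6).choose 2)) :=
    mul_le_mul_of_nonneg_left h4' (by positivity)
  have h7 : ((KC H).card : ℝ) < ((KC (Ht (ts hn))).card : ℝ) := by nlinarith
  exact_mod_cast h7

lemma lt_of_equi (hn : 12 ≤ n)
    (h3 : 12 * err n ≤ (3 / 2 : ℝ) ^ gn n)
    (h4 : (Efac2 n : ℝ) * 48 ^ ((n - 6).choose 2) ≤ 54 ^ ((n - 6).choose 2))
    (h5 : 48 * err2 n ≤ (3 / 2 : ℝ) ^ gn n)
    (t : Fin 4 → Six n) (ht : Equi t) :
    (KC (Ht t)).card < (KC (Ht (ts hn))).card := by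
  have hN : (1 : ℝ) ≤ (BalMap.card : ℝ) := by exact_mod_cast BalMap_pos
  have hPC := card_PC_eq t (ts hn) (equi_nice t ht) (ts_nice hn)
  rw [card_KC, card_KC, hPC]
  apply Nat.add_lt_add_left
  have hA := NM_equi t ht (by omega)
  have hB := NM_ge (ts hn) (ts_nice hn)
  have hphi := phi_ts hn
  set G : ℝ := (3 / 2 : ℝ) ^ gn n with hG
  set Q : ℝ := (54 : ℝ) ^ ((n - 6).choose 2) with hQ
  set N : ℝ := (BalMap.card : ℝ) with hN'
  have hG1 : 1 ≤ G := one_le_pow₀ (by norm_num)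
  have hQ1 : 0 < Q := by positivity
  have hNQ : 0 < N * Q := by positivity
  have hA1 : ((NM t).card : ℝ) ≤ N * Q * (G * (154 / 3)) := by
    calc ((NM t).card : ℝ) ≤ Q + N * (Q * (G * (148 / 3) + 12 * err n)) := by linarith
      _ ≤ N * Q * G + N * (Q * (G * (148 / 3) + G)) := by
          apply add_le_add
          · calc Q = 1 * Q * 1 := by ring
              _ ≤ N * Q * G := by
                  apply mul_le_mul _ hG1 (by norm_num) (by positivity)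
                  exact mul_le_mul_of_nonneg_right hN hQ1.le
          · apply mul_le_mul_of_nonneg_left _ (by positivity)
            apply mul_le_mul_of_nonneg_left _ hQ1.le
            linarith
      _ = N * Q * (G * (154 / 3)) := by ring
  have hB1 : N * Q * (G * 57) ≤ ((NM (ts hn)).card : ℝ) := by
    refine le_trans ?_ hB
    rw [mul_assoc]
    apply mul_le_mul_of_nonneg_left _ (by positivity)
    apply mul_le_mul_of_nonneg_left _ hQ1.le
    have h6 : G * 58 ≤ G * (3 * ∑ i, phi (ts hn) i) := by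
      apply mul_le_mul_of_nonneg_left _ (by positivity)
      linarith
    linarith
  have hC : N * Q * (G * (154 / 3)) < N * Q * (G * 57) := by
    apply mul_lt_mul_of_pos_left _ hNQ
    linarith
  have hD : ((NM t).card : ℝ) < ((NM (ts hn)).card : ℝ) := hA1.trans_lt (hC.trans_le hB1)
  exact_mod_cast hD

/-- Structure of extremal hypergraphs for large `n`. -/
theorem extremal_structure : ∃ n₀ : ℕ, ∀ n : ℕ, n₀ ≤ n →
    ∀ H : Finset (Finset (Fin n)), (∀ e ∈ H, e.card = 8) →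
      (∀ H' : Finset (Finset (Fin n)), (∀ e ∈ H', e.card = 8) → (KC H').card ≤ (KC H).card) →
      ∃ t : Fin 4 → Six n, H = Ht t ∧ Nice t ∧ ¬ Equi t := by
  have hall := ((((ev_E1.and ev_E2).and ev_E3).and ev_E4).and ev_E5).and (eventually_ge_atTop 12)
  obtain ⟨n₀, hn₀⟩ := eventually_atTop.mp hall
  refine ⟨n₀, fun n hn H h8 hmax => ?_⟩
  obtain ⟨⟨⟨⟨⟨h1, h2⟩, h3⟩, h4⟩, h5⟩, h12⟩ := hn₀ n hn
  have hts : (KC (Ht (ts h12))).card ≤ (KC H).card :=
    hmax _ (fun e he => ((mem_Ht _ e).mp he).1)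
  by_cases hcov : ∃ t : Fin 4 → Six n, Function.Injective t ∧ ∀ e ∈ H, ∃ i, (t i).1 ⊆ e
  · obtain ⟨t, ht, hHt⟩ := hcov
    by_cases hgood : H = Ht t ∧ Nice t
    · refine ⟨t, hgood.1, hgood.2, fun heq => ?_⟩
      have := lt_of_equi h12 h3 h4 h5 t heq
      rw [← hgood.1] at this
      exact absurd hts (not_le.mpr this)
    · exact absurd hts (not_le.mpr (lt_of_some h12 h1 h2 H h8 t ht hHt hgood))
  · exact absurd hts (not_le.mpr (lt_of_none h12 h1 h2 H h8 hcov))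

end Pool.Agent.Helper91.Kneser
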