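import Mathlib
import Pool.Agent.Helper68.PSBase
import Pool.Agent.Helper68.PSDefs

/-!
The model-theoretic part of the proof that SOP1 and SOP2 agree for positive theories: the
combinatorial statement `CInf (Fin 3) F0` implies the equivalence (MP_0ff3ec_lc).
-/

namespace PosSOP

open FirstOrder FirstOrder.Language

universe u v w t t'

variable {L : FirstOrder.Language.{u, v}}

/-! ### Positive formulas -/

theorem IsPos.relabel {α : Type t} {β : Type t'} {n k : ℕ} {φ : L.BoundedFormula α k}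
    (h : IsPos φ) (g : α → β ⊕ Fin n) : IsPos (φ.relabel g) := by
  induction h with
  | bot => exact IsPos.bot
  | top => exact IsPos.top
  | equal s t => exact IsPos.equal _ _
  | rel R ts => exact IsPos.rel _ _
  | inf _ _ ih1 ih2 => exact IsPos.inf ih1 ih2
  | sup _ _ ih1 ih2 => exact IsPos.sup ih1 ih2
  | ex _ ih =>
    rw [BoundedFormula.relabel_ex]
    exact IsPos.ex ih

theorem IsPos.frelabel {α : Type t} {β : Type t'} {φ : L.Formula α}
    (h : IsPos φ) (g : α → β) : IsPos (φ.relabel g) :=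
  IsPos.relabel h _

theorem IsPos.exs {α : Type t} {k : ℕ} {φ : L.BoundedFormula α k} (h : IsPos φ) :
    IsPos φ.exs := by
  induction k with
  | zero => exact h
  | succ k ih => exact ih (IsPos.ex h)

theorem IsPos.iExs {α : Type t} {β : Type t'} [Finite β] {φ : L.Formula (α ⊕ β)}
    (h : IsPos φ) : IsPos (φ.iExs β) := by
  unfold Formula.iExs
  exact IsPos.exs (IsPos.relabel h _)

theorem IsPos.iInf {α : Type t} {β : Type t'} [Finite β] {f : β → L.Formula α}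
    (h : ∀ b, IsPos (f b)) : IsPos (Formula.iInf f) := by
  have key : ∀ l : List β, IsPos ((l.map f).foldr (· ⊓ ·) ⊤) := by
    intro l
    induction l with
    | nil => exact IsPos.top
    | cons a l ih => exact IsPos.inf (h a) ih
  exact key _

theorem IsPos.realize_hom {α : Type t} {M N : Type w} [L.Structure M] [L.Structure N]
    (f : M →[L] N) {k : ℕ} {φ : L.BoundedFormula α k} (h : IsPos φ) :
    ∀ (x : α → M) (xs : Fin k → M), φ.Realize x xs → φ.Realize (f ∘ x) (f ∘ xs) := by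
  induction h with
  | bot => intro x xs h; exact h
  | top => intro x xs _; exact BoundedFormula.realize_top.mpr trivial
  | equal s t =>
    intro x xs h
    rw [BoundedFormula.realize_bdEqual] at h ⊢
    rw [← Sum.comp_elim, HomClass.realize_term, HomClass.realize_term, h]
  | rel R ts =>
    intro x xs h
    rw [BoundedFormula.realize_rel] at h ⊢
    have h2 := f.map_rel R _ h
    rw [← Sum.comp_elim]
    simp only [HomClass.realize_term]
    exact h2
  | inf _ _ ih1 ih2 =>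
    intro x xs h
    rw [BoundedFormula.realize_inf] at h ⊢
    exact ⟨ih1 x xs h.1, ih2 x xs h.2⟩
  | sup _ _ ih1 ih2 =>
    intro x xs h
    rw [BoundedFormula.realize_sup] at h ⊢
    rcases h with h | h
    · exact Or.inl (ih1 x xs h)
    · exact Or.inr (ih2 x xs h)
  | ex _ ih =>
    intro x xs h
    rw [BoundedFormula.realize_ex] at h ⊢
    obtain ⟨a, ha⟩ := h
    refine ⟨f a, ?_⟩
    have h2 := ih x _ ha
    rwa [Fin.comp_snoc] at h2

/-- A positive formula satisfied in some model is satisfied in every existentially closed one. -/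
theorem realize_transfer {T : Set (HInd L)} (hJ : JCP.{u, v, w} T) {M : Type w} [L.Structure M]
    (hM : IsEC T M) {N : Type w} [L.Structure N] (hN : Models T N) {I : Type t} [Finite I]
    (φ : L.Formula I) (hφ : IsPos φ) (x : I → N) (hx : φ.Realize x) :
    ∃ y : I → M, φ.Realize y := by
  obtain ⟨P, iP, hP, ⟨f⟩, ⟨g⟩⟩ := hJ M N hM.1 hN
  let χ : L.Formula (Fin 0) := (φ.relabel (Sum.inr : I → Fin 0 ⊕ I)).iExs I
  have hχ : IsPos χ := IsPos.iExs (IsPos.frelabel hφ _)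
  have h1 : χ.Realize (f ∘ (Fin.elim0 : Fin 0 → M)) := by
    rw [Formula.realize_iExs]
    refine ⟨g ∘ x, ?_⟩
    rw [Formula.realize_relabel, Sum.elim_comp_inr]
    have h2 := IsPos.realize_hom g hφ x default hx
    have h3 : (g ∘ (default : Fin 0 → N)) = (default : Fin 0 → P) := funext fun i => i.elim0
    rw [h3] at h2
    exact h2
  have h2 := hM.2 P hP f 0 χ hχ _ h1
  rw [Formula.realize_iExs] at h2
  obtain ⟨y, hy⟩ := h2
  refine ⟨y, ?_⟩
  rwa [Formula.realize_relabel, Sum.elim_comp_inr] at hy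

/-! ### The formula of a finite structure -/

section strFml

variable {n m : ℕ} (φ : L.Formula (Fin n ⊕ Fin m)) (ψ : L.Formula (Fin m ⊕ Fin m))

/-- `z` realises the structure `F` in `M`: the face of `p` is the tuple `z (p, inl ·)`, the node of
`p` is the tuple `z (p, inr ·)`. -/
def Real {V : Type} (F : Str V) {M : Type w} [L.Structure M] (z : V × (Fin n ⊕ Fin m) → M) :
    Prop :=
  (∀ p q, F.E p q → φ.Realize (Sum.elim (fun i => z (p, Sum.inl i)) (fun j => z (q, Sum.inr j)))) ∧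
  (∀ p q, F.R p q → ψ.Realize (Sum.elim (fun i => z (p, Sum.inr i)) (fun j => z (q, Sum.inr j))))

open Classical in
/-- The formula of a finite structure. -/
noncomputable def strFml {V : Type} [Finite V] (F : Str V) : L.Formula (V × (Fin n ⊕ Fin m)) :=
  (Formula.iInf fun pq : V × V => if F.E pq.1 pq.2 then
      φ.relabel (Sum.elim (fun i => (pq.1, Sum.inl i)) (fun j => (pq.2, Sum.inr j))) else ⊤) ⊓
  (Formula.iInf fun pq : V × V => if F.R pq.1 pq.2 then
      ψ.relabel (Sum.elim (fun i => (pq.1, Sum.inr i)) (fun j => (pq.2, Sum.inr j))) else ⊤)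

theorem strFml_pos (hφ : IsPos φ) (hψ : IsPos ψ) {V : Type} [Finite V] (F : Str V) :
    IsPos (strFml φ ψ F) := by
  unfold strFml
  refine IsPos.inf (IsPos.iInf fun pq => ?_) (IsPos.iInf fun pq => ?_)
  · split_ifs
    · exact IsPos.frelabel hφ _
    · exact IsPos.top
  · split_ifs
    · exact IsPos.frelabel hψ _
    · exact IsPos.top

theorem realize_strFml {V : Type} [Finite V] (F : Str V) {M : Type w} [L.Structure M]
    (z : V × (Fin n ⊕ Fin m) → M) : (strFml φ ψ F).Realize z ↔ Real φ ψ F z := by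
  unfold strFml Real
  rw [Formula.realize_inf, Formula.realize_iInf, Formula.realize_iInf]
  refine and_congr ?_ ?_
  · constructor
    · intro h p q hpq
      have h2 := h (p, q)
      simp only [hpq, if_true] at h2
      rw [Formula.realize_relabel] at h2
      convert h2 using 1
      ext x
      cases x <;> rfl
    · rintro h ⟨p, q⟩
      by_cases hpq : F.E p q
      · simp only [hpq, if_true]
        rw [Formula.realize_relabel]
        convert h p q hpq using 1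
        ext x
        cases x <;> rfl
      · simp only [hpq, if_false]
        exact BoundedFormula.realize_top.mpr trivial
  · constructor
    · intro h p q hpq
      have h2 := h (p, q)
      simp only [hpq, if_true] at h2
      rw [Formula.realize_relabel] at h2
      convert h2 using 1
      ext x
      cases x <;> rfl
    · rintro h ⟨p, q⟩
      by_cases hpq : F.R p q
      · simp only [hpq, if_true]
        rw [Formula.realize_relabel]
        convert h p q hpq using 1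
        ext x
        cases x <;> rfl
      · simp only [hpq, if_false]
        exact BoundedFormula.realize_top.mpr trivial

variable {φ ψ}

theorem Real.comp_hom {V V' : Type} {F : Str V} {G : Str V'} {f g : V → V'} (h : Hom F G f g)
    {M : Type w} [L.Structure M] {z : V' × (Fin n ⊕ Fin m) → M} (hz : Real φ ψ G z)
    {z' : V × (Fin n ⊕ Fin m) → M} (h1 : ∀ v i, z' (v, Sum.inl i) = z (f v, Sum.inl i))
    (h2 : ∀ v i, z' (v, Sum.inr i) = z (g v, Sum.inr i)) : Real φ ψ F z' := by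
  refine ⟨fun p q hpq => ?_, fun p q hpq => ?_⟩
  · have h3 := hz.1 _ _ (h.e p q hpq)
    simp only [h1, h2]
    exact h3
  · have h3 := hz.2 _ _ (h.r p q hpq)
    simp only [h2]
    exact h3

theorem Real.union {V : Type} {F G : Str V} {M : Type w} [L.Structure M]
    {z : V × (Fin n ⊕ Fin m) → M} (hF : Real φ ψ F z) (hG : Real φ ψ G z) :
    Real φ ψ (F.union G) z := by
  refine ⟨fun p q hpq => ?_, fun p q hpq => ?_⟩
  · rcases hpq with h | h
    · exact hF.1 _ _ h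
    · exact hG.1 _ _ h
  · rcases hpq with h | h
    · exact hF.2 _ _ h
    · exact hG.2 _ _ h

theorem Real.map {V V' : Type} {F : Str V} {i : V → V'} {M : Type w} [L.Structure M]
    {z : V' × (Fin n ⊕ Fin m) → M} (hF : Real φ ψ F (fun p => z (i p.1, p.2))) :
    Real φ ψ (F.map i) z := by
  refine ⟨fun p q hpq => ?_, fun p q hpq => ?_⟩
  · obtain ⟨a, b, hab, rfl, rfl⟩ := hpq
    exact hF.1 _ _ hab
  · obtain ⟨a, b, hab, rfl, rfl⟩ := hpq
    exact hF.2 _ _ hab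

end strFml

/-! ### Base structures -/

/-- The position in the binary tree of an element of a base structure. -/
def pos : (k : ℕ) → List Bool → DtV k → List Bool
  | 0, _, v => nomatch v
  | _ + 1, w, .inl _ => w ++ [true]
  | k + 1, w, .inr (.inl v) => pos k (w ++ [false]) v
  | k + 1, w, .inr (.inr v) => pos k (w ++ [true]) v

theorem pos_prefix : ∀ (k : ℕ) (w : List Bool) (v : DtV k), w <+: pos k w v
  | 0, _, v => nomatch v
  | _ + 1, _, .inl _ => List.prefix_append _ _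
  | k + 1, w, .inr (.inl v) => (List.prefix_append w [false]).trans (pos_prefix k _ v)
  | k + 1, w, .inr (.inr v) => (List.prefix_append w [true]).trans (pos_prefix k _ v)

theorem pos_E : ∀ (k : ℕ) (w : List Bool) (p q : DtV k), (Dt k).E p q → pos k w q <+: pos k w p
  | 0, _, p, _, _ => nomatch p
  | _ + 1, _, .inl _, .inl _, _ => List.prefix_refl _
  | k + 1, _, .inr (.inr v), .inl _, _ => pos_prefix k _ v
  | k + 1, _, .inr (.inl v), .inr (.inl v'), h => pos_E k _ v v' h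
  | k + 1, _, .inr (.inr v), .inr (.inr v'), h => pos_E k _ v v' h
  | _ + 1, _, .inr (.inl _), .inl _, h => h.elim
  | _ + 1, _, .inl _, .inr (.inl _), h => h.elim
  | _ + 1, _, .inl _, .inr (.inr _), h => h.elim
  | _ + 1, _, .inr (.inl _), .inr (.inr _), h => h.elim
  | _ + 1, _, .inr (.inr _), .inr (.inl _), h => h.elim

theorem pos_R : ∀ (k : ℕ) (w : List Bool) (p q : DtV k), (Dt k).R p q →
    ∃ μ, pos k w p = μ ++ [true] ∧ μ ++ [false] <+: pos k w q
  | 0, _, p, _, _ => nomatch p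
  | k + 1, w, .inl _, .inr (.inl v), _ => ⟨w, rfl, pos_prefix k _ v⟩
  | k + 1, _, .inr (.inl v), .inr (.inl v'), h => pos_R k _ v v' h
  | k + 1, _, .inr (.inr v), .inr (.inr v'), h => pos_R k _ v v' h
  | _ + 1, _, .inl _, .inl _, h => h.elim
  | _ + 1, _, .inl _, .inr (.inr _), h => h.elim
  | _ + 1, _, .inr (.inl _), .inl _, h => h.elim
  | _ + 1, _, .inr (.inr _), .inl _, h => h.elim
  | _ + 1, _, .inr (.inl _), .inr (.inr _), h => h.elim
  | _ + 1, _, .inr (.inr _), .inr (.inl _), h => h.elim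

theorem restr_length (σ : ℕ → Bool) (k : ℕ) : (restr σ k).length = k := by
  simp [restr]

theorem restr_prefix (σ : ℕ → Bool) {k l : ℕ} (h : k ≤ l) : restr σ k <+: restr σ l := by
  unfold restr
  obtain ⟨d, rfl⟩ := Nat.exists_eq_add_of_le h
  rw [List.range_add, List.map_append]
  exact List.prefix_append _ _

theorem restr_getD (ν : List Bool) : restr (fun i => ν.getD i false) ν.length = ν := by
  unfold restr
  apply List.ext_getElem
  · simp
  · intro i h1 h2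
    simp [h2]

theorem restr_of_prefix {μ ν : List Bool} (h : μ <+: ν) :
    restr (fun i => ν.getD i false) μ.length = μ := by
  have h1 : restr (fun i => ν.getD i false) μ.length <+: ν := by
    have h2 := restr_prefix (fun i => ν.getD i false) h.length_le
    rwa [restr_getD] at h2
  have h3 := List.prefix_of_prefix_length_le h1 h (by rw [restr_length])
  exact h3.eq_of_length (restr_length _ _)

theorem restr_of_prefix_restr {σ : ℕ → Bool} {k : ℕ} {μ : List Bool} (h : μ <+: restr σ k) :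
    μ = restr σ μ.length := by
  have hl := h.length_le
  rw [restr_length] at hl
  have h3 := List.prefix_of_prefix_length_le h (restr_prefix σ hl) (by rw [restr_length])
  exact h3.eq_of_length (restr_length _ _).symm

/-- The class of structures realised in `M`. -/
def KCls {n m : ℕ} (φ : L.Formula (Fin n ⊕ Fin m)) (ψ : L.Formula (Fin m ⊕ Fin m)) (M : Type w)
    [L.Structure M] : Cls :=
  fun V F => ∃ z : V × (Fin n ⊕ Fin m) → M, Real φ ψ F z

theorem KCls_base {n m : ℕ} {φ : L.Formula (Fin n ⊕ Fin m)} {ψ : L.Formula (Fin m ⊕ Fin m)}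
    {M : Type w} [L.Structure M] (a : List Bool → Fin m → M)
    (h1 : ∀ σ : ℕ → Bool, ∃ x : Fin n → M, ∀ k, φ.Realize (Sum.elim x (a (restr σ k))))
    (h2 : ∀ μ η : List Bool, μ ++ [false] <+: η → ψ.Realize (Sum.elim (a (μ ++ [true])) (a η)))
    (k : ℕ) : KCls φ ψ M (DtV k) (Dt k) := by
  choose x hx using fun ν : List Bool => h1 (fun i => ν.getD i false)
  refine ⟨fun p => Sum.elim (fun i => x (pos k [] p.1) i) (fun j => a (pos k [] p.1) j) p.2,
    fun p q hpq => ?_, fun p q hpq => ?_⟩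
  · have h3 := pos_E k [] p q hpq
    have h4 := hx (pos k [] p) (pos k [] q).length
    rw [restr_of_prefix h3] at h4
    exact h4
  · obtain ⟨μ, h3, h4⟩ := pos_R k [] p q hpq
    have h5 := h2 μ _ h4
    rw [← h3] at h5
    exact h5

/-! ### SOP2 for formulas in arbitrary finite sets of variables -/

theorem hasSOP2_of {T : Set (HInd L)} {M : Type w} [L.Structure M] {X Y : Type} [Finite X]
    [Finite Y] (φ : L.Formula (X ⊕ Y)) (ψ : L.Formula (Y ⊕ Y)) (hφ : IsPos φ) (hψ : IsPos ψ)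
    (hneg : ∀ (N : Type w) [L.Structure N], Models T N → ∀ (x : X → N) (y₁ y₂ : Y → N),
      ¬ (φ.Realize (Sum.elim x y₁) ∧ φ.Realize (Sum.elim x y₂) ∧ ψ.Realize (Sum.elim y₁ y₂)))
    (a : List Bool → Y → M)
    (h1 : ∀ σ : ℕ → Bool, ∃ x : X → M, ∀ k, φ.Realize (Sum.elim x (a (restr σ k))))
    (h2 : ∀ μ η : List Bool, ¬ μ <+: η → ¬ η <+: μ → ψ.Realize (Sum.elim (a μ) (a η))) :
    HasSOP2 T M := by
  obtain ⟨n, ⟨eX⟩⟩ := Finite.exists_equiv_fin X
  obtain ⟨m, ⟨eY⟩⟩ := Finite.exists_equiv_fin Y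
  refine ⟨n, m, φ.relabel (Sum.map eX eY), ψ.relabel (Sum.map eY eY), IsPos.frelabel hφ _,
    IsPos.frelabel hψ _, ?_, fun μ => a μ ∘ eY.symm, ?_, ?_⟩
  · intro N _ hN x y₁ y₂ h
    simp only [Formula.realize_relabel, Sum.elim_comp_map] at h
    exact hneg N hN _ _ _ h
  · intro σ
    obtain ⟨x, hx⟩ := h1 σ
    refine ⟨x ∘ eX.symm, fun k => ?_⟩
    rw [Formula.realize_relabel, Sum.elim_comp_map]
    convert hx k using 2
    · ext; simp
    · ext; simp
  · intro μ η h3 h4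
    rw [Formula.realize_relabel, Sum.elim_comp_map]
    convert h2 μ η h3 h4 using 2
    · ext; simp
    · ext; simp

theorem HasSOP2.hasSOP1 {T : Set (HInd L)} {M : Type w} [L.Structure M] (h : HasSOP2 T M) :
    HasSOP1 T M := by
  obtain ⟨n, m, φ, ψ, hφ, hψ, hneg, a, h1, h2⟩ := h
  refine ⟨n, m, φ, ψ, hφ, hψ, hneg, a, h1, fun μ η h => h2 _ _ ?_ ?_⟩
  · intro h3
    have h4 : μ ++ [false] <+: μ ++ [true] ∨ μ ++ [true] <+: μ ++ [false] :=
      List.prefix_or_prefix_of_prefix h h3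
    simp [List.prefix_append_right_inj] at h4
  · intro h3
    have h4 := h.trans h3
    simp [List.prefix_append_right_inj] at h4

/-! ### The rule -/

section rule

variable {n m : ℕ} {φ : L.Formula (Fin n ⊕ Fin m)} {ψ : L.Formula (Fin m ⊕ Fin m)}
variable {C B D W : Type}

/-- Index map for the variables of `Φ`. -/
def ixΦ (n m : ℕ) : (C ⊕ B ⊕ D) × (Fin n ⊕ Fin m) →
    (C × (Fin n ⊕ Fin m)) ⊕ ((B ⊕ D) × (Fin n ⊕ Fin m))
  | (.inl c, s) => .inl (c, s)
  | (.inr (.inl b), s) => .inr (.inl b, s)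
  | (.inr (.inr d), s) => .inr (.inr d, s)

/-- Index map for the variables of `Ψ`. -/
def ixΨ (n m : ℕ) : (B ⊕ B ⊕ D ⊕ W) × (Fin n ⊕ Fin m) →
    (((B ⊕ D) × (Fin n ⊕ Fin m)) ⊕ ((B ⊕ D) × (Fin n ⊕ Fin m))) ⊕ (W × (Fin n ⊕ Fin m))
  | (.inl b, s) => .inl (.inl (.inl b, s))
  | (.inr (.inl b), s) => .inl (.inr (.inl b, s))
  | (.inr (.inr (.inl d)), s) => .inl (.inl (.inr d, s))
  | (.inr (.inr (.inr e)), s) => .inr (e, s)

/-- The formula of the tree. -/
noncomputable def phiF (φ : L.Formula (Fin n ⊕ Fin m)) (ψ : L.Formula (Fin m ⊕ Fin m))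
    [Finite C] [Finite B] [Finite D] (Φ : Str (C ⊕ B ⊕ D)) :
    L.Formula ((C × (Fin n ⊕ Fin m)) ⊕ ((B ⊕ D) × (Fin n ⊕ Fin m))) :=
  (strFml φ ψ Φ).relabel (ixΦ n m)

/-- The existential part of the negation. -/
noncomputable def psiE (φ : L.Formula (Fin n ⊕ Fin m)) (ψ : L.Formula (Fin m ⊕ Fin m))
    [Finite B] [Finite D] [Finite W] (Ψ : Str (B ⊕ B ⊕ D ⊕ W)) :
    L.Formula (((B ⊕ D) × (Fin n ⊕ Fin m)) ⊕ ((B ⊕ D) × (Fin n ⊕ Fin m))) :=
  ((strFml φ ψ Ψ).relabel (ixΨ n m)).iExs (W × (Fin n ⊕ Fin m))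

/-- The two tuples have the same parameters. -/
noncomputable def eqF (L : FirstOrder.Language.{u, v}) (n m : ℕ) (B D : Type) [Finite D] :
    L.Formula (((B ⊕ D) × (Fin n ⊕ Fin m)) ⊕ ((B ⊕ D) × (Fin n ⊕ Fin m))) :=
  Formula.iInf fun p : D × (Fin n ⊕ Fin m) =>
    (Term.var (Sum.inl (Sum.inl (Sum.inr p.1, p.2)))).bdEqual
      (Term.var (Sum.inl (Sum.inr (Sum.inr p.1, p.2))))

/-- The negation. -/
noncomputable def psiF (φ : L.Formula (Fin n ⊕ Fin m)) (ψ : L.Formula (Fin m ⊕ Fin m))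
    [Finite B] [Finite D] [Finite W] (Ψ : Str (B ⊕ B ⊕ D ⊕ W)) :
    L.Formula (((B ⊕ D) × (Fin n ⊕ Fin m)) ⊕ ((B ⊕ D) × (Fin n ⊕ Fin m))) :=
  (psiE φ ψ Ψ ⊓ eqF L n m B D) ⊔ (psiE φ ψ Ψ ⊓ eqF L n m B D).relabel Sum.swap

variable [Finite C] [Finite B] [Finite D] [Finite W]

theorem phiF_pos (hφ : IsPos φ) (hψ : IsPos ψ) (Φ : Str (C ⊕ B ⊕ D)) : IsPos (phiF φ ψ Φ) :=
  IsPos.frelabel (strFml_pos φ ψ hφ hψ _) _

theorem psiF_pos (hφ : IsPos φ) (hψ : IsPos ψ) (Ψ : Str (B ⊕ B ⊕ D ⊕ W)) :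
    IsPos (psiF φ ψ Ψ) := by
  have h : IsPos (psiE φ ψ Ψ ⊓ eqF L n m B D) :=
    IsPos.inf (IsPos.iExs (IsPos.frelabel (strFml_pos φ ψ hφ hψ _) _))
      (IsPos.iInf fun p => IsPos.equal _ _)
  exact IsPos.sup h (IsPos.frelabel h _)

variable {M : Type w} [L.Structure M]

theorem realize_phiF (Φ : Str (C ⊕ B ⊕ D)) (x : C × (Fin n ⊕ Fin m) → M)
    (y : (B ⊕ D) × (Fin n ⊕ Fin m) → M) :
    (phiF φ ψ Φ).Realize (Sum.elim x y) ↔ Real φ ψ Φ (Sum.elim x y ∘ ixΦ n m) := by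
  unfold phiF
  rw [Formula.realize_relabel, realize_strFml]

theorem realize_psiE (Ψ : Str (B ⊕ B ⊕ D ⊕ W)) (y₁ y₂ : (B ⊕ D) × (Fin n ⊕ Fin m) → M) :
    (psiE φ ψ Ψ).Realize (Sum.elim y₁ y₂) ↔ ∃ e : W × (Fin n ⊕ Fin m) → M,
      Real φ ψ Ψ (Sum.elim (Sum.elim y₁ y₂) e ∘ ixΨ n m) := by
  unfold psiE
  rw [Formula.realize_iExs]
  simp only [Formula.realize_relabel, realize_strFml]

omit [Finite B] in
theorem realize_eqF (y₁ y₂ : (B ⊕ D) × (Fin n ⊕ Fin m) → M) :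
    (eqF L n m B D).Realize (Sum.elim y₁ y₂) ↔ ∀ d s, y₁ (Sum.inr d, s) = y₂ (Sum.inr d, s) := by
  unfold eqF
  rw [Formula.realize_iInf]
  constructor
  · intro h d s
    have h2 := h (d, s)
    rw [Formula.Realize, BoundedFormula.realize_bdEqual] at h2
    exact h2
  · rintro h ⟨d, s⟩
    rw [Formula.Realize, BoundedFormula.realize_bdEqual]
    exact h d s

theorem realize_psiF (Ψ : Str (B ⊕ B ⊕ D ⊕ W)) (y₁ y₂ : (B ⊕ D) × (Fin n ⊕ Fin m) → M) :
    (psiF φ ψ Ψ).Realize (Sum.elim y₁ y₂) ↔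
      (((psiE φ ψ Ψ).Realize (Sum.elim y₁ y₂) ∧ (∀ d s, y₁ (Sum.inr d, s) = y₂ (Sum.inr d, s))) ∨
      ((psiE φ ψ Ψ).Realize (Sum.elim y₂ y₁) ∧
        (∀ d s, y₂ (Sum.inr d, s) = y₁ (Sum.inr d, s)))) := by
  unfold psiF
  have h : Sum.elim y₁ y₂ ∘ Sum.swap = Sum.elim y₂ y₁ := by
    ext x
    cases x <;> rfl
  rw [Formula.realize_sup, Formula.realize_relabel, h, Formula.realize_inf, Formula.realize_inf,
    realize_eqF, realize_eqF]

/-- Gluing. -/
theorem real_concl (Φ : Str (C ⊕ B ⊕ D)) (Ψ : Str (B ⊕ B ⊕ D ⊕ W))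
    {x : C × (Fin n ⊕ Fin m) → M} {y₁ y₂ : (B ⊕ D) × (Fin n ⊕ Fin m) → M}
    (h1 : (phiF φ ψ Φ).Realize (Sum.elim x y₁)) (h2 : (phiF φ ψ Φ).Realize (Sum.elim x y₂))
    (h3 : (psiE φ ψ Ψ).Realize (Sum.elim y₁ y₂))
    (h4 : ∀ d s, y₁ (Sum.inr d, s) = y₂ (Sum.inr d, s)) :
    ∃ z : (C ⊕ B ⊕ B ⊕ D ⊕ W) × (Fin n ⊕ Fin m) → M, Real φ ψ (Concl Φ Ψ) z := by
  rw [realize_phiF] at h1 h2
  rw [realize_psiE] at h3
  obtain ⟨e, h3⟩ := h3
  refine ⟨fun p => match p with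
    | (.inl c, s) => x (c, s)
    | (.inr (.inl b), s) => y₁ (.inl b, s)
    | (.inr (.inr (.inl b)), s) => y₂ (.inl b, s)
    | (.inr (.inr (.inr (.inl d))), s) => y₁ (.inr d, s)
    | (.inr (.inr (.inr (.inr w))), s) => e (w, s), ?_⟩
  refine Real.union (Real.union (Real.map ?_) (Real.map ?_)) (Real.map ?_)
  · convert h1 using 1
    ext ⟨p, s⟩
    rcases p with c | b | d <;> rfl
  · convert h2 using 1
    ext ⟨p, s⟩
    rcases p with c | b | d
    · rfl
    · rfl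
    · exact h4 d s
  · convert h3 using 1
    ext ⟨p, s⟩
    rcases p with b | b | d | w <;> rfl

/-- Index map for the nodes of the tree. -/
def ixY (n m : ℕ) (B D : Type) (μ : List Bool) : (B ⊕ D) × (Fin n ⊕ Fin m) →
    (List Bool × (B × (Fin n ⊕ Fin m))) ⊕ (D × (Fin n ⊕ Fin m))
  | (.inl b, s) => .inl (μ, (b, s))
  | (.inr d, s) => .inr (d, s)

/-- `z` is a tree of depth `k`. -/
def TreeIn (φ : L.Formula (Fin n ⊕ Fin m)) (ψ : L.Formula (Fin m ⊕ Fin m)) (Φ : Str (C ⊕ B ⊕ D))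
    (Ψ : Str (B ⊕ B ⊕ D ⊕ W)) (k : ℕ)
    (z : (List Bool × (B × (Fin n ⊕ Fin m))) ⊕ (D × (Fin n ⊕ Fin m)) → M) : Prop :=
  (∀ σ : List Bool, σ.length ≤ k → ∃ x : C × (Fin n ⊕ Fin m) → M, ∀ μ, μ <+: σ →
    (phiF φ ψ Φ).Realize (Sum.elim x (z ∘ ixY n m B D μ))) ∧
  (∀ μ η : List Bool, LexInc μ η → μ.length ≤ k → η.length ≤ k →
    (psiE φ ψ Ψ).Realize (Sum.elim (z ∘ ixY n m B D μ) (z ∘ ixY n m B D η)))

theorem treeIn_of_hasTree (Φ : Str (C ⊕ B ⊕ D)) (Ψ : Str (B ⊕ B ⊕ D ⊕ W)) (k : ℕ) {V : Type}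
    {F : Str V} (hF : KCls φ ψ M V F) (h : HasTree Φ Ψ k F) :
    ∃ z : (List Bool × (B × (Fin n ⊕ Fin m))) ⊕ (D × (Fin n ⊕ Fin m)) → M,
      TreeIn φ ψ Φ Ψ k z := by
  obtain ⟨z₀, hz₀⟩ := hF
  obtain ⟨c, b, d, e, h1, h2⟩ := h
  refine ⟨Sum.elim (fun p => z₀ (b p.1 p.2.1, p.2.2)) (fun p => z₀ (d p.1, p.2)), ?_, ?_⟩
  · intro σ hσ
    refine ⟨fun p => z₀ (c σ p.1, p.2), fun μ hμ => ?_⟩
    rw [realize_phiF]
    refine Real.comp_hom (h1 μ σ hμ hσ) hz₀ ?_ ?_
    · rintro (c' | b' | d') i <;> rfl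
    · rintro (c' | b' | d') i <;> rfl
  · intro μ η hμη hμ hη
    rw [realize_psiE]
    refine ⟨fun p => z₀ (e μ η p.1, p.2), ?_⟩
    refine Real.comp_hom (h2 μ η hμη hμ hη) hz₀ ?_ ?_
    · rintro (b' | b' | d' | w') i <;> rfl
    · rintro (b' | b' | d' | w') i <;> rfl

/-- The formula saying that all prefixes of `σ` have a common realisation. -/
noncomputable def chiF (φ : L.Formula (Fin n ⊕ Fin m)) (ψ : L.Formula (Fin m ⊕ Fin m))
    (Φ : Str (C ⊕ B ⊕ D)) (σ : List Bool) :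
    L.Formula (((List Bool × (B × (Fin n ⊕ Fin m))) ⊕ (D × (Fin n ⊕ Fin m))) ⊕ Empty) :=
  Formula.iExs (C × (Fin n ⊕ Fin m)) (Formula.iInf fun k : Fin (σ.length + 1) =>
    (phiF φ ψ Φ).relabel (Sum.elim Sum.inr
      (fun p => Sum.inl (Sum.inl (ixY n m B D (σ.take k) p)))))

/-- The formula saying that the nodes at `μ`, `η` are related. -/
noncomputable def thetaF (φ : L.Formula (Fin n ⊕ Fin m)) (ψ : L.Formula (Fin m ⊕ Fin m))
    (Ψ : Str (B ⊕ B ⊕ D ⊕ W)) (μ η : List Bool) :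
    L.Formula (((List Bool × (B × (Fin n ⊕ Fin m))) ⊕ (D × (Fin n ⊕ Fin m))) ⊕ Empty) :=
  (psiE φ ψ Ψ).relabel (Sum.elim (fun p => Sum.inl (ixY n m B D μ p))
    (fun p => Sum.inl (ixY n m B D η p)))

theorem chiF_pos (hφ : IsPos φ) (hψ : IsPos ψ) (Φ : Str (C ⊕ B ⊕ D)) (σ : List Bool) :
    IsPos (chiF φ ψ Φ σ) :=
  IsPos.iExs (IsPos.iInf fun _ => IsPos.frelabel (phiF_pos hφ hψ Φ) _)

theorem thetaF_pos (hφ : IsPos φ) (hψ : IsPos ψ) (Ψ : Str (B ⊕ B ⊕ D ⊕ W)) (μ η : List Bool) :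
    IsPos (thetaF φ ψ Ψ μ η) :=
  IsPos.frelabel (IsPos.iExs (IsPos.frelabel (strFml_pos φ ψ hφ hψ _) _)) _

theorem realize_chiF (Φ : Str (C ⊕ B ⊕ D)) (σ : List Bool)
    (z : (List Bool × (B × (Fin n ⊕ Fin m))) ⊕ (D × (Fin n ⊕ Fin m)) → M) (e : Empty → M) :
    (chiF φ ψ Φ σ).Realize (Sum.elim z e) ↔ ∃ x : C × (Fin n ⊕ Fin m) → M, ∀ μ, μ <+: σ →
      (phiF φ ψ Φ).Realize (Sum.elim x (z ∘ ixY n m B D μ)) := by
  unfold chiF
  rw [Formula.realize_iExs]
  refine exists_congr fun x => ?_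
  rw [Formula.realize_iInf]
  have key : ∀ μ : List Bool, (Sum.elim (Sum.elim z e) x ∘ Sum.elim Sum.inr
      (fun p => Sum.inl (Sum.inl (ixY n m B D μ p)))) =
      Sum.elim x (z ∘ ixY n m B D μ) := by
    intro μ
    ext p
    cases p <;> rfl
  constructor
  · intro h μ hμ
    have h2 := h ⟨μ.length, Nat.lt_succ_of_le hμ.length_le⟩
    rw [Formula.realize_relabel, key, ← List.prefix_iff_eq_take.mp hμ] at h2
    exact h2
  · intro h k
    rw [Formula.realize_relabel, key]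
    exact h _ (List.take_prefix _ _)

theorem realize_thetaF (Ψ : Str (B ⊕ B ⊕ D ⊕ W)) (μ η : List Bool)
    (z : (List Bool × (B × (Fin n ⊕ Fin m))) ⊕ (D × (Fin n ⊕ Fin m)) → M) (e : Empty → M) :
    (thetaF φ ψ Ψ μ η).Realize (Sum.elim z e) ↔
      (psiE φ ψ Ψ).Realize (Sum.elim (z ∘ ixY n m B D μ) (z ∘ ixY n m B D η)) := by
  unfold thetaF
  rw [Formula.realize_relabel]
  have key : (Sum.elim z e ∘ Sum.elim (fun p => Sum.inl (ixY n m B D μ p))
      (fun p => Sum.inl (ixY n m B D η p))) =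
      Sum.elim (z ∘ ixY n m B D μ) (z ∘ ixY n m B D η) := by
    ext p
    cases p <;> rfl
  rw [key]

theorem tree_saturated (hS : CountablySaturated L M) (hφ : IsPos φ) (hψ : IsPos ψ)
    (Φ : Str (C ⊕ B ⊕ D)) (Ψ : Str (B ⊕ B ⊕ D ⊕ W))
    (h : ∀ k, ∃ z : (List Bool × (B × (Fin n ⊕ Fin m))) ⊕ (D × (Fin n ⊕ Fin m)) → M,
      TreeIn φ ψ Φ Ψ k z) :
    ∃ z : (List Bool × (B × (Fin n ⊕ Fin m))) ⊕ (D × (Fin n ⊕ Fin m)) → M,
      ∀ k, TreeIn φ ψ Φ Ψ k z := by
  let S : Set (L.Formula (((List Bool × (B × (Fin n ⊕ Fin m))) ⊕ (D × (Fin n ⊕ Fin m))) ⊕ Empty)) :=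
    {χ | (∃ σ, χ = chiF φ ψ Φ σ) ∨ (∃ μ η, LexInc μ η ∧ χ = thetaF φ ψ Ψ μ η)}
  have hpos : ∀ χ ∈ S, IsPos χ := by
    rintro χ (⟨σ, rfl⟩ | ⟨μ, η, _, rfl⟩)
    · exact chiF_pos hφ hψ Φ σ
    · exact thetaF_pos hφ hψ Ψ μ η
  have hbd : ∀ χ ∈ S, ∃ k : ℕ, ∀ k' ≥ k,
      ∀ z : (List Bool × (B × (Fin n ⊕ Fin m))) ⊕ (D × (Fin n ⊕ Fin m)) → M,
      TreeIn φ ψ Φ Ψ k' z → χ.Realize (Sum.elim z (Empty.elim : Empty → M)) := by
    rintro χ (⟨σ, rfl⟩ | ⟨μ, η, hμη, rfl⟩)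
    · refine ⟨σ.length, fun k' hk' z hz => ?_⟩
      rw [realize_chiF]
      exact hz.1 σ hk'
    · refine ⟨max μ.length η.length, fun k' hk' z hz => ?_⟩
      rw [realize_thetaF]
      exact hz.2 μ η hμη ((le_max_left _ _).trans hk') ((le_max_right _ _).trans hk')
  obtain ⟨z, hz⟩ := hS ((List Bool × (B × (Fin n ⊕ Fin m))) ⊕ (D × (Fin n ⊕ Fin m))) Empty
    Empty.elim S hpos (by
      intro S₀ hS₀ hfin
      have hb : ∃ k, ∀ χ ∈ S₀, ∀ z, TreeIn φ ψ Φ Ψ k z →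
          χ.Realize (Sum.elim z (Empty.elim : Empty → M)) := by
        choose! f hf using hbd
        obtain ⟨k, hk⟩ := (hfin.image f).bddAbove
        exact ⟨k, fun χ hχ z hz => hf χ (hS₀ hχ) k (hk ⟨χ, hχ, rfl⟩) z hz⟩
      obtain ⟨k, hk⟩ := hb
      obtain ⟨z, hz⟩ := h k
      exact ⟨z, fun χ hχ => hk χ hχ z hz⟩)
  refine ⟨z, fun k => ⟨fun σ _ => ?_, fun μ η hμη _ _ => ?_⟩⟩
  · have h2 := hz _ (Or.inl ⟨σ, rfl⟩)
    rwa [realize_chiF] at h2
  · have h2 := hz _ (Or.inr ⟨μ, η, hμη, rfl⟩)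
    rwa [realize_thetaF] at h2

theorem branch_saturated (hS : CountablySaturated L M) (hφ : IsPos φ) (hψ : IsPos ψ)
    (Φ : Str (C ⊕ B ⊕ D)) (Ψ : Str (B ⊕ B ⊕ D ⊕ W))
    {z : (List Bool × (B × (Fin n ⊕ Fin m))) ⊕ (D × (Fin n ⊕ Fin m)) → M}
    (hz : ∀ k, TreeIn φ ψ Φ Ψ k z) (σ : ℕ → Bool) :
    ∃ x : C × (Fin n ⊕ Fin m) → M, ∀ k,
      (phiF φ ψ Φ).Realize (Sum.elim x (z ∘ ixY n m B D (restr σ k))) := by
  let f : ℕ → L.Formula ((C × (Fin n ⊕ Fin m)) ⊕ (ℕ × ((B ⊕ D) × (Fin n ⊕ Fin m)))) :=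
    fun k => (phiF φ ψ Φ).relabel (Sum.map id (fun p => (k, p)))
  let a : ℕ × ((B ⊕ D) × (Fin n ⊕ Fin m)) → M := fun p => z (ixY n m B D (restr σ p.1) p.2)
  have key : ∀ (k : ℕ) (x : C × (Fin n ⊕ Fin m) → M), (f k).Realize (Sum.elim x a) ↔
      (phiF φ ψ Φ).Realize (Sum.elim x (z ∘ ixY n m B D (restr σ k))) := by
    intro k x
    rw [Formula.realize_relabel, Sum.elim_comp_map]
    rfl
  obtain ⟨x, hx⟩ := hS (C × (Fin n ⊕ Fin m)) (ℕ × ((B ⊕ D) × (Fin n ⊕ Fin m))) a (Set.range f)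
    (by
      rintro _ ⟨k, rfl⟩
      exact IsPos.frelabel (phiF_pos hφ hψ Φ) _)
    (by
      intro S₀ hS₀ hfin
      have hb : ∃ K : ℕ, ∀ χ ∈ S₀, ∃ k ≤ K, f k = χ := by
        choose! g hg using fun χ (hχ : χ ∈ S₀) => hS₀ hχ
        obtain ⟨K, hK⟩ := (hfin.image g).bddAbove
        exact ⟨K, fun χ hχ => ⟨g χ, hK ⟨χ, hχ, rfl⟩, hg χ hχ⟩⟩
      obtain ⟨K, hK⟩ := hb
      obtain ⟨x, hx⟩ := (hz K).1 (restr σ K) (by rw [restr_length])
      refine ⟨x, fun χ hχ => ?_⟩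
      obtain ⟨k, hk, rfl⟩ := hK χ hχ
      rw [key]
      exact hx _ (restr_prefix σ hk))
  refine ⟨x, fun k => ?_⟩
  rw [← key]
  exact hx _ ⟨k, rfl⟩

end rule

theorem lexInc_or {μ : List Bool} : ∀ {η : List Bool}, ¬ μ <+: η → ¬ η <+: μ →
    LexInc μ η ∨ LexInc η μ := by
  induction μ with
  | nil => intro η h1 _; exact (h1 (List.nil_prefix)).elim
  | cons a μ ih =>
    intro η h1 h2
    cases η with
    | nil => exact (h2 (List.nil_prefix)).elim
    | cons b η =>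
      rw [List.cons_prefix_cons] at h1 h2
      by_cases hab : a = b
      · subst hab
        rcases ih (fun h => h1 ⟨rfl, h⟩) (fun h => h2 ⟨rfl, h⟩) with h | h
        · exact Or.inl (LexInc.cons _ h)
        · exact Or.inr (LexInc.cons _ h)
      · cases a <;> cases b
        · exact (hab rfl).elim
        · exact Or.inl (LexInc.split _ _)
        · exact Or.inr (LexInc.split _ _)
        · exact (hab rfl).elim

/-- If there is no SOP2, the realised structures form a good class. -/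
theorem KCls_good {T : Set (HInd L)} (hJ : JCP.{u, v, w} T) {M : Type w} [L.Structure M]
    (hM : IsEC T M) (hS : CountablySaturated L M) {n m : ℕ} {φ : L.Formula (Fin n ⊕ Fin m)}
    {ψ : L.Formula (Fin m ⊕ Fin m)} (hφ : IsPos φ) (hψ : IsPos ψ) (a : List Bool → Fin m → M)
    (h1 : ∀ σ : ℕ → Bool, ∃ x : Fin n → M, ∀ k, φ.Realize (Sum.elim x (a (restr σ k))))
    (h2 : ∀ μ η : List Bool, μ ++ [false] <+: η → ψ.Realize (Sum.elim (a (μ ++ [true])) (a η)))
    (hno : ¬ HasSOP2 T M) : Good (KCls φ ψ M) where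
  mono := by
    rintro V V' _ _ F G f g hfg ⟨z, hz⟩
    exact ⟨fun p => Sum.elim (fun i => z (f p.1, Sum.inl i)) (fun j => z (g p.1, Sum.inr j)) p.2,
      Real.comp_hom hfg hz (fun _ _ => rfl) (fun _ _ => rfl)⟩
  base := KCls_base a h1 h2
  rule := by
    intro C B D W _ _ _ _ Φ Ψ htree
    by_contra hcon
    apply hno
    obtain ⟨z, hz⟩ := tree_saturated hS hφ hψ Φ Ψ (fun k => by
      obtain ⟨V, _, F, hF, hT⟩ := htree k
      exact treeIn_of_hasTree Φ Ψ k hF hT)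
    have hneg : ∀ (N : Type w) [L.Structure N], Models T N →
        ∀ (x : C × (Fin n ⊕ Fin m) → N) (y₁ y₂ : (B ⊕ D) × (Fin n ⊕ Fin m) → N),
        (phiF φ ψ Φ).Realize (Sum.elim x y₁) → (phiF φ ψ Φ).Realize (Sum.elim x y₂) →
        (psiE φ ψ Ψ).Realize (Sum.elim y₁ y₂) →
        (∀ d s, y₁ (Sum.inr d, s) = y₂ (Sum.inr d, s)) → False := by
      intro N _ hN x y₁ y₂ g1 g2 g3 g4
      obtain ⟨z', hz'⟩ := real_concl Φ Ψ g1 g2 g3 g4
      rw [← realize_strFml] at hz'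
      obtain ⟨z'', hz''⟩ := realize_transfer hJ hM hN _ (strFml_pos φ ψ hφ hψ _) z' hz'
      rw [realize_strFml] at hz''
      exact hcon ⟨z'', hz''⟩
    refine hasSOP2_of (phiF φ ψ Φ) (psiF φ ψ Ψ) (phiF_pos hφ hψ Φ) (psiF_pos hφ hψ Ψ) ?_
      (fun μ => z ∘ ixY n m B D μ) ?_ ?_
    · intro N _ hN x y₁ y₂ h
      obtain ⟨g1, g2, g3⟩ := h
      rw [realize_psiF] at g3
      rcases g3 with ⟨g3, g4⟩ | ⟨g3, g4⟩
      · exact hneg N hN x y₁ y₂ g1 g2 g3 g4
      · exact hneg N hN x y₂ y₁ g2 g1 g3 g4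
    · exact branch_saturated hS hφ hψ Φ Ψ hz
    · intro μ η g1 g2
      rw [realize_psiF]
      rcases lexInc_or g1 g2 with h | h
      · exact Or.inl ⟨(hz (max μ.length η.length)).2 μ η h (le_max_left _ _) (le_max_right _ _),
          fun _ _ => rfl⟩
      · exact Or.inr ⟨(hz (max μ.length η.length)).2 η μ h (le_max_right _ _) (le_max_left _ _),
          fun _ _ => rfl⟩

/-- The transfer theorem: the combinatorial core implies that SOP1 and SOP2 are equivalent for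
positive theories. -/
theorem transfer (core : CInf (Fin 3) F0) (T : Set (HInd L)) (hJ : JCP.{u, v, w} T) (M : Type w)
    [L.Structure M] (hM : IsEC T M) (hS : CountablySaturated L M) :
    HasSOP1 T M ↔ HasSOP2 T M := by
  refine ⟨fun h => ?_, HasSOP2.hasSOP1⟩
  by_contra hno
  obtain ⟨n, m, φ, ψ, hφ, hψ, hneg, a, h1, h2⟩ := h
  obtain ⟨z, hz⟩ := core _ (KCls_good hJ hM hS hφ hψ a h1 h2 hno)
  exact hneg M hM.1 (fun i => z (0, Sum.inl i)) (fun j => z (1, Sum.inr j))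
    (fun j => z (2, Sum.inr j)) ⟨hz.1 0 1 ⟨rfl, Or.inl rfl⟩, hz.1 0 2 ⟨rfl, Or.inr rfl⟩,
    hz.2 1 2 ⟨rfl, rfl⟩⟩

end PosSOP
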