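import Mathlib

set_option autoImplicit false
set_option linter.unusedSectionVars false

open Matrix
open scoped ComplexOrder

namespace Pool.Agent.Helper91.Spec

variable {n : Type} [Fintype n] [DecidableEq n]

/-- Unitary diagonalization of a Hermitian matrix, in plain form. -/
lemma herm_diag (M : Matrix n n ℂ) (hM : M.IsHermitian) :
    ∃ U : Matrix n n ℂ, Uᴴ * U = 1 ∧ U * Uᴴ = 1 ∧
      M = U * diagonal (fun i => (hM.eigenvalues i : ℂ)) * Uᴴ := by
  refine ⟨hM.eigenvectorUnitary, ?_, ?_, ?_⟩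
  · exact Unitary.coe_star_mul_self _
  · exact Unitary.coe_mul_star_self _
  · conv_lhs => rw [hM.spectral_theorem, Unitary.conjStarAlgAut_apply]
    rfl

lemma posDef_sqrt (g : Matrix n n ℂ) (hg : g.PosDef) :
    ∃ B : Matrix n n ℂ, IsUnit B ∧ Bᴴ * B = g := by
  obtain ⟨U, hU1, hU2, hU⟩ := herm_diag g hg.isHermitian
  set l := hg.isHermitian.eigenvalues with hl
  have hpos : ∀ i, 0 < l i := fun i => hg.eigenvalues_pos i
  refine ⟨diagonal (fun i => ((Real.sqrt (l i) : ℝ) : ℂ)) * Uᴴ, ?_, ?_⟩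
  · apply IsUnit.mul
    · rw [Matrix.isUnit_iff_isUnit_det, det_diagonal, isUnit_iff_ne_zero]
      rw [Finset.prod_ne_zero_iff]
      intro i _
      have := Real.sqrt_pos.mpr (hpos i)
      exact_mod_cast this.ne'
    · rw [Matrix.isUnit_iff_isUnit_det]
      have : (Uᴴ).det * U.det = 1 := by rw [← det_mul, hU1, det_one]
      exact IsUnit.of_mul_eq_one _ this
  · rw [conjTranspose_mul, conjTranspose_conjTranspose, diagonal_conjTranspose]
    conv_rhs => rw [hU]
    rw [Matrix.mul_assoc, ← Matrix.mul_assoc (diagonal _) (diagonal _), diagonal_mul_diagonal,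
      ← Matrix.mul_assoc]
    congr 3
    funext i
    have h1 : Real.sqrt (l i) * Real.sqrt (l i) = l i := Real.mul_self_sqrt (hpos i).le
    simp only [Pi.star_apply, RCLike.star_def, Complex.conj_ofReal]
    rw [← Complex.ofReal_mul, h1]

/-- Simultaneous diagonalization by congruence. -/
lemma simul_diag (g Y : Matrix n n ℂ) (hg : g.PosDef) (hY : Y.IsHermitian) :
    ∃ (C : Matrix n n ℂ) (μ : n → ℝ), IsUnit C ∧ Cᴴ * C = g ∧
      Cᴴ * diagonal (fun i => (μ i : ℂ)) * C = Y := by
  obtain ⟨B, hB, hBg⟩ := posDef_sqrt g hg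
  have hBdet : IsUnit B.det := (Matrix.isUnit_iff_isUnit_det B).mp hB
  have hBB : B⁻¹ * B = 1 := nonsing_inv_mul B hBdet
  have hN : ((B⁻¹)ᴴ * Y * B⁻¹).IsHermitian := by
    unfold IsHermitian
    rw [conjTranspose_mul, conjTranspose_mul, conjTranspose_conjTranspose, hY.eq,
      Matrix.mul_assoc]
  obtain ⟨U, hU1, hU2, hU⟩ := herm_diag _ hN
  refine ⟨Uᴴ * B, hN.eigenvalues, ?_, ?_, ?_⟩
  · apply IsUnit.mul _ hB
    rw [Matrix.isUnit_iff_isUnit_det]
    have : (Uᴴ).det * U.det = 1 := by rw [← det_mul, hU1, det_one]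
    exact IsUnit.of_mul_eq_one _ this
  · rw [conjTranspose_mul, conjTranspose_conjTranspose, Matrix.mul_assoc,
      ← Matrix.mul_assoc U, hU2, Matrix.one_mul, hBg]
  · rw [conjTranspose_mul, conjTranspose_conjTranspose]
    have e : Bᴴ * U * diagonal (fun i => (hN.eigenvalues i : ℂ)) * (Uᴴ * B)
        = Bᴴ * (U * diagonal (fun i => (hN.eigenvalues i : ℂ)) * Uᴴ) * B := by
      simp only [Matrix.mul_assoc]
    rw [e, ← hU]
    have e2 : Bᴴ * ((B⁻¹)ᴴ * Y * B⁻¹) * B = (Bᴴ * (B⁻¹)ᴴ) * Y * (B⁻¹ * B) := by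
      simp only [Matrix.mul_assoc]
    rw [e2, hBB, ← conjTranspose_mul, hBB, conjTranspose_one, Matrix.one_mul, Matrix.mul_one]


/-- Squared Euclidean norm of a vector. -/
noncomputable def nsq (x : n → ℂ) : ℝ := ∑ i, ‖x i‖ ^ 2

/-- The quadratic form `x ↦ x* M x`. -/
noncomputable def qf (M : Matrix n n ℂ) (x : n → ℂ) : ℂ := star x ⬝ᵥ (M *ᵥ x)

lemma nsq_nonneg (x : n → ℂ) : 0 ≤ nsq x := Finset.sum_nonneg (fun _ _ => by positivity)

lemma nsq_pos {x : n → ℂ} (hx : x ≠ 0) : 0 < nsq x := by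
  obtain ⟨i, hi⟩ := Function.ne_iff.mp hx
  exact Finset.sum_pos' (fun _ _ => by positivity)
    ⟨i, Finset.mem_univ i, by have : 0 < ‖x i‖ := norm_pos_iff.mpr hi
                              positivity⟩

lemma star_dot_self (x : n → ℂ) : star x ⬝ᵥ x = (nsq x : ℂ) := by
  unfold nsq dotProduct
  push_cast
  refine Finset.sum_congr rfl (fun i _ => ?_)
  simp only [Pi.star_apply, RCLike.star_def]
  rw [← Complex.normSq_eq_conj_mul_self, Complex.normSq_eq_norm_sq]
  push_cast
  rfl

open scoped Matrix.Norms.L2Operator in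
lemma form_bound (S : Matrix n n ℂ) (a b : n → ℂ) :
    ‖star b ⬝ᵥ (S *ᵥ a)‖ ≤ ‖S‖ * ((nsq a + nsq b) / 2) := by
  have h1 : star b ⬝ᵥ (S *ᵥ a)
      = inner ℂ (WithLp.toLp 2 b : EuclideanSpace ℂ n) (WithLp.toLp 2 (S *ᵥ a)) := by
    rw [EuclideanSpace.inner_eq_star_dotProduct, dotProduct_comm]
  have hna : ‖(WithLp.toLp 2 a : EuclideanSpace ℂ n)‖ ^ 2 = nsq a := by
    rw [EuclideanSpace.norm_sq_eq]; rfl
  have hnb : ‖(WithLp.toLp 2 b : EuclideanSpace ℂ n)‖ ^ 2 = nsq b := by
    rw [EuclideanSpace.norm_sq_eq]; rfl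
  have h2 := S.l2_opNorm_mulVec (WithLp.toLp 2 a)
  rw [h1]
  refine (norm_inner_le_norm _ _).trans ?_
  have hS : 0 ≤ ‖S‖ := norm_nonneg _
  set A := ‖(WithLp.toLp 2 a : EuclideanSpace ℂ n)‖ with hA
  set B := ‖(WithLp.toLp 2 b : EuclideanSpace ℂ n)‖ with hB
  have hA0 : 0 ≤ A := norm_nonneg _
  have hB0 : 0 ≤ B := norm_nonneg _
  calc B * ‖(WithLp.toLp 2 (S *ᵥ a) : EuclideanSpace ℂ n)‖ ≤ B * (‖S‖ * A) :=
        mul_le_mul_of_nonneg_left h2 hB0
    _ = ‖S‖ * (A * B) := by ring
    _ ≤ ‖S‖ * ((nsq a + nsq b) / 2) := by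
        apply mul_le_mul_of_nonneg_left _ hS
        rw [← hna, ← hnb]
        nlinarith [sq_nonneg (A - B)]


lemma nsq_add_sub (u v : n → ℂ) :
    nsq (v + Complex.I • u) + nsq (v - Complex.I • u) = 2 * (nsq u + nsq v) := by
  unfold nsq
  rw [← Finset.sum_add_distrib, ← Finset.sum_add_distrib, Finset.mul_sum]
  refine Finset.sum_congr rfl (fun i _ => ?_)
  simp only [Pi.add_apply, Pi.sub_apply, Pi.smul_apply, smul_eq_mul]
  have h := parallelogram_law_with_norm ℝ (v i) (Complex.I * u i)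
  have h2 : ‖Complex.I * u i‖ = ‖u i‖ := by rw [norm_mul, Complex.norm_I, one_mul]
  rw [h2] at h
  nlinarith [h]

/-- Expansion used for the contraction inequality. -/
lemma form_expand (S : Matrix n n ℂ) (u v : n → ℂ) :
    star (v - Complex.I • u) ⬝ᵥ (S *ᵥ (v + Complex.I • u)) =
      qf S v - qf S u + Complex.I * (star v ⬝ᵥ (S *ᵥ u) + star u ⬝ᵥ (S *ᵥ v)) := by
  unfold qf
  rw [star_sub, star_smul, mulVec_add, mulVec_smul, sub_dotProduct, dotProduct_add,
    dotProduct_add, smul_dotProduct, smul_dotProduct, dotProduct_smul, dotProduct_smul]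
  simp only [RCLike.star_def, Complex.conj_I, smul_eq_mul]
  linear_combination (star u ⬝ᵥ (S *ᵥ u)) * Complex.I_mul_I

lemma star_form (S : Matrix n n ℂ) (u v : n → ℂ) :
    star (star v ⬝ᵥ (S *ᵥ u)) = star u ⬝ᵥ (Sᴴ *ᵥ v) := by
  rw [star_dotProduct, star_mulVec, ← dotProduct_mulVec, star_star]

open scoped Matrix.Norms.L2Operator in
/-- For a strict contraction `S = X + iY` the forms `1 - X`, `Y`, `1 + X` are controlled by a
common basis. -/
lemma contraction_coords (S : Matrix n n ℂ) (hS : ‖S‖ < 1) :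
    ∃ (C : Matrix n n ℂ) (μ : n → ℝ), IsUnit C ∧
      (∀ x, nsq x - (qf S x).re = ∑ j, ‖(C *ᵥ x) j‖ ^ 2) ∧
      (∀ x, (qf S x).im = ∑ j, μ j * ‖(C *ᵥ x) j‖ ^ 2) ∧
      (∀ x, ∑ j, μ j ^ 2 * ‖(C *ᵥ x) j‖ ^ 2 ≤ nsq x + (qf S x).re) := by
  set X : Matrix n n ℂ := (1 / 2 : ℂ) • (S + Sᴴ) with hX
  set Y : Matrix n n ℂ := (-Complex.I / 2) • (S - Sᴴ) with hY
  have hXh : X.IsHermitian := by
    unfold IsHermitian
    rw [hX, conjTranspose_smul, conjTranspose_add, conjTranspose_conjTranspose, add_comm]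
    congr 1
    simp
  have hYh : Y.IsHermitian := by
    unfold IsHermitian
    rw [hY, conjTranspose_smul, conjTranspose_sub, conjTranspose_conjTranspose]
    rw [← neg_sub S Sᴴ, smul_neg, ← neg_smul]
    congr 1
    simp
    ring
  have hqS : ∀ x, star (qf S x) = qf Sᴴ x := fun x => star_form S x x
  have hqX : ∀ x, qf X x = ((qf S x).re : ℂ) := by
    intro x
    have e : qf X x = (1 / 2 : ℂ) * (qf S x + star (qf S x)) := by
      rw [hqS]
      unfold qf
      rw [hX, smul_mulVec, add_mulVec, dotProduct_smul, dotProduct_add, smul_eq_mul]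
    rw [e, RCLike.star_def, Complex.add_conj]
    push_cast
    ring
  have hqY : ∀ x, qf Y x = ((qf S x).im : ℂ) := by
    intro x
    have e : qf Y x = (-Complex.I / 2) * (qf S x - star (qf S x)) := by
      rw [hqS]
      unfold qf
      rw [hY, smul_mulVec, sub_mulVec, dotProduct_smul, dotProduct_sub, smul_eq_mul]
    rw [e, RCLike.star_def, Complex.sub_conj]
    push_cast
    linear_combination (-((qf S x).im : ℂ)) * Complex.I_mul_I
  have hq1 : ∀ x, qf (1 - X) x = ((nsq x - (qf S x).re : ℝ) : ℂ) := by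
    intro x
    have e : qf (1 - X) x = star x ⬝ᵥ x - qf X x := by
      unfold qf
      rw [sub_mulVec, one_mulVec, dotProduct_sub]
    rw [e, star_dot_self, hqX]
    push_cast
    ring
  have hre : ∀ x, |(qf S x).re| ≤ ‖S‖ * nsq x := by
    intro x
    refine (Complex.abs_re_le_norm _).trans ?_
    have := form_bound S x x
    unfold qf
    linarith
  have hgpos : (1 - X).PosDef := by
    apply PosDef.of_dotProduct_mulVec_pos
    · exact isHermitian_one.sub hXh
    · intro x hx
      have h1 : star x ⬝ᵥ ((1 - X) *ᵥ x) = ((nsq x - (qf S x).re : ℝ) : ℂ) := hq1 x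
      rw [h1]
      have hn := nsq_pos hx
      have h2 := hre x
      have h3 : (qf S x).re ≤ ‖S‖ * nsq x := (le_abs_self _).trans h2
      have h4 : 0 < nsq x - (qf S x).re := by nlinarith
      exact_mod_cast h4
  obtain ⟨C, μ, hC, hCg, hCY⟩ := simul_diag (1 - X) Y hgpos hYh
  have hdiag : ∀ x, qf (1 - X) x = ((∑ j, ‖(C *ᵥ x) j‖ ^ 2 : ℝ) : ℂ) := by
    intro x
    unfold qf
    rw [← hCg, ← mulVec_mulVec, dotProduct_mulVec, ← star_mulVec, star_dot_self]
    rfl
  have hform : ∀ u v, star u ⬝ᵥ (Y *ᵥ v) = ∑ j, (μ j : ℂ) * (star ((C *ᵥ u) j) * (C *ᵥ v) j) := by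
    intro u v
    rw [← hCY, Matrix.mul_assoc, ← mulVec_mulVec, dotProduct_mulVec, ← star_mulVec,
      ← mulVec_mulVec]
    unfold dotProduct
    refine Finset.sum_congr rfl (fun j _ => ?_)
    rw [mulVec_diagonal]
    simp only [Pi.star_apply]
    ring
  have hsq : ∀ z : ℂ, star z * z = ((‖z‖ ^ 2 : ℝ) : ℂ) := by
    intro z
    rw [RCLike.star_def, ← Complex.normSq_eq_conj_mul_self, Complex.normSq_eq_norm_sq]
  refine ⟨C, μ, hC, ?_, ?_, ?_⟩
  · intro x
    have h := (hq1 x).symm.trans (hdiag x)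
    exact_mod_cast h
  · intro x
    have h := (hqY x).symm.trans (hform x x)
    have h2 : ((qf S x).im : ℂ) = ((∑ j, μ j * ‖(C *ᵥ x) j‖ ^ 2 : ℝ) : ℂ) := by
      rw [h]
      push_cast
      refine Finset.sum_congr rfl (fun j _ => ?_)
      rw [hsq]
      push_cast
      ring
    exact_mod_cast h2
  · intro v
    -- choose `u` with `C u = μ C v`
    have hCdet : IsUnit C.det := (Matrix.isUnit_iff_isUnit_det C).mp hC
    set u : n → ℂ := C⁻¹ *ᵥ (fun j => (μ j : ℂ) * (C *ᵥ v) j) with hu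
    have hCu : C *ᵥ u = fun j => (μ j : ℂ) * (C *ᵥ v) j := by
      rw [hu, mulVec_mulVec, mul_nonsing_inv C hCdet, one_mulVec]
    have hY2 : star u ⬝ᵥ (Y *ᵥ v) = ((∑ j, μ j ^ 2 * ‖(C *ᵥ v) j‖ ^ 2 : ℝ) : ℂ) := by
      rw [hform, hCu]
      push_cast
      refine Finset.sum_congr rfl (fun j _ => ?_)
      have := hsq ((C *ᵥ v) j)
      simp only [star_mul, RCLike.star_def, Complex.conj_ofReal]
      rw [RCLike.star_def] at this
      push_cast at this
      linear_combination ((μ j : ℂ) ^ 2) * this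
    have hg2 : nsq u - (qf S u).re = ∑ j, μ j ^ 2 * ‖(C *ᵥ v) j‖ ^ 2 := by
      have h := (hq1 u).symm.trans (hdiag u)
      have h' : nsq u - (qf S u).re = ∑ j, ‖(C *ᵥ u) j‖ ^ 2 := by exact_mod_cast h
      rw [h', hCu]
      refine Finset.sum_congr rfl (fun j _ => ?_)
      rw [norm_mul, mul_pow, Complex.norm_real, Real.norm_eq_abs, sq_abs]
    -- the contraction inequality
    have hb := form_bound S (v + Complex.I • u) (v - Complex.I • u)
    rw [form_expand, nsq_add_sub] at hb
    have hre2 : (Complex.I * (star v ⬝ᵥ (S *ᵥ u) + star u ⬝ᵥ (S *ᵥ v))).re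
        = -2 * (star u ⬝ᵥ (Y *ᵥ v)).re := by
      have e1 : star u ⬝ᵥ (Y *ᵥ v)
          = (-Complex.I / 2) * (star u ⬝ᵥ (S *ᵥ v) - star (star v ⬝ᵥ (S *ᵥ u))) := by
        rw [star_form, hY, smul_mulVec, sub_mulVec, dotProduct_smul, dotProduct_sub, smul_eq_mul]
      rw [e1]
      generalize star u ⬝ᵥ (S *ᵥ v) = p
      generalize star v ⬝ᵥ (S *ᵥ u) = q
      simp [Complex.mul_re]
      ring
    have h5 := (abs_le.mp (Complex.abs_re_le_norm (qf S v - qf S u +
      Complex.I * (star v ⬝ᵥ (S *ᵥ u) + star u ⬝ᵥ (S *ᵥ v))))).1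
    rw [Complex.add_re, Complex.sub_re, hre2, hY2, Complex.ofReal_re] at h5
    have h6 : ‖S‖ * (2 * (nsq u + nsq v) / 2) ≤ nsq u + nsq v := by
      have := nsq_nonneg u
      have := nsq_nonneg v
      nlinarith
    linarith


open scoped Matrix.Norms.L2Operator in
/-- Given `‖S‖ < ρ` and `ω` with `‖ω‖ = ρ` there are points `z j` on the circle of radius `ρ` such
that every affine function which is nonnegative at `ω` satisfies a lower bound. (In other words `S`
has a normal dilation with spectrum `{z j} ∪ {ω}`.) -/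
lemma dilation_points (S : Matrix n n ℂ) (ρ : ℝ) (hρ : 0 < ρ) (hS : ‖S‖ < ρ) (ω : ℂ)
    (hω : ‖ω‖ = ρ) :
    ∃ (C : Matrix n n ℂ) (z : n → ℂ) (W : n → ℝ), IsUnit C ∧ (∀ j, ‖z j‖ = ρ) ∧
      (∀ j, 0 < W j) ∧
      ∀ (c : ℝ) (w : ℂ), (star w * ω).re ≤ c → ∀ x,
        ∑ j, W j * ‖(C *ᵥ x) j‖ ^ 2 * (c - (star w * z j).re) ≤
          c * nsq x - (star w * qf S x).re := by
  have hω0 : ω ≠ 0 := by
    intro h
    rw [h, norm_zero] at hω
    linarith
  have hS' : ‖ω⁻¹ • S‖ < 1 := by
    rw [norm_smul, norm_inv, hω]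
    rw [inv_mul_lt_iff₀ hρ, mul_one]
    exact hS
  obtain ⟨C, μ, hC, h1, h2, h3⟩ := contraction_coords (ω⁻¹ • S) hS'
  have hpos : ∀ j, (0 : ℝ) < μ j ^ 2 + 1 := fun j => by positivity
  have hposC : ∀ j, ((μ j : ℂ) ^ 2 + 1) ≠ 0 := by
    intro j
    have := (hpos j).ne'
    exact_mod_cast this
  let ζ : n → ℂ := fun j => ⟨(μ j ^ 2 - 1) / (μ j ^ 2 + 1), 2 * μ j / (μ j ^ 2 + 1)⟩
  have hζ : ∀ j, ‖ζ j‖ = 1 := by
    intro j
    have hsq : ‖ζ j‖ ^ 2 = 1 := by
      rw [← Complex.normSq_eq_norm_sq, Complex.normSq_apply]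
      simp only [ζ]
      have := (hpos j).ne'
      field_simp
      ring
    have h0 : 0 ≤ ‖ζ j‖ := norm_nonneg _
    nlinarith
  refine ⟨C, fun j => ω * ζ j, fun j => (μ j ^ 2 + 1) / 2, hC, ?_, ?_, ?_⟩
  · intro j
    rw [norm_mul, hω, hζ, mul_one]
  · intro j
    have := hpos j
    positivity
  · intro c w hc x
    set t : ℂ := star w * ω with ht
    have hq : star w * qf S x = t * qf (ω⁻¹ • S) x := by
      unfold qf
      rw [smul_mulVec, dotProduct_smul, smul_eq_mul, ht]
      field_simp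
    have hz : ∀ j, star w * (ω * ζ j) = t * ζ j := fun j => by rw [ht]; ring
    rw [hq]
    have hx1 := h1 x
    have hx2 := h2 x
    have hx3 := h3 x
    set q := qf (ω⁻¹ • S) x with hqdef
    have hre : (t * q).re = t.re * q.re - t.im * q.im := Complex.mul_re _ _
    have hterm : ∀ j, (μ j ^ 2 + 1) / 2 * ‖(C *ᵥ x) j‖ ^ 2 * (c - (star w * (ω * ζ j)).re)
        = (c + t.re) / 2 * ‖(C *ᵥ x) j‖ ^ 2 + (c - t.re) / 2 * (μ j ^ 2 * ‖(C *ᵥ x) j‖ ^ 2)
          + t.im * (μ j * ‖(C *ᵥ x) j‖ ^ 2) := by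
      intro j
      rw [hz, Complex.mul_re]
      simp only [ζ]
      have := (hpos j).ne'
      field_simp
      ring
    rw [Finset.sum_congr rfl (fun j _ => hterm j), Finset.sum_add_distrib, Finset.sum_add_distrib,
      ← Finset.mul_sum, ← Finset.mul_sum, ← Finset.mul_sum, ← hx1, ← hx2, hre]
    have h4 : 0 ≤ (c - t.re) / 2 := by linarith
    have h5 := mul_le_mul_of_nonneg_left hx3 h4
    nlinarith [h5]

/-- Dimension bound for one half plane. -/
lemma cap_bound {ι : Type} [Fintype ι] (C : Matrix n n ℂ) (hC : IsUnit C) (z : n → ℂ) (W : n → ℝ)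
    (hW : ∀ j, 0 < W j) (c : ℝ) (w : ℂ) (L : (ι → ℂ) →ₗ[ℂ] (n → ℂ)) (hL : Function.Injective L)
    (h : ∀ x, ∑ j, W j * ‖(C *ᵥ (L x)) j‖ ^ 2 * (c - (star w * z j).re) ≤ 0) :
    Fintype.card ι ≤ (Finset.univ.filter (fun j => c ≤ (star w * z j).re)).card := by
  classical
  set J := Finset.univ.filter (fun j => c ≤ (star w * z j).re) with hJ
  let Φ : (ι → ℂ) →ₗ[ℂ] (J → ℂ) :=
    { toFun := fun x j => (C *ᵥ (L x)) j.1
      map_add' := by
        intro x y
        funext j
        simp [mulVec_add]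
      map_smul' := by
        intro r x
        funext j
        simp [mulVec_smul] }
  have hΦ : Function.Injective Φ := by
    rw [← LinearMap.ker_eq_bot, LinearMap.ker_eq_bot']
    intro x hx
    have hx' : ∀ j ∈ J, (C *ᵥ (L x)) j = 0 := by
      intro j hj
      have := congrFun hx ⟨j, hj⟩
      exact this
    have hnn : ∀ j ∈ (Finset.univ : Finset n),
        0 ≤ W j * ‖(C *ᵥ (L x)) j‖ ^ 2 * (c - (star w * z j).re) := by
      intro j _
      by_cases hj : j ∈ J
      · rw [hx' j hj]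
        simp
      · have hlt : (star w * z j).re < c := by
          by_contra hcon
          push Not at hcon
          exact hj (Finset.mem_filter.mpr ⟨Finset.mem_univ j, hcon⟩)
        have h1 := hW j
        have h2 : 0 ≤ c - (star w * z j).re := by linarith
        positivity
    have hsum : ∑ j, W j * ‖(C *ᵥ (L x)) j‖ ^ 2 * (c - (star w * z j).re) = 0 :=
      le_antisymm (h x) (Finset.sum_nonneg hnn)
    have hzero := (Finset.sum_eq_zero_iff_of_nonneg hnn).mp hsum
    have hall : C *ᵥ (L x) = 0 := by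
      funext j
      by_cases hj : j ∈ J
      · exact hx' j hj
      · have hlt : (star w * z j).re < c := by
          by_contra hcon
          push Not at hcon
          exact hj (Finset.mem_filter.mpr ⟨Finset.mem_univ j, hcon⟩)
        have h1 := hzero j (Finset.mem_univ j)
        have h2 : c - (star w * z j).re ≠ 0 := by linarith
        have h3 : W j ≠ 0 := (hW j).ne'
        have h4 : ‖(C *ᵥ (L x)) j‖ ^ 2 = 0 := by
          rcases mul_eq_zero.mp h1 with h5 | h5
          · rcases mul_eq_zero.mp h5 with h6 | h6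
            · exact absurd h6 h3
            · exact h6
          · exact absurd h5 h2
        have h5 : ‖(C *ᵥ (L x)) j‖ = 0 := by
          exact pow_eq_zero_iff (two_ne_zero) |>.mp h4
        simpa using h5
    have hCdet : IsUnit C.det := (Matrix.isUnit_iff_isUnit_det C).mp hC
    have hLx : L x = 0 := by
      have : C⁻¹ *ᵥ (C *ᵥ (L x)) = 0 := by rw [hall, mulVec_zero]
      rwa [mulVec_mulVec, nonsing_inv_mul C hCdet, one_mulVec] at this
    exact hL (by rw [hLx, map_zero])
  have := LinearMap.finrank_le_finrank_of_injective hΦ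
  rw [Module.finrank_fintype_fun_eq_card, Module.finrank_fintype_fun_eq_card] at this
  rwa [Fintype.card_coe] at this


/-- Coordinates on a spectral subspace of a Hermitian matrix. -/
lemma exists_spectral_map (H : Matrix n n ℂ) (hH : H.IsHermitian) (I : Finset n) :
    ∃ L : (I → ℂ) →ₗ[ℂ] (n → ℂ), Function.Injective L ∧
      (∀ x, nsq (L x) = ∑ i, ‖x i‖ ^ 2) ∧
      (∀ x, qf H (L x) = ((∑ i : I, hH.eigenvalues i * ‖x i‖ ^ 2 : ℝ) : ℂ)) := by
  classical
  obtain ⟨U, hU1, hU2, hU⟩ := herm_diag H hH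
  let E : (I → ℂ) →ₗ[ℂ] (n → ℂ) :=
    { toFun := fun x i => if h : i ∈ I then x ⟨i, h⟩ else 0
      map_add' := by
        intro x y
        funext i
        by_cases h : i ∈ I <;> simp [h]
      map_smul' := by
        intro r x
        funext i
        by_cases h : i ∈ I <;> simp [h] }
  have hE : ∀ x (i : I), E x i = x i := by
    intro x i
    simp [E]
  have hE0 : ∀ x i, i ∉ I → E x i = 0 := by
    intro x i hi
    simp [E, hi]
  have hsum : ∀ (f : n → ℝ) x, ∑ i, f i * ‖E x i‖ ^ 2 = ∑ i : I, f i * ‖x i‖ ^ 2 := by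
    intro f x
    rw [← Finset.sum_subset (Finset.subset_univ I)]
    · rw [← Finset.sum_coe_sort]
      exact Finset.sum_congr rfl (fun i _ => by rw [hE])
    · intro i _ hi
      rw [hE0 x i hi]
      simp
  have hUinv : ∀ y, Uᴴ *ᵥ (U *ᵥ y) = y := by
    intro y
    rw [mulVec_mulVec, hU1, one_mulVec]
  have hnsq : ∀ y, nsq (U *ᵥ y) = nsq y := by
    intro y
    have h : ((nsq (U *ᵥ y) : ℝ) : ℂ) = ((nsq y : ℝ) : ℂ) := by
      rw [← star_dot_self, ← star_dot_self, star_mulVec, ← dotProduct_mulVec, hUinv]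
    exact_mod_cast h
  refine ⟨(Matrix.toLin' U).comp E, ?_, ?_, ?_⟩
  · intro x y hxy
    have h1 : U *ᵥ (E x) = U *ᵥ (E y) := by simpa using hxy
    have h2 : E x = E y := by
      rw [← hUinv (E x), h1, hUinv]
    funext i
    rw [← hE x i, ← hE y i, h2]
  · intro x
    simp only [LinearMap.comp_apply, Matrix.toLin'_apply]
    rw [hnsq]
    have := hsum (fun _ => 1) x
    simpa [nsq] using this
  · intro x
    simp only [LinearMap.comp_apply, Matrix.toLin'_apply]
    rw [← hsum]
    unfold qf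
    conv_lhs => rw [hU]
    rw [Matrix.mul_assoc, ← mulVec_mulVec, ← mulVec_mulVec, hUinv, star_mulVec,
      ← dotProduct_mulVec, hUinv]
    unfold dotProduct
    push_cast
    refine Finset.sum_congr rfl (fun i _ => ?_)
    rw [mulVec_diagonal]
    simp only [Pi.star_apply, RCLike.star_def]
    have := Complex.normSq_eq_conj_mul_self (z := E x i)
    rw [Complex.normSq_eq_norm_sq] at this
    push_cast at this
    rw [this]
    ring

/-- Ellipse points: the points `u h - v k` of the circle of radius `ρ`. -/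
def OnEll (c ρ h k : ℝ) : Prop := h ^ 2 + k ^ 2 - 2 * c * h * k = ρ ^ 2

open scoped Matrix.Norms.L2Operator in
/-- **Four caps inequality.** -/
lemma four_caps (H K : Matrix n n ℂ) (hH : H.IsHermitian) (hK : K.IsHermitian) (u v : ℂ)
    (hu : ‖u‖ = 1) (hv : ‖v‖ = 1) (hD : (star v * u).im ≠ 0) (ρ : ℝ) (hρ : 0 < ρ)
    (hS : ‖u • H - v • K‖ < ρ) (a1 a2 b1 b2 : ℝ)
    (hω : ∃ h k, OnEll (star u * v).re ρ h k ∧ a2 ≤ h ∧ h ≤ a1 ∧ b2 ≤ k ∧ k ≤ b1)
    (d1 : ∀ h k, OnEll (star u * v).re ρ h k → ¬ (a1 ≤ h ∧ b1 ≤ k))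
    (d2 : ∀ h k, OnEll (star u * v).re ρ h k → ¬ (a1 ≤ h ∧ k ≤ b2))
    (d3 : ∀ h k, OnEll (star u * v).re ρ h k → ¬ (h ≤ a2 ∧ b1 ≤ k))
    (d4 : ∀ h k, OnEll (star u * v).re ρ h k → ¬ (h ≤ a2 ∧ k ≤ b2))
    (d5 : a2 < a1) (d6 : b2 < b1) :
    (Finset.univ.filter (fun i => a1 ≤ hH.eigenvalues i)).card
      + (Finset.univ.filter (fun i => hH.eigenvalues i ≤ a2)).card
      + (Finset.univ.filter (fun i => b1 ≤ hK.eigenvalues i)).card
      + (Finset.univ.filter (fun i => hK.eigenvalues i ≤ b2)).card ≤ Fintype.card n := by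
  classical
  set c := (star u * v).re with hc
  set D := (star v * u).im with hDdef
  have huu : star u * u = 1 := by
    rw [RCLike.star_def, ← Complex.normSq_eq_conj_mul_self, Complex.normSq_eq_norm_sq, hu]
    simp
  have hvv : star v * v = 1 := by
    rw [RCLike.star_def, ← Complex.normSq_eq_conj_mul_self, Complex.normSq_eq_norm_sq, hv]
    simp
  have huv : (star u * v).im = - D := by
    rw [hDdef]
    simp only [RCLike.star_def, Complex.mul_im, Complex.conj_re, Complex.conj_im]
    ring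
  -- the circle and the ellipse
  have hnorm : ∀ h k : ℝ, ‖u * (h : ℂ) - v * (k : ℂ)‖ ^ 2 = h ^ 2 + k ^ 2 - 2 * c * h * k := by
    intro h k
    have h1 : u.re * u.re + u.im * u.im = 1 := by
      have := congrArg Complex.re huu
      simpa [Complex.mul_re] using this
    have h2 : v.re * v.re + v.im * v.im = 1 := by
      have := congrArg Complex.re hvv
      simpa [Complex.mul_re] using this
    have h3 : c = u.re * v.re + u.im * v.im := by
      rw [hc]
      simp [Complex.mul_re]
    rw [← Complex.normSq_eq_norm_sq, Complex.normSq_apply, h3]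
    simp only [Complex.sub_re, Complex.mul_re, Complex.ofReal_re, Complex.ofReal_im, mul_zero,
      sub_zero, Complex.sub_im, Complex.mul_im, zero_add]
    linear_combination (h ^ 2) * h1 + (k ^ 2) * h2
  obtain ⟨h0, k0, hell0, ha2, ha1, hb2, hb1⟩ := hω
  set ω : ℂ := u * (h0 : ℂ) - v * (k0 : ℂ) with hωdef
  have hωn : ‖ω‖ = ρ := by
    have h1 : ‖ω‖ ^ 2 = ρ ^ 2 := by
      rw [hωdef, hnorm]
      exact hell0
    have h2 : 0 ≤ ‖ω‖ := norm_nonneg _
    nlinarith [sq_nonneg (‖ω‖ - ρ), sq_nonneg (‖ω‖ + ρ)]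
  obtain ⟨C, z, W, hC, hz, hW, hmain⟩ := dilation_points (u • H - v • K) ρ hρ hS ω hωn
  -- weights of the coordinate functionals
  set wh : ℂ := Complex.I * v / (D : ℂ) with hwh
  set wk : ℂ := Complex.I * u / (D : ℂ) with hwk
  have hDC : (D : ℂ) ≠ 0 := by exact_mod_cast hD
  have hcoordh : ∀ h k : ℝ, (star wh * (u * (h : ℂ) - v * (k : ℂ))).re = h := by
    intro h k
    have e : star wh * (u * (h : ℂ) - v * (k : ℂ))
        = (-Complex.I) * ((star v * u) * (h : ℂ) - (star v * v) * (k : ℂ)) / (D : ℂ) := by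
      rw [hwh]
      simp only [star_div₀, star_mul, RCLike.star_def, Complex.conj_I, Complex.conj_ofReal]
      ring
    rw [e, hvv, Complex.div_ofReal_re]
    have e2 : ((-Complex.I) * ((star v * u) * (h : ℂ) - 1 * (k : ℂ))).re = D * h := by
      rw [Complex.mul_re, Complex.sub_im, Complex.mul_im, ← hDdef]
      simp
    rw [e2]
    field_simp
  have hcoordk : ∀ h k : ℝ, (star wk * (u * (h : ℂ) - v * (k : ℂ))).re = k := by
    intro h k
    have e : star wk * (u * (h : ℂ) - v * (k : ℂ))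
        = (-Complex.I) * ((star u * u) * (h : ℂ) - (star u * v) * (k : ℂ)) / (D : ℂ) := by
      rw [hwk]
      simp only [star_div₀, star_mul, RCLike.star_def, Complex.conj_I, Complex.conj_ofReal]
      ring
    rw [e, huu, Complex.div_ofReal_re]
    have e2 : ((-Complex.I) * (1 * (h : ℂ) - (star u * v) * (k : ℂ))).re = D * k := by
      rw [Complex.mul_re, Complex.sub_im, Complex.mul_im, Complex.mul_im, huv]
      simp
    rw [e2]
    field_simp
  -- every complex number has coordinates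
  have hrep : ∀ y : ℂ, y = u * (((star wh * y).re : ℝ) : ℂ) - v * (((star wk * y).re : ℝ) : ℂ) := by
    intro y
    have hd : u.im * v.re - u.re * v.im = D := by
      rw [hDdef]
      simp [Complex.mul_im]
      ring
    have e1 : (star wh * y).re = (v.re * y.im - v.im * y.re) / D := by
      rw [hwh]
      simp only [star_div₀, star_mul, RCLike.star_def, Complex.conj_I, Complex.conj_ofReal]
      have : (starRingEnd ℂ) v * -Complex.I / (D : ℂ) * y
          = ((starRingEnd ℂ) v * -Complex.I * y) / (D : ℂ) := by ring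
      rw [this, Complex.div_ofReal_re]
      congr 1
      simp [Complex.mul_re, Complex.mul_im]
    have e2 : (star wk * y).re = (u.re * y.im - u.im * y.re) / D := by
      rw [hwk]
      simp only [star_div₀, star_mul, RCLike.star_def, Complex.conj_I, Complex.conj_ofReal]
      have : (starRingEnd ℂ) u * -Complex.I / (D : ℂ) * y
          = ((starRingEnd ℂ) u * -Complex.I * y) / (D : ℂ) := by ring
      rw [this, Complex.div_ofReal_re]
      congr 1
      simp [Complex.mul_re, Complex.mul_im]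
    rw [e1, e2]
    apply Complex.ext
    · simp only [Complex.sub_re, Complex.mul_re, Complex.ofReal_re, Complex.ofReal_im, mul_zero,
        sub_zero]
      field_simp
      linear_combination (-y.re) * hd
    · simp only [Complex.sub_im, Complex.mul_im, Complex.ofReal_re, Complex.ofReal_im, mul_zero,
        zero_add]
      field_simp
      linear_combination (-y.im) * hd
  set hh : n → ℝ := fun j => (star wh * z j).re with hhh
  set kk : n → ℝ := fun j => (star wk * z j).re with hkk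
  have hell : ∀ j, OnEll c ρ (hh j) (kk j) := by
    intro j
    unfold OnEll
    rw [← hnorm]
    have := hrep (z j)
    rw [← this, hz]
  -- forms on the spectral subspaces
  have hqf : ∀ x, qf (u • H - v • K) x = u * qf H x - v * qf K x := by
    intro x
    unfold qf
    rw [sub_mulVec, smul_mulVec, smul_mulVec, dotProduct_sub, dotProduct_smul, dotProduct_smul,
      smul_eq_mul, smul_eq_mul]
  have hreal : ∀ (M : Matrix n n ℂ), M.IsHermitian → ∀ x, ∃ r : ℝ, qf M x = (r : ℂ) := by
    intro M hM x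
    have h1 : star (qf M x) = qf M x := by
      unfold qf
      rw [star_form, hM.eq]
    exact ⟨(qf M x).re, (Complex.conj_eq_iff_re.mp h1).symm⟩
  have hfh : ∀ x, (star wh * qf (u • H - v • K) x).re = (qf H x).re := by
    intro x
    obtain ⟨r, hr⟩ := hreal H hH x
    obtain ⟨s, hs⟩ := hreal K hK x
    rw [hqf, hr, hs, hcoordh, Complex.ofReal_re]
  have hfk : ∀ x, (star wk * qf (u • H - v • K) x).re = (qf K x).re := by
    intro x
    obtain ⟨r, hr⟩ := hreal H hH x
    obtain ⟨s, hs⟩ := hreal K hK x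
    rw [hqf, hr, hs, hcoordk, Complex.ofReal_re]
  have hωh : (star wh * ω).re = h0 := hcoordh h0 k0
  have hωk : (star wk * ω).re = k0 := hcoordk h0 k0
  -- the four counts
  have c1 : (Finset.univ.filter (fun i => a1 ≤ hH.eigenvalues i)).card
      ≤ (Finset.univ.filter (fun j => a1 ≤ hh j)).card := by
    obtain ⟨L, hL, hL1, hL2⟩ := exists_spectral_map H hH
      (Finset.univ.filter (fun i => a1 ≤ hH.eigenvalues i))
    have := cap_bound C hC z W hW a1 wh L hL ?_
    · rwa [Fintype.card_coe] at this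
    · intro x
      refine (hmain a1 wh (by rw [hωh]; exact ha1) (L x)).trans ?_
      rw [hfh, hL1, hL2, Complex.ofReal_re, Finset.mul_sum, ← Finset.sum_sub_distrib]
      apply Finset.sum_nonpos
      intro i _
      have hi : a1 ≤ hH.eigenvalues i := (Finset.mem_filter.mp i.2).2
      have : 0 ≤ ‖x i‖ ^ 2 := by positivity
      nlinarith
  have c2 : (Finset.univ.filter (fun i => hH.eigenvalues i ≤ a2)).card
      ≤ (Finset.univ.filter (fun j => hh j ≤ a2)).card := by
    obtain ⟨L, hL, hL1, hL2⟩ := exists_spectral_map H hH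
      (Finset.univ.filter (fun i => hH.eigenvalues i ≤ a2))
    have := cap_bound C hC z W hW (-a2) (-wh) L hL ?_
    · rw [Fintype.card_coe] at this
      refine this.trans (Finset.card_le_card ?_)
      intro j hj
      rw [Finset.mem_filter] at hj ⊢
      refine ⟨hj.1, ?_⟩
      have h2 := hj.2
      rw [star_neg, neg_mul, Complex.neg_re] at h2
      change (star wh * z j).re ≤ a2
      linarith
    · intro x
      refine (hmain (-a2) (-wh) (by rw [star_neg, neg_mul, Complex.neg_re, hωh]; linarith)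
        (L x)).trans ?_
      have e : (star (-wh) * qf (u • H - v • K) (L x)).re = -(qf H (L x)).re := by
        rw [star_neg, neg_mul, Complex.neg_re, hfh]
      rw [e, hL1, hL2, Complex.ofReal_re, sub_neg_eq_add,
        Finset.mul_sum, ← Finset.sum_add_distrib]
      apply Finset.sum_nonpos
      intro i _
      have hi : hH.eigenvalues i ≤ a2 := (Finset.mem_filter.mp i.2).2
      have : 0 ≤ ‖x i‖ ^ 2 := by positivity
      nlinarith
  have c3 : (Finset.univ.filter (fun i => b1 ≤ hK.eigenvalues i)).card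
      ≤ (Finset.univ.filter (fun j => b1 ≤ kk j)).card := by
    obtain ⟨L, hL, hL1, hL2⟩ := exists_spectral_map K hK
      (Finset.univ.filter (fun i => b1 ≤ hK.eigenvalues i))
    have := cap_bound C hC z W hW b1 wk L hL ?_
    · rwa [Fintype.card_coe] at this
    · intro x
      refine (hmain b1 wk (by rw [hωk]; exact hb1) (L x)).trans ?_
      rw [hfk, hL1, hL2, Complex.ofReal_re, Finset.mul_sum, ← Finset.sum_sub_distrib]
      apply Finset.sum_nonpos
      intro i _
      have hi : b1 ≤ hK.eigenvalues i := (Finset.mem_filter.mp i.2).2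
      have : 0 ≤ ‖x i‖ ^ 2 := by positivity
      nlinarith
  have c4 : (Finset.univ.filter (fun i => hK.eigenvalues i ≤ b2)).card
      ≤ (Finset.univ.filter (fun j => kk j ≤ b2)).card := by
    obtain ⟨L, hL, hL1, hL2⟩ := exists_spectral_map K hK
      (Finset.univ.filter (fun i => hK.eigenvalues i ≤ b2))
    have := cap_bound C hC z W hW (-b2) (-wk) L hL ?_
    · rw [Fintype.card_coe] at this
      refine this.trans (Finset.card_le_card ?_)
      intro j hj
      rw [Finset.mem_filter] at hj ⊢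
      refine ⟨hj.1, ?_⟩
      have h2 := hj.2
      rw [star_neg, neg_mul, Complex.neg_re] at h2
      change (star wk * z j).re ≤ b2
      linarith
    · intro x
      refine (hmain (-b2) (-wk) (by rw [star_neg, neg_mul, Complex.neg_re, hωk]; linarith)
        (L x)).trans ?_
      have e : (star (-wk) * qf (u • H - v • K) (L x)).re = -(qf K (L x)).re := by
        rw [star_neg, neg_mul, Complex.neg_re, hfk]
      rw [e, hL1, hL2, Complex.ofReal_re, sub_neg_eq_add,
        Finset.mul_sum, ← Finset.sum_add_distrib]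
      apply Finset.sum_nonpos
      intro i _
      have hi : hK.eigenvalues i ≤ b2 := (Finset.mem_filter.mp i.2).2
      have : 0 ≤ ‖x i‖ ^ 2 := by positivity
      nlinarith
  -- disjointness
  set J1 := Finset.univ.filter (fun j => a1 ≤ hh j) with hJ1
  set J2 := Finset.univ.filter (fun j => hh j ≤ a2) with hJ2
  set J3 := Finset.univ.filter (fun j => b1 ≤ kk j) with hJ3
  set J4 := Finset.univ.filter (fun j => kk j ≤ b2) with hJ4
  have e12 : Disjoint J1 J2 := by
    rw [Finset.disjoint_left]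
    intro j h1 h2
    rw [hJ1, Finset.mem_filter] at h1
    rw [hJ2, Finset.mem_filter] at h2
    linarith [h1.2, h2.2]
  have e34 : Disjoint J3 J4 := by
    rw [Finset.disjoint_left]
    intro j h1 h2
    rw [hJ3, Finset.mem_filter] at h1
    rw [hJ4, Finset.mem_filter] at h2
    linarith [h1.2, h2.2]
  have e1234 : Disjoint (J1 ∪ J2) (J3 ∪ J4) := by
    rw [Finset.disjoint_left]
    intro j h1 h2
    rw [Finset.mem_union, hJ1, hJ2, Finset.mem_filter, Finset.mem_filter] at h1
    rw [Finset.mem_union, hJ3, hJ4, Finset.mem_filter, Finset.mem_filter] at h2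
    rcases h1 with h1 | h1 <;> rcases h2 with h2 | h2
    · exact d1 _ _ (hell j) ⟨h1.2, h2.2⟩
    · exact d2 _ _ (hell j) ⟨h1.2, h2.2⟩
    · exact d3 _ _ (hell j) ⟨h1.2, h2.2⟩
    · exact d4 _ _ (hell j) ⟨h1.2, h2.2⟩
  have htot : J1.card + J2.card + (J3.card + J4.card) ≤ Fintype.card n := by
    rw [← Finset.card_union_of_disjoint e12, ← Finset.card_union_of_disjoint e34,
      ← Finset.card_union_of_disjoint e1234]
    exact Finset.card_le_univ _
  omega

end Pool.Agent.Helper91.Spec
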