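import Mathlib
import Pool.Agent.Helper91.T1

set_option autoImplicit false
set_option linter.unusedSectionVars false

namespace Pool.Agent.Helper91.Spec

variable {n : Type} [Fintype n] [DecidableEq n]

/-- `f(a,b) = a² + b² - 2cab`. -/
def ff (c a b : ℝ) : ℝ := a ^ 2 + b ^ 2 - 2 * c * a * b

lemma ff_quadrant (c a b h k : ℝ) (hc1 : c ^ 2 < 1) (h1 : 0 ≤ (h - a) * (a - b * c))
    (h2 : 0 ≤ (k - b) * (b - a * c)) : ff c a b ≤ ff c h k := by
  have key : ff c h k - ff c a b = 2 * ((h - a) * (a - b * c)) + 2 * ((k - b) * (b - a * c))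
      + ((h - a) ^ 2 + (k - b) ^ 2 - 2 * c * (h - a) * (k - b)) := by
    unfold ff; ring
  have h3 : 0 ≤ (h - a) ^ 2 + (k - b) ^ 2 - 2 * c * (h - a) * (k - b) := by
    nlinarith [sq_nonneg ((h - a) - c * (k - b)), sq_nonneg (k - b)]
  linarith

lemma rel1 (c ρ s a b : ℝ) (hc : 0 ≤ c) (hs : 0 < s) (hρ : 0 < ρ)
    (hs2 : s ^ 2 = 1 - c ^ 2) (hb : b ^ 2 * s ^ 2 < ρ ^ 2) (hf : ρ ^ 2 < ff c a b)
    (has : c * ρ ≤ a * s) : b * c < a := by
  by_contra hcon
  push Not at hcon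
  have e : ff c a b = (a - b * c) ^ 2 + b ^ 2 * s ^ 2 := by
    unfold ff; rw [hs2]; ring
  have hne : a ≠ b * c := by
    intro h
    rw [e, h] at hf
    simp at hf
    linarith
  have hlt : a < b * c := lt_of_le_of_ne hcon hne
  have h1 : a * s < b * c * s := mul_lt_mul_of_pos_right hlt hs
  have h2 : b * s < ρ := by
    by_contra h
    push Not at h
    nlinarith
  nlinarith

lemma rel2 (c ρ s a b : ℝ) (hc : 0 ≤ c) (hs : 0 < s) (hρ : 0 < ρ)
    (hs2 : s ^ 2 = 1 - c ^ 2) (hba : a * c < b) (hf : ρ ^ 2 < ff c a b)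
    (has : a * s < c * ρ) : a < b * c := by
  by_contra hcon
  push Not at hcon
  rcases hc.eq_or_lt with h0 | h0
  · rw [← h0] at hcon has
    simp only [mul_zero] at hcon
    nlinarith
  · have e : ff c a b = (b - a * c) ^ 2 + a ^ 2 * s ^ 2 := by
      unfold ff; rw [hs2]; ring
    -- `c (b - a c) ≤ a s²`
    have h1 : c * (b - a * c) ≤ a * s ^ 2 := by rw [hs2]; nlinarith
    have h2 : 0 < c * (b - a * c) := by nlinarith
    have ha : 0 < a := by
      by_contra h
      push Not at h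
      nlinarith [sq_nonneg s]
    have h3 : (c * (b - a * c)) ^ 2 ≤ (a * s ^ 2) ^ 2 := by nlinarith
    -- `c² f ≤ a² s²`
    have h4 : c ^ 2 * ff c a b ≤ (a * s) ^ 2 := by
      rw [e]
      have : c ^ 2 * ((b - a * c) ^ 2 + a ^ 2 * s ^ 2)
          = (c * (b - a * c)) ^ 2 + c ^ 2 * (a ^ 2 * s ^ 2) := by ring
      rw [this]
      have h5 : c ^ 2 = 1 - s ^ 2 := by linarith
      have : (a * s ^ 2) ^ 2 + c ^ 2 * (a ^ 2 * s ^ 2) = (a * s) ^ 2 := by
        rw [h5]; ring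
      linarith
    have h6 : (a * s) ^ 2 < (c * ρ) ^ 2 := by
      have : 0 < a * s := by positivity
      nlinarith
    have h7 : c ^ 2 * ρ ^ 2 < c ^ 2 * ff c a b := by
      apply mul_lt_mul_of_pos_left hf
      positivity
    nlinarith

lemma ff_neg (c a b : ℝ) : ff c (-a) (-b) = ff c a b := by unfold ff; ring

lemma rel3 (c ρ s a b : ℝ) (hc : 0 ≤ c) (hs : 0 < s) (hρ : 0 < ρ)
    (hs2 : s ^ 2 = 1 - c ^ 2) (hba : b < a * c) (hf : ρ ^ 2 < ff c a b)
    (has : -(c * ρ) < a * s) : b * c < a := by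
  have := rel2 c ρ s (-a) (-b) hc hs hρ hs2 (by linarith) (by rwa [ff_neg]) (by linarith)
  linarith

lemma rel4 (c ρ s a b : ℝ) (hc : 0 ≤ c) (hs : 0 < s) (hρ : 0 < ρ)
    (hs2 : s ^ 2 = 1 - c ^ 2) (hb : b ^ 2 * s ^ 2 < ρ ^ 2) (hf : ρ ^ 2 < ff c a b)
    (has : a * s ≤ -(c * ρ)) : a < b * c := by
  have := rel1 c ρ s (-a) (-b) hc hs hρ hs2 (by nlinarith) (by rwa [ff_neg]) (by linarith)
  linarith

lemma exists_min_threshold (A : Finset n) (a : n → ℝ) (R : ℝ) :
    ∃ m, (∀ i ∈ A, m ≤ a i) ∧ ((m = R ∧ A = ∅) ∨ ∃ i ∈ A, m = a i) := by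
  rcases A.eq_empty_or_nonempty with h | h
  · exact ⟨R, by simp [h], Or.inl ⟨rfl, h⟩⟩
  · obtain ⟨i, hi, hmin⟩ := A.exists_min_image a h
    exact ⟨a i, hmin, Or.inr ⟨i, hi, rfl⟩⟩

lemma exists_max_threshold (A : Finset n) (a : n → ℝ) (R : ℝ) :
    ∃ m, (∀ i ∈ A, a i ≤ m) ∧ ((m = R ∧ A = ∅) ∨ ∃ i ∈ A, m = a i) := by
  rcases A.eq_empty_or_nonempty with h | h
  · exact ⟨R, by simp [h], Or.inl ⟨rfl, h⟩⟩
  · obtain ⟨i, hi, hmax⟩ := A.exists_max_image a h
    exact ⟨a i, hmax, Or.inr ⟨i, hi, rfl⟩⟩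

/-- The counting hypothesis supplied by `four_caps`. -/
def CapsHyp (a b : n → ℝ) (c ρ : ℝ) : Prop :=
  ∀ a1 a2 b1 b2 : ℝ,
    (∃ h k, OnEll c ρ h k ∧ a2 ≤ h ∧ h ≤ a1 ∧ b2 ≤ k ∧ k ≤ b1) →
    (∀ h k, OnEll c ρ h k → ¬ (a1 ≤ h ∧ b1 ≤ k)) →
    (∀ h k, OnEll c ρ h k → ¬ (a1 ≤ h ∧ k ≤ b2)) →
    (∀ h k, OnEll c ρ h k → ¬ (h ≤ a2 ∧ b1 ≤ k)) →
    (∀ h k, OnEll c ρ h k → ¬ (h ≤ a2 ∧ k ≤ b2)) →
    a2 < a1 → b2 < b1 →
    (Finset.univ.filter (fun i => a1 ≤ a i)).card
      + (Finset.univ.filter (fun i => a i ≤ a2)).card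
      + (Finset.univ.filter (fun i => b1 ≤ b i)).card
      + (Finset.univ.filter (fun i => b i ≤ b2)).card ≤ Fintype.card n

/-- The final count: all non-neighbours lie on the two outer sides. -/
lemma final_count (a b : n → ℝ) (c ρ s : ℝ) (hc : 0 ≤ c) (hc1 : c ^ 2 < 1) (hs : 0 < s)
    (hρ : 0 < ρ) (hs2 : s ^ 2 = 1 - c ^ 2) (ha : ∀ i, a i ^ 2 * s ^ 2 < ρ ^ 2)
    (hb : ∀ i, b i ^ 2 * s ^ 2 < ρ ^ 2) (hcaps : CapsHyp a b c ρ)
    (S Bp Bm : Finset n) (hSne : S.Nonempty) (hne : (Bp ∪ Bm).Nonempty)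
    (hfp : ∀ i ∈ S, ∀ k ∈ Bp, ρ ^ 2 < ff c (a i) (b k) ∧ a i * c < b k)
    (hfm : ∀ i ∈ S, ∀ k ∈ Bm, ρ ^ 2 < ff c (a i) (b k) ∧ b k < a i * c) :
    S.card + Bp.card + Bm.card ≤ Fintype.card n := by
  set R : ℝ := ρ / s + 1 with hR
  have hRpos : 0 < R := by positivity
  have hRs : ρ < R * s := by
    rw [hR, add_mul, div_mul_cancel₀ _ hs.ne']
    linarith
  have hsq_lt : ∀ x : ℝ, x ^ 2 * s ^ 2 ≤ ρ ^ 2 → -R < x ∧ x < R := by
    intro x hx
    have h1 : (x * s) ^ 2 ≤ ρ ^ 2 := by nlinarith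
    have h2 := abs_le_of_sq_le_sq' h1 hρ.le
    constructor
    · by_contra h
      push Not at h
      nlinarith [h2.1]
    · by_contra h
      push Not at h
      nlinarith [h2.2]
  have haR : ∀ i, -R < a i ∧ a i < R := fun i => hsq_lt _ (ha i).le
  have hbR : ∀ i, -R < b i ∧ b i < R := fun i => hsq_lt _ (hb i).le
  have hell : ∀ h k, OnEll c ρ h k → (-R < h ∧ h < R) ∧ (-R < k ∧ k < R) := by
    intro h k hk
    unfold OnEll at hk
    refine ⟨hsq_lt h ?_, hsq_lt k ?_⟩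
    · rw [hs2]; nlinarith [sq_nonneg (k - h * c)]
    · rw [hs2]; nlinarith [sq_nonneg (h - k * c)]
  -- classification of `S`
  set Ap := S.filter (fun i => c * ρ ≤ a i * s ∧ -(c * ρ) < a i * s) with hAp
  set Am := S.filter (fun i => a i * s ≤ -(c * ρ) ∧ a i * s < c * ρ) with hAm
  set A0 := S.filter (fun i => -(c * ρ) < a i * s ∧ a i * s < c * ρ) with hA0
  have hcρ : 0 ≤ c * ρ := by positivity
  have hApS : ∀ i ∈ Ap, i ∈ S := fun i hi => (Finset.mem_filter.mp hi).1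
  have hAmS : ∀ i ∈ Am, i ∈ S := fun i hi => (Finset.mem_filter.mp hi).1
  have hA0S : ∀ i ∈ A0, i ∈ S := fun i hi => (Finset.mem_filter.mp hi).1
  have hcover : S ⊆ (Ap ∪ Am) ∪ A0 := by
    intro i hi
    by_contra hcon
    rw [Finset.mem_union, Finset.mem_union, hAp, hAm, hA0, Finset.mem_filter, Finset.mem_filter,
      Finset.mem_filter] at hcon
    push Not at hcon
    obtain ⟨⟨h1, h2⟩, h3⟩ := hcon
    have h1' := h1 hi
    have h2' := h2 hi
    have h3' := h3 hi
    -- both inequalities hold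
    have h4 : c * ρ ≤ a i * s ∧ a i * s ≤ -(c * ρ) := by
      by_cases h5 : -(c * ρ) < a i * s
      · have h6 := h3' h5
        have h7 := h1' h6
        exact absurd h7 (not_le.mpr h5)
      · push Not at h5
        exact ⟨h2' h5, h5⟩
    have hc0 : c * ρ = 0 := by linarith [h4.1, h4.2]
    have hc00 : c = 0 := by
      rcases mul_eq_zero.mp hc0 with h | h
      · exact h
      · exact absurd h hρ.ne'
    have hai : a i = 0 := by
      have : a i * s = 0 := by linarith [h4.1, h4.2]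
      rcases mul_eq_zero.mp this with h | h
      · exact h
      · exact absurd h hs.ne'
    obtain ⟨k, hk⟩ := hne
    have hf : ρ ^ 2 < ff c (a i) (b k) := by
      rcases Finset.mem_union.mp hk with h | h
      · exact (hfp i hi k h).1
      · exact (hfm i hi k h).1
    have hb' := hb k
    unfold ff at hf
    rw [hai] at hf
    rw [hs2] at hb'
    rw [hc00] at hb' hf
    nlinarith
  have hScard : S.card ≤ Ap.card + Am.card + A0.card :=
    (Finset.card_le_card hcover).trans ((Finset.card_union_le _ _).trans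
      (Nat.add_le_add_right (Finset.card_union_le _ _) _))
  -- thresholds
  obtain ⟨αp, hαp1, hαp2⟩ := exists_min_threshold Ap a R
  obtain ⟨αm, hαm1, hαm2⟩ := exists_max_threshold Am a (-R)
  obtain ⟨βp, hβp1, hβp2⟩ := exists_min_threshold Bp b R
  obtain ⟨βm, hβm1, hβm2⟩ := exists_max_threshold Bm b (-R)
  -- relations
  have r1 : ∀ i ∈ Ap, ∀ k ∈ Bp, b k * c < a i := by
    intro i hi k hk
    obtain ⟨hf, _⟩ := hfp i (hApS i hi) k hk
    exact rel1 c ρ s (a i) (b k) hc hs hρ hs2 (hb k) hf (Finset.mem_filter.mp hi).2.1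
  have r3 : ∀ i ∈ S, -(c * ρ) < a i * s → ∀ k ∈ Bm, b k * c < a i := by
    intro i hi h k hk
    obtain ⟨hf, hlt⟩ := hfm i hi k hk
    exact rel3 c ρ s (a i) (b k) hc hs hρ hs2 hlt hf h
  have r2 : ∀ i ∈ S, a i * s < c * ρ → ∀ k ∈ Bp, a i < b k * c := by
    intro i hi h k hk
    obtain ⟨hf, hlt⟩ := hfp i hi k hk
    exact rel2 c ρ s (a i) (b k) hc hs hρ hs2 hlt hf h
  have r4 : ∀ i ∈ Am, ∀ k ∈ Bm, a i < b k * c := by
    intro i hi k hk
    obtain ⟨hf, _⟩ := hfm i (hAmS i hi) k hk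
    exact rel4 c ρ s (a i) (b k) hc hs hρ hs2 (hb k) hf (Finset.mem_filter.mp hi).2.1
  -- quadrant exclusions
  have q : ∀ i k h k', OnEll c ρ h k' → ρ ^ 2 < ff c (a i) (b k) →
      0 ≤ (h - a i) * (a i - b k * c) → 0 ≤ (k' - b k) * (b k - a i * c) → False := by
    intro i k h k' hk' hf h1 h2
    have := ff_quadrant c (a i) (b k) h k' hc1 h1 h2
    unfold OnEll at hk'
    have e : ff c h k' = ρ ^ 2 := hk'
    linarith
  have D1 : ∀ h k, OnEll c ρ h k → ¬ (αp ≤ h ∧ βp ≤ k) := by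
    rintro h k hk ⟨h1, h2⟩
    rcases hαp2 with ⟨h3, _⟩ | ⟨i, hi, h3⟩
    · have := (hell h k hk).1.2; linarith
    · rcases hβp2 with ⟨h4, _⟩ | ⟨l, hl, h4⟩
      · have := (hell h k hk).2.2; linarith
      · have hf := hfp i (hApS i hi) l hl
        have hr := r1 i hi l hl
        exact q i l h k hk hf.1 (mul_nonneg (by linarith) (by linarith))
          (mul_nonneg (by linarith) (by linarith [hf.2]))
  have D2 : ∀ h k, OnEll c ρ h k → ¬ (αp ≤ h ∧ k ≤ βm) := by
    rintro h k hk ⟨h1, h2⟩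
    rcases hαp2 with ⟨h3, _⟩ | ⟨i, hi, h3⟩
    · have := (hell h k hk).1.2; linarith
    · rcases hβm2 with ⟨h4, _⟩ | ⟨l, hl, h4⟩
      · have := (hell h k hk).2.1; linarith
      · have hf := hfm i (hApS i hi) l hl
        have hr := r3 i (hApS i hi) (Finset.mem_filter.mp hi).2.2 l hl
        exact q i l h k hk hf.1 (mul_nonneg (by linarith) (by linarith))
          (mul_nonneg_of_nonpos_of_nonpos (by linarith) (by linarith [hf.2]))
  have D3 : ∀ h k, OnEll c ρ h k → ¬ (h ≤ αm ∧ βp ≤ k) := by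
    rintro h k hk ⟨h1, h2⟩
    rcases hαm2 with ⟨h3, _⟩ | ⟨i, hi, h3⟩
    · have := (hell h k hk).1.1; linarith
    · rcases hβp2 with ⟨h4, _⟩ | ⟨l, hl, h4⟩
      · have := (hell h k hk).2.2; linarith
      · have hf := hfp i (hAmS i hi) l hl
        have hr := r2 i (hAmS i hi) (Finset.mem_filter.mp hi).2.2 l hl
        exact q i l h k hk hf.1 (mul_nonneg_of_nonpos_of_nonpos (by linarith) (by linarith))
          (mul_nonneg (by linarith) (by linarith [hf.2]))
  have D4 : ∀ h k, OnEll c ρ h k → ¬ (h ≤ αm ∧ k ≤ βm) := by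
    rintro h k hk ⟨h1, h2⟩
    rcases hαm2 with ⟨h3, _⟩ | ⟨i, hi, h3⟩
    · have := (hell h k hk).1.1; linarith
    · rcases hβm2 with ⟨h4, _⟩ | ⟨l, hl, h4⟩
      · have := (hell h k hk).2.1; linarith
      · have hf := hfm i (hAmS i hi) l hl
        have hr := r4 i hi l hl
        exact q i l h k hk hf.1 (mul_nonneg_of_nonpos_of_nonpos (by linarith) (by linarith))
          (mul_nonneg_of_nonpos_of_nonpos (by linarith) (by linarith [hf.2]))
  have hβmβp : βm < βp := by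
    obtain ⟨i, hi⟩ := hSne
    rcases hβm2 with ⟨h4, _⟩ | ⟨l, hl, h4⟩
    · rcases hβp2 with ⟨h5, _⟩ | ⟨m, hm, h5⟩
      · linarith
      · linarith [(hbR m).1]
    · rcases hβp2 with ⟨h5, _⟩ | ⟨m, hm, h5⟩
      · linarith [(hbR l).2]
      · linarith [(hfm i hi l hl).2, (hfp i hi m hm).2]
  -- base points
  have base : ∀ i ∈ S, ∃ k, OnEll c ρ (a i) k ∧ βm ≤ k ∧ k ≤ βp := by
    intro i hi
    have h0 : 0 < ρ ^ 2 - a i ^ 2 * s ^ 2 := by linarith [ha i]
    set r := Real.sqrt (ρ ^ 2 - a i ^ 2 * s ^ 2) with hr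
    have hr2 : r ^ 2 = ρ ^ 2 - a i ^ 2 * s ^ 2 := Real.sq_sqrt h0.le
    have hr0 : 0 ≤ r := Real.sqrt_nonneg _
    have hon : OnEll c ρ (a i) (a i * c - r) := by
      unfold OnEll
      rw [hs2] at hr2
      nlinarith
    refine ⟨a i * c - r, hon, ?_, ?_⟩
    · rcases hβm2 with ⟨h4, _⟩ | ⟨l, hl, h4⟩
      · linarith [(hell _ _ hon).2.1]
      · obtain ⟨hf, hlt⟩ := hfm i hi l hl
        have e : ff c (a i) (b l) = (a i * c - b l) ^ 2 + a i ^ 2 * s ^ 2 := by
          unfold ff; rw [hs2]; ring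
        rw [e] at hf
        have h5 : r ^ 2 < (a i * c - b l) ^ 2 := by linarith
        have h6 : r < a i * c - b l := by
          by_contra hcon
          push Not at hcon
          nlinarith
        linarith
    · rcases hβp2 with ⟨h4, _⟩ | ⟨l, hl, h4⟩
      · linarith [(hell _ _ hon).2.2]
      · linarith [(hfp i hi l hl).2]
  have cAp : Ap.card ≤ (Finset.univ.filter (fun i => αp ≤ a i)).card :=
    Finset.card_le_card (fun i hi => Finset.mem_filter.mpr ⟨Finset.mem_univ i, hαp1 i hi⟩)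
  have cAm : Am.card ≤ (Finset.univ.filter (fun i => a i ≤ αm)).card :=
    Finset.card_le_card (fun i hi => Finset.mem_filter.mpr ⟨Finset.mem_univ i, hαm1 i hi⟩)
  have cBp : Bp.card ≤ (Finset.univ.filter (fun i => βp ≤ b i)).card :=
    Finset.card_le_card (fun i hi => Finset.mem_filter.mpr ⟨Finset.mem_univ i, hβp1 i hi⟩)
  have cBm : Bm.card ≤ (Finset.univ.filter (fun i => b i ≤ βm)).card :=
    Finset.card_le_card (fun i hi => Finset.mem_filter.mpr ⟨Finset.mem_univ i, hβm1 i hi⟩)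
  rcases A0.eq_empty_or_nonempty with h0 | h0
  · -- four caps
    have hαmαp : αm < αp := by
      rcases hαm2 with ⟨h4, _⟩ | ⟨l, hl, h4⟩
      · rcases hαp2 with ⟨h5, _⟩ | ⟨m, hm, h5⟩
        · linarith
        · linarith [(haR m).1]
      · rcases hαp2 with ⟨h5, _⟩ | ⟨m, hm, h5⟩
        · linarith [(haR l).2]
        · have h6 := (Finset.mem_filter.mp hl).2.2
          have h7 := (Finset.mem_filter.mp hm).2.1
          rw [h4, h5]
          by_contra hcon
          push Not at hcon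
          nlinarith
    have hω : ∃ h k, OnEll c ρ h k ∧ αm ≤ h ∧ h ≤ αp ∧ βm ≤ k ∧ k ≤ βp := by
      rcases hαp2 with ⟨h5, h5'⟩ | ⟨m, hm, h5⟩
      · rcases hαm2 with ⟨h4, h4'⟩ | ⟨l, hl, h4⟩
        · exfalso
          obtain ⟨i, hi⟩ := hSne
          have := hcover hi
          rw [h5', h4', h0] at this
          simp at this
        · obtain ⟨k, hk1, hk2, hk3⟩ := base l (hAmS l hl)
          exact ⟨a l, k, hk1, by linarith, by linarith, hk2, hk3⟩
      · obtain ⟨k, hk1, hk2, hk3⟩ := base m (hApS m hm)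
        exact ⟨a m, k, hk1, by linarith, by linarith, hk2, hk3⟩
    have := hcaps αp αm βp βm hω D1 D2 D3 D4 hαmαp hβmβp
    rw [h0, Finset.card_empty] at hScard
    omega
  · -- two applications with three caps
    obtain ⟨p, hp, hpmax⟩ := A0.exists_max_image a h0
    obtain ⟨t, ht, htmin⟩ := A0.exists_min_image a h0
    have hp2 := (Finset.mem_filter.mp hp).2
    have ht2 := (Finset.mem_filter.mp ht).2
    have hpα : a p < αp := by
      rcases hαp2 with ⟨h5, _⟩ | ⟨m, hm, h5⟩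
      · rw [h5]; exact (haR p).2
      · have h7 := (Finset.mem_filter.mp hm).2.1
        rw [h5]
        by_contra hcon
        push Not at hcon
        nlinarith [hp2.2]
    have htα : αm < a t := by
      rcases hαm2 with ⟨h5, _⟩ | ⟨m, hm, h5⟩
      · rw [h5]; exact (haR t).1
      · have h7 := (Finset.mem_filter.mp hm).2.1
        rw [h5]
        by_contra hcon
        push Not at hcon
        nlinarith [ht2.1]
    have hI := hcaps αp (a p) βp (-R)
      (by
        obtain ⟨k, hk1, hk2, hk3⟩ := base p (hA0S p hp)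
        exact ⟨a p, k, hk1, le_refl _, hpα.le, (hell _ _ hk1).2.1.le, hk3⟩)
      D1
      (by rintro h k hk ⟨h1, h2⟩; linarith [(hell h k hk).2.1])
      (by
        rintro h k hk ⟨h1, h2⟩
        rcases hβp2 with ⟨h4, _⟩ | ⟨l, hl, h4⟩
        · have := (hell h k hk).2.2; linarith
        · have hf := hfp p (hA0S p hp) l hl
          have hr := r2 p (hA0S p hp) hp2.2 l hl
          exact q p l h k hk hf.1 (mul_nonneg_of_nonpos_of_nonpos (by linarith) (by linarith))
            (mul_nonneg (by linarith) (by linarith [hf.2])))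
      (by rintro h k hk ⟨h1, h2⟩; linarith [(hell h k hk).2.1])
      hpα
      (by
        rcases hβp2 with ⟨h5, _⟩ | ⟨m, hm, h5⟩
        · linarith
        · linarith [(hbR m).1])
    have hII := hcaps (a t) αm R βm
      (by
        obtain ⟨k, hk1, hk2, hk3⟩ := base t (hA0S t ht)
        exact ⟨a t, k, hk1, htα.le, le_refl _, hk2, (hell _ _ hk1).2.2.le⟩)
      (by rintro h k hk ⟨h1, h2⟩; linarith [(hell h k hk).2.2])
      (by
        rintro h k hk ⟨h1, h2⟩
        rcases hβm2 with ⟨h4, _⟩ | ⟨l, hl, h4⟩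
        · have := (hell h k hk).2.1; linarith
        · have hf := hfm t (hA0S t ht) l hl
          have hr := r3 t (hA0S t ht) ht2.1 l hl
          exact q t l h k hk hf.1 (mul_nonneg (by linarith) (by linarith))
            (mul_nonneg_of_nonpos_of_nonpos (by linarith) (by linarith [hf.2])))
      (by rintro h k hk ⟨h1, h2⟩; linarith [(hell h k hk).2.2])
      D4
      htα
      (by
        rcases hβm2 with ⟨h5, _⟩ | ⟨m, hm, h5⟩
        · linarith
        · linarith [(hbR m).2])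
    have hsum : Fintype.card n + A0.card ≤ (Finset.univ.filter (fun i => a i ≤ a p)).card
        + (Finset.univ.filter (fun i => a t ≤ a i)).card := by
      rw [← Finset.card_union_add_card_inter]
      apply Nat.add_le_add
      · rw [← Finset.card_univ]
        apply Finset.card_le_card
        intro i _
        rw [Finset.mem_union, Finset.mem_filter, Finset.mem_filter]
        rcases le_total (a i) (a p) with h | h
        · exact Or.inl ⟨Finset.mem_univ i, h⟩
        · exact Or.inr ⟨Finset.mem_univ i, (htmin p hp).trans h⟩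
      · apply Finset.card_le_card
        intro i hi
        rw [Finset.mem_inter, Finset.mem_filter, Finset.mem_filter]
        exact ⟨⟨Finset.mem_univ i, hpmax i hi⟩, ⟨Finset.mem_univ i, htmin i hi⟩⟩
    omega

end Pool.Agent.Helper91.Spec
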