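import Mathlib
import Pool.Agent.Helper91.T2

set_option autoImplicit false
set_option linter.unusedSectionVars false

namespace Pool.Agent.Helper91.Spec

variable {n : Type} [Fintype n] [DecidableEq n]

open Finset

lemma ff_eq (c s a b : ℝ) (hs2 : s ^ 2 = 1 - c ^ 2) :
    ff c a b = (b - a * c) ^ 2 + a ^ 2 * s ^ 2 := by
  unfold ff; rw [hs2]; ring

/-- Neighbours of `i`. -/
noncomputable def nb (a b : n → ℝ) (c ρ : ℝ) (i : n) : Finset n :=
  Finset.univ.filter (fun k => ff c (a i) (b k) ≤ ρ ^ 2)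

lemma mem_nb (a b : n → ℝ) (c ρ : ℝ) (i k : n) :
    k ∈ nb a b c ρ i ↔ ff c (a i) (b k) ≤ ρ ^ 2 := by
  simp [nb]

lemma hall_card (a b : n → ℝ) (c ρ s : ℝ) (hc : 0 ≤ c) (hc1 : c ^ 2 < 1) (hs : 0 < s)
    (hρ : 0 < ρ) (hs2 : s ^ 2 = 1 - c ^ 2) (ha : ∀ i, a i ^ 2 * s ^ 2 < ρ ^ 2)
    (hb : ∀ i, b i ^ 2 * s ^ 2 < ρ ^ 2) (hcaps : CapsHyp a b c ρ) :
    ∀ S : Finset n, S.card ≤ (S.biUnion (nb a b c ρ)).card := by
  intro S
  induction S using Finset.strongInduction with
  | H S ih =>
  rcases S.eq_empty_or_nonempty with hS | hSne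
  · simp [hS]
  have hnot : ∀ k, k ∉ S.biUnion (nb a b c ρ) → ∀ i ∈ S, ρ ^ 2 < ff c (a i) (b k) := by
    intro k hk i hi
    by_contra hcon
    apply hk
    rw [Finset.mem_biUnion]
    refine ⟨i, hi, ?_⟩
    rw [mem_nb]
    exact not_lt.mp hcon
  have hneq : ∀ k, k ∉ S.biUnion (nb a b c ρ) → ∀ i ∈ S, a i * c < b k ∨ b k < a i * c := by
    intro k hk i hi
    apply lt_or_gt_of_ne
    intro heq
    have h1 := hnot k hk i hi
    rw [ff_eq c s _ _ hs2, ← heq] at h1
    have := ha i
    simp at h1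
    linarith
  by_cases hcase : ∃ k0, k0 ∉ S.biUnion (nb a b c ρ) ∧ (∃ i ∈ S, a i * c < b k0) ∧
      (∃ i ∈ S, b k0 < a i * c)
  · obtain ⟨k0, hk0, ⟨i1, hi1, h1⟩, ⟨i2, hi2, h2⟩⟩ := hcase
    set S1 := S.filter (fun i => a i * c < b k0) with hS1
    set S2 := S.filter (fun i => b k0 < a i * c) with hS2
    have hsub1 : S1 ⊂ S := by
      rw [Finset.ssubset_iff_of_subset (Finset.filter_subset _ _)]
      exact ⟨i2, hi2, by simp [hS1]; intro _; exact h2.le⟩
    have hsub2 : S2 ⊂ S := by
      rw [Finset.ssubset_iff_of_subset (Finset.filter_subset _ _)]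
      exact ⟨i1, hi1, by simp [hS2]; intro _; exact h1.le⟩
    have hunion : S = S1 ∪ S2 := by
      ext i
      simp only [hS1, hS2, Finset.mem_union, Finset.mem_filter]
      constructor
      · intro hi
        rcases hneq k0 hk0 i hi with h | h
        · exact Or.inl ⟨hi, h⟩
        · exact Or.inr ⟨hi, h⟩
      · rintro (h | h) <;> exact h.1
    have hN1 : ∀ k ∈ S1.biUnion (nb a b c ρ), b k < b k0 := by
      intro k hk
      rw [Finset.mem_biUnion] at hk
      obtain ⟨i, hi, hk⟩ := hk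
      rw [mem_nb, ff_eq c s _ _ hs2] at hk
      have hi' := (Finset.mem_filter.mp hi)
      have hnk := hnot k0 hk0 i hi'.1
      rw [ff_eq c s _ _ hs2] at hnk
      by_contra hcon
      push Not at hcon
      nlinarith [hi'.2]
    have hN2 : ∀ k ∈ S2.biUnion (nb a b c ρ), b k0 < b k := by
      intro k hk
      rw [Finset.mem_biUnion] at hk
      obtain ⟨i, hi, hk⟩ := hk
      rw [mem_nb, ff_eq c s _ _ hs2] at hk
      have hi' := (Finset.mem_filter.mp hi)
      have hnk := hnot k0 hk0 i hi'.1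
      rw [ff_eq c s _ _ hs2] at hnk
      by_contra hcon
      push Not at hcon
      nlinarith [hi'.2]
    have hdisj : Disjoint (S1.biUnion (nb a b c ρ)) (S2.biUnion (nb a b c ρ)) := by
      rw [Finset.disjoint_left]
      intro k hk1 hk2
      have := hN1 k hk1
      have := hN2 k hk2
      linarith
    calc S.card ≤ S1.card + S2.card := by
          rw [hunion]
          exact Finset.card_union_le _ _
      _ ≤ (S1.biUnion (nb a b c ρ)).card + (S2.biUnion (nb a b c ρ)).card :=
          add_le_add (ih S1 hsub1) (ih S2 hsub2)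
      _ = ((S1.biUnion (nb a b c ρ)) ∪ (S2.biUnion (nb a b c ρ))).card :=
          (Finset.card_union_of_disjoint hdisj).symm
      _ ≤ (S.biUnion (nb a b c ρ)).card := by
          apply Finset.card_le_card
          apply Finset.union_subset
          · exact Finset.biUnion_subset_biUnion_of_subset_left _ hsub1.1
          · exact Finset.biUnion_subset_biUnion_of_subset_left _ hsub2.1
  · push Not at hcase
    set N := S.biUnion (nb a b c ρ) with hN
    set Bp := Finset.univ.filter (fun k => k ∉ N ∧ ∀ i ∈ S, a i * c < b k) with hBp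
    set Bm := Finset.univ.filter (fun k => k ∉ N ∧ ∀ i ∈ S, b k < a i * c) with hBm
    have hcompl : Nᶜ ⊆ Bp ∪ Bm := by
      intro k hk
      rw [Finset.mem_compl] at hk
      simp only [hBp, hBm, Finset.mem_union, Finset.mem_filter, Finset.mem_univ, true_and]
      by_cases h : ∃ i ∈ S, a i * c < b k
      · left
        refine ⟨hk, fun i hi => ?_⟩
        obtain ⟨i1, hi1, h1⟩ := h
        have h2 := hcase k hk ⟨i1, hi1, h1⟩ i hi
        rcases hneq k hk i hi with h3 | h3
        · exact h3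
        · exact absurd h2 (not_le.mpr h3)
      · right
        push Not at h
        refine ⟨hk, fun i hi => ?_⟩
        rcases hneq k hk i hi with h3 | h3
        · exact absurd (h i hi) (not_le.mpr h3)
        · exact h3
    have hcardc : N.card + Nᶜ.card = Fintype.card n := Finset.card_add_card_compl N
    have hcc : Nᶜ.card ≤ Bp.card + Bm.card :=
      (Finset.card_le_card hcompl).trans (Finset.card_union_le _ _)
    rcases (Bp ∪ Bm).eq_empty_or_nonempty with hE | hE
    · rw [hE] at hcompl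
      have h0 : Nᶜ = ∅ := Finset.subset_empty.mp hcompl
      rw [h0, Finset.card_empty, add_zero] at hcardc
      rw [hcardc]
      exact Finset.card_le_univ S
    · have := final_count a b c ρ s hc hc1 hs hρ hs2 ha hb hcaps S Bp Bm hSne hE
        (fun i hi k hk => by
          have hk' := (Finset.mem_filter.mp hk).2
          exact ⟨hnot k hk'.1 i hi, hk'.2 i hi⟩)
        (fun i hi k hk => by
          have hk' := (Finset.mem_filter.mp hk).2
          exact ⟨hnot k hk'.1 i hi, hk'.2 i hi⟩)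
      omega

lemma hall_perm (a b : n → ℝ) (c ρ s : ℝ) (hc : 0 ≤ c) (hc1 : c ^ 2 < 1) (hs : 0 < s)
    (hρ : 0 < ρ) (hs2 : s ^ 2 = 1 - c ^ 2) (ha : ∀ i, a i ^ 2 * s ^ 2 < ρ ^ 2)
    (hb : ∀ i, b i ^ 2 * s ^ 2 < ρ ^ 2) (hcaps : CapsHyp a b c ρ) :
    ∃ σ : Equiv.Perm n, ∀ i, ff c (a i) (b (σ i)) ≤ ρ ^ 2 := by
  obtain ⟨f, hf, hf'⟩ := (Finset.all_card_le_biUnion_card_iff_exists_injective (nb a b c ρ)).mp
    (hall_card a b c ρ s hc hc1 hs hρ hs2 ha hb hcaps)
  have hbij : Function.Bijective f := Finite.injective_iff_bijective.mp hf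
  refine ⟨Equiv.ofBijective f hbij, fun i => ?_⟩
  have := hf' i
  rw [mem_nb] at this
  simpa using this

end Pool.Agent.Helper91.Spec
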