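import Mathlib
import Pool.Agent.Helper91.T3

set_option autoImplicit false
set_option linter.unusedSectionVars false

namespace Pool.Agent.Helper91.Spec

variable {n : Type} [Fintype n] [DecidableEq n]

open Matrix Finset
open scoped ComplexOrder

lemma qf_real (M : Matrix n n ℂ) (hM : M.IsHermitian) (x : n → ℂ) : ∃ r : ℝ, qf M x = (r : ℂ) := by
  have h1 : star (qf M x) = qf M x := by
    unfold qf
    rw [star_form, hM.eq]
  exact ⟨(qf M x).re, (Complex.conj_eq_iff_re.mp h1).symm⟩

lemma unit_facts (u v : ℂ) (hu : ‖u‖ = 1) (hv : ‖v‖ = 1) :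
    (star v * u).im ^ 2 = 1 - (star u * v).re ^ 2 := by
  have h1 : u.re * u.re + u.im * u.im = 1 := by
    rw [← Complex.normSq_apply, Complex.normSq_eq_norm_sq, hu]; norm_num
  have h2 : v.re * v.re + v.im * v.im = 1 := by
    rw [← Complex.normSq_apply, Complex.normSq_eq_norm_sq, hv]; norm_num
  have h3 : (star u * v).re = u.re * v.re + u.im * v.im := by
    simp [Complex.mul_re]
  have h4 : (star v * u).im = v.re * u.im - v.im * u.re := by
    simp [Complex.mul_im]; ring
  rw [h3, h4]
  linear_combination (v.re * v.re + v.im * v.im) * h1 + h2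

lemma norm_sq_eq (u v : ℂ) (hu : ‖u‖ = 1) (hv : ‖v‖ = 1) (h k : ℝ) :
    ‖u * (h : ℂ) - v * (k : ℂ)‖ ^ 2 = ff (star u * v).re h k := by
  have h1 : u.re * u.re + u.im * u.im = 1 := by
    rw [← Complex.normSq_apply, Complex.normSq_eq_norm_sq, hu]; norm_num
  have h2 : v.re * v.re + v.im * v.im = 1 := by
    rw [← Complex.normSq_apply, Complex.normSq_eq_norm_sq, hv]; norm_num
  have h3 : (star u * v).re = u.re * v.re + u.im * v.im := by
    simp [Complex.mul_re]
  unfold ff
  rw [← Complex.normSq_eq_norm_sq, Complex.normSq_apply, h3]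
  simp only [Complex.sub_re, Complex.mul_re, Complex.ofReal_re, Complex.ofReal_im, mul_zero,
    sub_zero, Complex.sub_im, Complex.mul_im, zero_add]
  linear_combination (h ^ 2) * h1 + (k ^ 2) * h2

open scoped Matrix.Norms.L2Operator in
/-- The eigenvalues of `H` lie within the admissible range. -/
lemma eig_range (H K : Matrix n n ℂ) (hH : H.IsHermitian) (hK : K.IsHermitian) (u v : ℂ)
    (hu : ‖u‖ = 1) (hv : ‖v‖ = 1) (i : n) :
    hH.eigenvalues i ^ 2 * (1 - (star u * v).re ^ 2) ≤ ‖u • H - v • K‖ ^ 2 := by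
  classical
  obtain ⟨L, hL, hL1, hL2⟩ := exists_spectral_map H hH {i}
  set x := L (fun _ => 1) with hx
  have h1 : nsq x = 1 := by
    rw [hx, hL1]; simp
  have h2 : qf H x = (hH.eigenvalues i : ℂ) := by
    rw [hx, hL2]
    simp
  obtain ⟨r, hr⟩ := qf_real K hK x
  have hq : qf (u • H - v • K) x = u * (hH.eigenvalues i : ℂ) - v * (r : ℂ) := by
    rw [← h2, ← hr]
    unfold qf
    rw [sub_mulVec, smul_mulVec, smul_mulVec, dotProduct_sub, dotProduct_smul, dotProduct_smul,
      smul_eq_mul, smul_eq_mul]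
  have hb := form_bound (u • H - v • K) x x
  have hb' : ‖qf (u • H - v • K) x‖ ≤ ‖u • H - v • K‖ := by
    have : ‖u • H - v • K‖ * ((nsq x + nsq x) / 2) = ‖u • H - v • K‖ := by rw [h1]; ring
    rw [this] at hb
    exact hb
  rw [hq] at hb'
  have h3 : ff (star u * v).re (hH.eigenvalues i) r ≤ ‖u • H - v • K‖ ^ 2 := by
    rw [← norm_sq_eq u v hu hv]
    exact pow_le_pow_left₀ (norm_nonneg _) hb' 2
  have h4 : ff (star u * v).re (hH.eigenvalues i) r
      = (r - hH.eigenvalues i * (star u * v).re) ^ 2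
        + hH.eigenvalues i ^ 2 * (1 - (star u * v).re ^ 2) := by
    unfold ff; ring
  nlinarith [sq_nonneg (r - hH.eigenvalues i * (star u * v).re)]

open scoped Matrix.Norms.L2Operator in
/-- The matching of eigenvalues. -/
lemma spectral_pair (H K : Matrix n n ℂ) (hH : H.IsHermitian) (hK : K.IsHermitian) (u v : ℂ)
    (hu : ‖u‖ = 1) (hv : ‖v‖ = 1) (hD : (star v * u).im ≠ 0) (hc : 0 ≤ (star u * v).re)
    (ρ : ℝ) (hS : ‖u • H - v • K‖ < ρ) :
    ∃ σ : Equiv.Perm n, ∀ i,
      ‖u * (hH.eigenvalues i : ℂ) - v * (hK.eigenvalues (σ i) : ℂ)‖ ≤ ρ := by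
  classical
  have hρ : 0 < ρ := (norm_nonneg _).trans_lt hS
  set c := (star u * v).re with hcdef
  set s := |(star v * u).im| with hs
  have hspos : 0 < s := abs_pos.mpr hD
  have hs2 : s ^ 2 = 1 - c ^ 2 := by
    rw [hs, sq_abs]
    exact unit_facts u v hu hv
  have hc1 : c ^ 2 < 1 := by nlinarith
  have hsq : ‖u • H - v • K‖ ^ 2 < ρ ^ 2 :=
    pow_lt_pow_left₀ hS (norm_nonneg _) (by norm_num)
  have ha : ∀ i, hH.eigenvalues i ^ 2 * s ^ 2 < ρ ^ 2 := by
    intro i
    have := eig_range H K hH hK u v hu hv i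
    rw [hs2]
    exact this.trans_lt hsq
  have hb : ∀ i, hK.eigenvalues i ^ 2 * s ^ 2 < ρ ^ 2 := by
    intro i
    have := eig_range K H hK hH v u hv hu i
    have h1 : (star v * u).re = c := by
      rw [hcdef]
      simp [Complex.mul_re]
      ring
    rw [h1, norm_sub_rev] at this
    rw [hs2]
    exact this.trans_lt hsq
  have hcaps : CapsHyp hH.eigenvalues hK.eigenvalues c ρ := by
    intro a1 a2 b1 b2 hω d1 d2 d3 d4 d5 d6
    exact four_caps H K hH hK u v hu hv hD ρ hρ hS a1 a2 b1 b2 hω d1 d2 d3 d4 d5 d6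
  obtain ⟨σ, hσ⟩ := hall_perm hH.eigenvalues hK.eigenvalues c ρ s hc hc1 hspos hρ hs2 ha hb hcaps
  refine ⟨σ, fun i => ?_⟩
  have h1 := hσ i
  rw [← norm_sq_eq u v hu hv] at h1
  exact (abs_le_of_sq_le_sq' h1 hρ.le).2

open scoped Matrix.Norms.L2Operator in
/-- A normal matrix with spectrum on a line is, up to an affine change, Hermitian. -/
lemma hermitian_of_line (A : Matrix n n ℂ) (hA : IsStarNormal A) (z0 u : ℂ) (hu : ‖u‖ = 1)
    (hspec : ∀ z ∈ spectrum ℂ A, ∃ t : ℝ, z = z0 + t * u) :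
    (star u • (A - z0 • (1 : Matrix n n ℂ))).IsHermitian := by
  have huu : star u * u = 1 := by
    rw [RCLike.star_def, ← Complex.normSq_eq_conj_mul_self, Complex.normSq_eq_norm_sq, hu]
    simp
  have hnormal : IsStarNormal (star u • (A - z0 • (1 : Matrix n n ℂ))) := by
    constructor
    rw [star_smul, star_sub, star_smul, star_one, star_star]
    apply Commute.smul_left
    apply Commute.smul_right
    apply Commute.sub_left
    · apply Commute.sub_right
      · exact hA.star_comm_self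
      · exact (Commute.one_right _).smul_right _
    · exact ((Commute.one_left _).smul_left _)
  have hr : SpectrumRestricts (star u • (A - z0 • (1 : Matrix n n ℂ))) Complex.reCLM := by
    rw [SpectrumRestricts.real_iff]
    intro x hx
    have hmem : z0 + u * x ∈ spectrum ℂ A := by
      rw [spectrum.mem_iff] at hx ⊢
      intro hunit
      apply hx
      have e : algebraMap ℂ (Matrix n n ℂ) x - star u • (A - z0 • (1 : Matrix n n ℂ))
          = star u • (algebraMap ℂ (Matrix n n ℂ) (z0 + u * x) - A) := by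
        rw [Algebra.algebraMap_eq_smul_one, Algebra.algebraMap_eq_smul_one, add_smul, smul_sub,
          smul_sub, smul_add, smul_smul (star u) (u * x), ← mul_assoc, huu, one_mul]
        abel
      rw [e]
      have hne : star u ≠ 0 := by
        intro h
        rw [h, zero_mul] at huu
        exact zero_ne_one huu
      have h5 := hunit.smul (Units.mk0 (star u) hne)
      rwa [Units.smul_def, Units.val_mk0] at h5
    obtain ⟨t, ht⟩ := hspec _ hmem
    have h1 : x = (t : ℂ) := by
      have h2 : u * x = t * u := by linear_combination ht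
      have h3 : star u * (u * x) = star u * (t * u) := by rw [h2]
      linear_combination h3 - (x - t) * huu
    rw [h1]
    simp
  exact QuasispectrumRestricts.isSelfAdjoint _ hr

/-- Two lists with the same multiset of values agree up to a permutation. -/
lemma perm_of_map_eq (f g : n → ℂ)
    (h : (Finset.univ : Finset n).val.map f = (Finset.univ : Finset n).val.map g) :
    ∃ σ : Equiv.Perm n, ∀ i, g (σ i) = f i := by
  classical
  have hcard : ∀ z : ℂ, Fintype.card {i // f i = z} = Fintype.card {i // g i = z} := by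
    intro z
    have h1 := congrArg (Multiset.count z) h
    rw [Multiset.count_map, Multiset.count_map] at h1
    rw [Fintype.card_subtype, Fintype.card_subtype]
    have e : ∀ k : n → ℂ, (Finset.univ.filter (fun i => k i = z)).card
        = (Multiset.filter (fun a => z = k a) (Finset.univ : Finset n).val).card := by
      intro k
      rw [Finset.card_def, Finset.filter_val]
      congr 1
      exact Multiset.filter_congr (fun x _ => eq_comm)
    rw [e, e]
    exact h1
  refine ⟨(Equiv.sigmaFiberEquiv f).symm.trans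
    ((Equiv.sigmaCongrRight (fun z => Fintype.equivOfCardEq (hcard z))).trans
      (Equiv.sigmaFiberEquiv g)), fun i => ?_⟩
  simp only [Equiv.trans_apply]
  have := ((Fintype.equivOfCardEq (hcard (f i))) ⟨i, rfl⟩).2
  exact this

/-- The eigenvalue list of `z₀ + u H`. -/
lemma roots_affine (H : Matrix n n ℂ) (hH : H.IsHermitian) (z0 u : ℂ) :
    (z0 • (1 : Matrix n n ℂ) + u • H).charpoly.roots
      = (Finset.univ : Finset n).val.map (fun i => z0 + u * (hH.eigenvalues i : ℂ)) := by
  obtain ⟨U, hU1, hU2, hU⟩ := herm_diag H hH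
  have e : z0 • (1 : Matrix n n ℂ) + u • H
      = U * (diagonal (fun i => z0 + u * (hH.eigenvalues i : ℂ)) * Uᴴ) := by
    have h1 : diagonal (fun i => z0 + u * (hH.eigenvalues i : ℂ))
        = z0 • (1 : Matrix n n ℂ) + u • diagonal (fun i => (hH.eigenvalues i : ℂ)) := by
      rw [← diagonal_one, ← diagonal_smul, ← diagonal_smul, diagonal_add]
      congr 1
      funext i
      simp
    rw [h1]
    conv_lhs => rw [hU]
    rw [add_mul, mul_add, smul_mul_assoc, one_mul, mul_smul_comm, hU2, smul_mul_assoc,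
      mul_smul_comm, Matrix.mul_assoc]
  rw [e, charpoly_mul_comm, Matrix.mul_assoc, hU1, Matrix.mul_one, charpoly_diagonal]
  have h2 := Polynomial.roots_multiset_prod_X_sub_C
    ((Finset.univ : Finset n).val.map (fun i => z0 + u * (hH.eigenvalues i : ℂ)))
  rw [Multiset.map_map] at h2
  exact h2

open scoped Matrix.Norms.L2Operator in
lemma spectral_lines_aux (A B : Matrix n n ℂ) (hA : IsStarNormal A) (hB : IsStarNormal B)
    (z0 u v : ℂ) (hu : ‖u‖ = 1) (hv : ‖v‖ = 1) (hD : (star v * u).im ≠ 0)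
    (hc : 0 ≤ (star u * v).re)
    (hAs : ∀ z ∈ spectrum ℂ A, ∃ t : ℝ, z = z0 + t * u)
    (hBs : ∀ z ∈ spectrum ℂ B, ∃ t : ℝ, z = z0 + t * v) (α β : n → ℂ)
    (hα : A.charpoly.roots = (Finset.univ : Finset n).val.map α)
    (hβ : B.charpoly.roots = (Finset.univ : Finset n).val.map β) (ρ : ℝ) (hρ : ‖A - B‖ < ρ) :
    ∃ σ : Equiv.Perm n, ∀ i, ‖α i - β (σ i)‖ ≤ ρ := by
  have hH := hermitian_of_line A hA z0 u hu hAs
  have hK := hermitian_of_line B hB z0 v hv hBs
  have huu : u * star u = 1 := by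
    rw [mul_comm, RCLike.star_def, ← Complex.normSq_eq_conj_mul_self, Complex.normSq_eq_norm_sq, hu]
    simp
  have hvv : v * star v = 1 := by
    rw [mul_comm, RCLike.star_def, ← Complex.normSq_eq_conj_mul_self, Complex.normSq_eq_norm_sq, hv]
    simp
  set H := star u • (A - z0 • (1 : Matrix n n ℂ)) with hHdef
  set K := star v • (B - z0 • (1 : Matrix n n ℂ)) with hKdef
  have eA : z0 • (1 : Matrix n n ℂ) + u • H = A := by
    rw [hHdef, smul_smul, huu, one_smul]
    abel
  have eB : z0 • (1 : Matrix n n ℂ) + v • K = B := by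
    rw [hKdef, smul_smul, hvv, one_smul]
    abel
  have eAB : u • H - v • K = A - B := by
    rw [← eA, ← eB]
    abel
  obtain ⟨σ0, hσ0⟩ := spectral_pair H K hH hK u v hu hv hD hc ρ (by rwa [eAB])
  have rA := roots_affine H hH z0 u
  have rB := roots_affine K hK z0 v
  rw [eA, hα] at rA
  rw [eB, hβ] at rB
  obtain ⟨τ1, hτ1⟩ := perm_of_map_eq _ _ rA
  obtain ⟨τ2, hτ2⟩ := perm_of_map_eq _ _ rB
  refine ⟨(τ1.trans σ0).trans τ2.symm, fun i => ?_⟩
  have h1 := hτ1 i
  have h2 := hτ2 (τ2.symm (σ0 (τ1 i)))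
  rw [Equiv.apply_symm_apply] at h2
  have h3 := hσ0 (τ1 i)
  simp only [Equiv.trans_apply]
  rw [← h1, ← h2]
  have e : z0 + u * (hH.eigenvalues (τ1 i) : ℂ) - (z0 + v * (hK.eigenvalues (σ0 (τ1 i)) : ℂ))
      = u * (hH.eigenvalues (τ1 i) : ℂ) - v * (hK.eigenvalues (σ0 (τ1 i)) : ℂ) := by ring
  rw [e]
  exact h3

open scoped Matrix.Norms.L2Operator in
/-- Spectra on two intersecting lines. -/
lemma spectral_lines (A B : Matrix n n ℂ) (hA : IsStarNormal A) (hB : IsStarNormal B)
    (z0 u v : ℂ) (hu : ‖u‖ = 1) (hv : ‖v‖ = 1) (hD : (star v * u).im ≠ 0)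
    (hAs : ∀ z ∈ spectrum ℂ A, ∃ t : ℝ, z = z0 + t * u)
    (hBs : ∀ z ∈ spectrum ℂ B, ∃ t : ℝ, z = z0 + t * v) (α β : n → ℂ)
    (hα : A.charpoly.roots = (Finset.univ : Finset n).val.map α)
    (hβ : B.charpoly.roots = (Finset.univ : Finset n).val.map β) (ρ : ℝ) (hρ : ‖A - B‖ < ρ) :
    ∃ σ : Equiv.Perm n, ∀ i, ‖α i - β (σ i)‖ ≤ ρ := by
  rcases le_total 0 (star u * v).re with hc | hc
  · exact spectral_lines_aux A B hA hB z0 u v hu hv hD hc hAs hBs α β hα hβ ρ hρ
  · refine spectral_lines_aux A B hA hB z0 u (-v) hu (by rwa [norm_neg]) ?_ ?_ hAs ?_ α β hα hβ ρ hρ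
    · rw [star_neg, neg_mul, Complex.neg_im]
      exact neg_ne_zero.mpr hD
    · rw [mul_neg, Complex.neg_re]
      linarith
    · intro z hz
      obtain ⟨t, ht⟩ := hBs z hz
      refine ⟨-t, ?_⟩
      rw [ht]
      push_cast
      ring

end Pool.Agent.Helper91.Spec
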